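import Mathlib
set_option linter.all false
open Complex MeasureTheory Set Filter Topology Metric

namespace Pool.Agent.Helper859.SP

/-- the inverse tangent integral, as a power series -/
noncomputable def Ti2 (z : ℂ) : ℂ := ∑' k : ℕ, (-1 : ℂ) ^ k * z ^ (2 * k + 1) / ((2 * k + 1 : ℕ) : ℂ) ^ 2

/-- the function `(1 - z)^3 * exp (-(2/π) Ti2 z)` -/
noncomputable def Sf (z : ℂ) : ℂ := (1 - z) ^ 3 * exp (-(2 / (Real.pi : ℂ)) * Ti2 z)

/-- modulus of `exp (-(2/π) Ti2)` on the circle -/
noncomputable def rho (t : ℝ) : ℝ := Real.exp (-(2 / Real.pi) * (Ti2 (exp (t * I))).re)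

/-- univalent functions with univalent derivative, normalised -/
structure InS' (f : ℂ → ℂ) : Prop where
  diff : DifferentiableOn ℂ f (ball 0 1)
  inj : InjOn f (ball 0 1)
  zero : f 0 = 0
  one : deriv f 0 = 1
  inj' : InjOn (deriv f) (ball 0 1)

/-- Taylor coefficient at the origin -/
noncomputable def coeff (n : ℕ) (f : ℂ → ℂ) : ℂ := iteratedDeriv n f 0 / (n.factorial : ℂ)

end Pool.Agent.Helper859.SP
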