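import Pool.Agent.Helper859.SP.Defs
set_option linter.all false
open Complex MeasureTheory Set Filter Topology Metric

namespace Pool.Agent.Helper859.SP.T1
open Pool.Agent.Helper859.SP

theorem Ti2_cont : ContinuousOn Ti2 (closedBall (0:ℂ) 1) := by
  unfold Ti2
  have hs : Summable (fun k : ℕ => (1:ℝ) / ((k + 1 : ℕ):ℝ) ^ 2) := by
    have h1 : Summable (fun k : ℕ => (1:ℝ) / (k:ℝ) ^ 2) :=
      Real.summable_one_div_nat_pow.2 (by norm_num)
    exact (summable_nat_add_iff (f := fun k : ℕ => (1:ℝ) / (k:ℝ) ^ 2) 1).2 h1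
  refine continuousOn_tsum (u := fun k : ℕ => (1:ℝ) / ((k + 1 : ℕ):ℝ) ^ 2) ?_ hs ?_
  · intro k
    fun_prop
  · intro k z hz
    rw [mem_closedBall, dist_zero_right] at hz
    rw [norm_div, norm_mul, norm_pow, norm_pow, norm_pow, norm_neg, norm_one, one_pow, one_mul,
      Complex.norm_natCast]
    have h1 : ‖z‖ ^ (2 * k + 1) ≤ 1 := pow_le_one₀ (norm_nonneg _) hz
    have h2 : ((k + 1 : ℕ):ℝ) ≤ ((2 * k + 1 : ℕ):ℝ) := by
      exact_mod_cast (by omega : k + 1 ≤ 2 * k + 1)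
    have h3 : (0:ℝ) < ((k + 1 : ℕ):ℝ) := by exact_mod_cast Nat.succ_pos k
    apply div_le_div₀ zero_le_one h1 (by positivity)
    exact pow_le_pow_left₀ h3.le h2 2

theorem Ti2_zero : Ti2 0 = 0 := by
  unfold Ti2
  have : ∀ k : ℕ, (-1 : ℂ) ^ k * (0:ℂ) ^ (2 * k + 1) / ((2 * k + 1 : ℕ) : ℂ) ^ 2 = 0 := by
    intro k
    rw [zero_pow (by omega), mul_zero, zero_div]
  simp only [this, tsum_zero]

theorem Ti2_conj (z : ℂ) : Ti2 (starRingEnd ℂ z) = starRingEnd ℂ (Ti2 z) := by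
  unfold Ti2
  rw [Complex.conj_tsum]
  apply tsum_congr
  intro k
  simp only [map_div₀, map_mul, map_pow, map_neg, map_one, Complex.conj_natCast]

end Pool.Agent.Helper859.SP.T1
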