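import Pool.Agent.Helper859.SP.Defs
set_option linter.all false
open Complex MeasureTheory Set Filter Topology Metric

namespace Pool.Agent.Helper859.SP.T10
open Pool.Agent.Helper859.SP

theorem h541_A (t : ℝ) : (1 - exp (t * I)) ^ 3 * exp (-(t * I)) =
    8 * I * (Real.sin (t / 2) : ℂ) ^ 3 * exp ((t / 2 : ℂ) * I) := by
  have e1 : exp (t * I) = exp ((t / 2 : ℂ) * I) ^ 2 := by
    rw [← Complex.exp_nat_mul]; congr 1; push_cast; ring
  have e2 : exp (-(t * I)) = exp (-((t / 2 : ℂ) * I)) ^ 2 := by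
    rw [← Complex.exp_nat_mul]; congr 1; push_cast; ring
  have e3 : exp ((t / 2 : ℂ) * I) * exp (-((t / 2 : ℂ) * I)) = 1 := by
    rw [← Complex.exp_add, add_neg_cancel, Complex.exp_zero]
  have e4 : (Real.sin (t / 2) : ℂ) = (exp (-((t / 2 : ℂ) * I)) - exp ((t / 2 : ℂ) * I)) * I / 2 := by
    rw [Complex.ofReal_sin, Complex.sin]
    push_cast
    ring_nf
  rw [e1, e2, e4]
  set a := exp ((t / 2 : ℂ) * I)
  set b := exp (-((t / 2 : ℂ) * I))
  have hI : (I : ℂ) ^ 4 = 1 := Complex.I_pow_four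
  have hI' : 8 * I * ((b - a) * I / 2) ^ 3 * a = (b - a) ^ 3 * a := by
    linear_combination ((b - a) ^ 3 * a) * hI
  rw [hI']
  have h2 : (1 - a ^ 2) ^ 3 * b ^ 2 = (b - a) ^ 3 * a + (1 - a ^ 2) ^ 3 * b ^ 2 - (b - a) ^ 3 * a := by ring
  have h3 : b - a = b * (1 - a ^ 2) := by linear_combination a * e3
  rw [h3]
  linear_combination (- (1 - a ^ 2) ^ 3 * b ^ 2) * e3

theorem h541_B (t : ℝ) : exp (-(2 / (Real.pi : ℂ)) * Ti2 (exp (t * I))) =
    (rho t : ℂ) * exp (((-(2 / Real.pi) * (Ti2 (exp (t * I))).im : ℝ) : ℂ) * I) := by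
  unfold rho
  rw [Complex.ofReal_exp, ← Complex.exp_add]
  congr 1
  conv_lhs => rw [← Complex.re_add_im (Ti2 (exp (t * I)))]
  push_cast
  ring

theorem bd_right (t : ℝ) (h0 : 0 ≤ t) (h1 : t ≤ Real.pi / 2) (him : (Ti2 (exp (t * I))).im = Real.pi / 4 * t) :
    Sf (exp (t * I)) * exp (-(t * I)) = 8 * I * (Real.sin (t / 2) : ℂ) ^ 3 * (rho t : ℂ) := by
  unfold Sf
  have hpi : Real.pi ≠ 0 := Real.pi_ne_zero
  have hB := h541_B t
  rw [him] at hB
  have e : -(2 / Real.pi) * (Real.pi / 4 * t) = -(t / 2) := by field_simp; ring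
  rw [e] at hB
  have hA := h541_A t
  have e3 : exp ((t / 2 : ℂ) * I) * exp (((-(t / 2) : ℝ) : ℂ) * I) = 1 := by
    rw [← Complex.exp_add, ← Complex.exp_zero]; congr 1; push_cast; ring
  rw [hB]
  calc (1 - exp (t * I)) ^ 3 * ((rho t : ℂ) * exp (((-(t / 2) : ℝ) : ℂ) * I)) * exp (-(t * I))
      = ((1 - exp (t * I)) ^ 3 * exp (-(t * I))) * ((rho t : ℂ) * exp (((-(t / 2) : ℝ) : ℂ) * I)) := by ring
    _ = 8 * I * (Real.sin (t / 2) : ℂ) ^ 3 * (rho t : ℂ) *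
        (exp ((t / 2 : ℂ) * I) * exp (((-(t / 2) : ℝ) : ℂ) * I)) := by rw [hA]; ring
    _ = _ := by rw [e3, mul_one]

theorem bd_left (t : ℝ) (h0 : Real.pi / 2 ≤ t) (h1 : t ≤ Real.pi) (him : (Ti2 (exp (t * I))).im = Real.pi / 4 * (Real.pi - t)) :
    Sf (exp (t * I)) * exp (-(t * I)) = 8 * (Real.sin (t / 2) : ℂ) ^ 3 * (rho t : ℂ) * exp (t * I) := by
  unfold Sf
  have hpi : Real.pi ≠ 0 := Real.pi_ne_zero
  have hB := h541_B t
  rw [him] at hB
  have e : -(2 / Real.pi) * (Real.pi / 4 * (Real.pi - t)) = t / 2 - Real.pi / 2 := by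
    field_simp; ring
  rw [e] at hB
  have hA := h541_A t
  have e3 : exp ((t / 2 : ℂ) * I) * exp (((t / 2 - Real.pi / 2 : ℝ) : ℂ) * I) = exp (t * I) * (-I) := by
    have h2 : exp (-(Real.pi / 2 : ℂ) * I) = -I := by
      rw [neg_mul, Complex.exp_neg]
      have : exp ((Real.pi / 2 : ℂ) * I) = I := by
        rw [Complex.exp_mul_I, ← Complex.ofReal_ofNat, ← Complex.ofReal_div, ← Complex.ofReal_cos,
          ← Complex.ofReal_sin, Real.cos_pi_div_two, Real.sin_pi_div_two]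
        simp
      rw [this, Complex.inv_I]
    rw [← h2, ← Complex.exp_add, ← Complex.exp_add]
    congr 1; push_cast; ring
  rw [hB]
  calc (1 - exp (t * I)) ^ 3 * ((rho t : ℂ) * exp (((t / 2 - Real.pi / 2 : ℝ) : ℂ) * I)) * exp (-(t * I))
      = ((1 - exp (t * I)) ^ 3 * exp (-(t * I))) *
        ((rho t : ℂ) * exp (((t / 2 - Real.pi / 2 : ℝ) : ℂ) * I)) := by ring
    _ = 8 * I * (Real.sin (t / 2) : ℂ) ^ 3 * (rho t : ℂ) *
        (exp ((t / 2 : ℂ) * I) * exp (((t / 2 - Real.pi / 2 : ℝ) : ℂ) * I)) := by rw [hA]; ring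
    _ = _ := by
      rw [e3]
      have hI : I * I = -1 := Complex.I_mul_I
      linear_combination (-8 * (Real.sin (t / 2) : ℂ) ^ 3 * (rho t : ℂ) * exp (t * I)) * hI

end Pool.Agent.Helper859.SP.T10
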