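import Pool.Agent.Helper859.SP.Defs
set_option linter.all false
open Complex MeasureTheory Set Filter Topology Metric

namespace Pool.Agent.Helper859.SP.T11
open Pool.Agent.Helper859.SP

theorem cauchy_id
    (hc : ContinuousOn Ti2 (closedBall (0:ℂ) 1))
    (hd : ∀ z ∈ ball (0:ℂ) 1, z ≠ 0 → HasDerivAt Ti2 (Complex.arctan z / z) z)
    (hd0 : HasDerivAt Ti2 1 0) (h0 : Ti2 0 = 0)
    (h : ℂ → ℂ) (R : ℝ) (hR : 1 < R) (hh : DifferentiableOn ℂ h (ball (0:ℂ) R)) :
    ∫ t in (0:ℝ)..(2 * Real.pi), h (exp (t * I)) * (Sf (exp (t * I)) * exp (-(t * I))) =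
      2 * Real.pi * (deriv h 0 + h 0 * (-3 - 2 / Real.pi)) := by
  have hSf : ∀ z ∈ ball (0:ℂ) 1, DifferentiableAt ℂ Ti2 z := by
    intro z hz
    by_cases hz0 : z = 0
    · rw [hz0]; exact hd0.differentiableAt
    · exact (hd z hz hz0).differentiableAt
  have hsub : closedBall (0:ℂ) 1 ⊆ ball 0 R := closedBall_subset_ball hR
  have hG : DiffContOnCl ℂ (fun z => h z * Sf z) (ball (0:ℂ) 1) := by
    refine ⟨?_, ?_⟩
    · intro z hz
      have h1 : DifferentiableAt ℂ h z :=
        (hh z (hsub (ball_subset_closedBall hz))).differentiableAt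
          (isOpen_ball.mem_nhds (hsub (ball_subset_closedBall hz)))
      have h2 := hSf z hz
      have h3 : DifferentiableAt ℂ Sf z := by
        unfold Sf
        fun_prop
      exact (h1.mul h3).differentiableWithinAt
    · rw [closure_ball (0:ℂ) one_ne_zero]
      have h1 : ContinuousOn h (closedBall (0:ℂ) 1) := hh.continuousOn.mono hsub
      have h3 : ContinuousOn Sf (closedBall (0:ℂ) 1) := by
        unfold Sf
        fun_prop
      exact h1.mul h3
  have hderiv : HasDerivAt (fun z => h z * Sf z) (deriv h 0 + h 0 * (-3 - 2 / Real.pi)) 0 := by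
    have h1 : HasDerivAt h (deriv h 0) 0 := by
      have h0R : (0:ℂ) ∈ ball (0:ℂ) R := by simp; linarith
      exact ((hh 0 h0R).differentiableAt (isOpen_ball.mem_nhds h0R)).hasDerivAt
    have h2 : HasDerivAt Sf (-3 - 2 / Real.pi) 0 := by
      have h3 : HasDerivAt (fun z : ℂ => (1 - z) ^ 3) (-3) 0 := by
        have h7 : HasDerivAt (fun z : ℂ => 1 - z) (-1) 0 := (hasDerivAt_id (0:ℂ)).const_sub 1
        have h8 : HasDerivAt (fun z : ℂ => (1 - z) ^ 3) _ 0 := h7.pow 3
        convert h8 using 1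
        norm_num
      have h4 : HasDerivAt (fun z : ℂ => exp (-(2 / (Real.pi : ℂ)) * Ti2 z)) (-(2 / (Real.pi : ℂ))) 0 := by
        have := (hd0.const_mul (-(2 / (Real.pi : ℂ)))).cexp
        simpa [h0] using this
      have h5 := h3.mul h4
      have h6 : HasDerivAt Sf _ 0 := h5
      convert h6 using 1
      simp [h0]
      ring
    have h3 := h1.mul h2
    have hS0 : Sf 0 = 1 := by simp [Sf, h0]
    rw [hS0, mul_one] at h3
    exact h3
  have key := DiffContOnCl.deriv_eq_smul_circleIntegral one_pos hG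
  rw [hderiv.deriv] at key
  have hint : (∮ z in C(0, 1), (1 / (z - 0) ^ 2) • (h z * Sf z)) =
      I * ∫ t in (0:ℝ)..(2 * Real.pi), h (exp (t * I)) * (Sf (exp (t * I)) * exp (-(t * I))) := by
    rw [circleIntegral, ← intervalIntegral.integral_const_mul]
    refine intervalIntegral.integral_congr fun t _ => ?_
    simp only [deriv_circleMap, smul_eq_mul, sub_zero]
    have e1 : circleMap 0 1 t = exp (t * I) := by simp [circleMap]
    rw [e1, Complex.exp_neg]
    have e2 : exp (t * I) ≠ 0 := Complex.exp_ne_zero _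
    field_simp
  rw [hint, smul_eq_mul] at key
  have hI : I ≠ 0 := Complex.I_ne_zero
  apply mul_left_cancel₀ hI
  rw [key]
  ring

end Pool.Agent.Helper859.SP.T11
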