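import Pool.Agent.Helper859.SP.Defs
set_option linter.all false
open Complex MeasureTheory Set Filter Topology Metric

namespace Pool.Agent.Helper859.SP.T13
open Pool.Agent.Helper859.SP

theorem exp_mem (t : ℝ) : exp (t * I) ∈ closedBall (0:ℂ) 1 := by
  rw [mem_closedBall_zero_iff, Complex.norm_exp_ofReal_mul_I]

theorem r_mem (r : ℝ) (hr0 : 0 < r) (hr1 : r < 1) (t : ℝ) :
    (r : ℂ) * exp (t * I) ∈ ball (0:ℂ) 1 := by
  rw [mem_ball_zero_iff, norm_mul, Complex.norm_exp_ofReal_mul_I, mul_one, Complex.norm_real,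
    Real.norm_eq_abs, abs_of_pos hr0]
  exact hr1

theorem r_im (r : ℝ) (t : ℝ) : ((r : ℂ) * exp (t * I)).im = r * Real.sin t := by
  rw [Complex.im_ofReal_mul, Complex.exp_ofReal_mul_I_im]

theorem im_nonneg_of (F : ℂ → ℂ) (hs : ∀ z ∈ ball (0:ℂ) 1, F (starRingEnd ℂ z) = starRingEnd ℂ (F z))
    (hv : ∀ z ∈ ball (0:ℂ) 1, 0 < z.im → 0 ≤ (F z).im) (z : ℂ) (hz : z ∈ ball (0:ℂ) 1)
    (hi : 0 ≤ z.im) : 0 ≤ (F z).im ∧ (z.im = 0 → (F z).im = 0) := by
  have h0 : z.im = 0 → (F z).im = 0 := by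
    intro h
    have h1 : starRingEnd ℂ z = z := Complex.conj_eq_iff_im.mpr h
    have h2 := hs z hz
    rw [h1] at h2
    exact Complex.conj_eq_iff_im.mp h2.symm
  refine ⟨?_, h0⟩
  rcases hi.lt_or_eq with h | h
  · exact hv z hz h
  · exact (h0 h.symm).ge

theorem Sf_cont (hc : ContinuousOn Ti2 (closedBall (0:ℂ) 1)) :
    Continuous (fun t : ℝ => Sf (exp (t * I))) := by
  have h1 : Continuous (fun t : ℝ => Ti2 (exp (t * I))) := by
    rw [← continuousOn_univ]
    refine hc.comp (by fun_prop) (fun t _ => exp_mem t)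
  unfold Sf
  fun_prop

theorem Sf_conj (hconj : ∀ z : ℂ, Ti2 (starRingEnd ℂ z) = starRingEnd ℂ (Ti2 z)) (z : ℂ) :
    Sf (starRingEnd ℂ z) = starRingEnd ℂ (Sf z) := by
  unfold Sf
  have h2 : starRingEnd ℂ 2 = 2 := map_ofNat _ 2
  rw [hconj, map_mul, map_pow, map_sub, map_one, ← Complex.exp_conj, map_mul, map_neg, map_div₀,
    Complex.conj_ofReal, h2]

theorem rho_cont (hc : ContinuousOn Ti2 (closedBall (0:ℂ) 1)) : Continuous rho := by
  have h1 : Continuous (fun t : ℝ => Ti2 (exp (t * I))) := by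
    rw [← continuousOn_univ]
    refine hc.comp (by fun_prop) (fun t _ => exp_mem t)
  unfold rho
  have h2 : Continuous (fun t : ℝ => (Ti2 (exp (t * I))).re) := Complex.continuous_re.comp h1
  fun_prop

theorem w_mono (hanti : AntitoneOn (fun t : ℝ => (Ti2 (exp (t * I))).re) (Icc 0 Real.pi)) :
    MonotoneOn (fun t : ℝ => Real.sin (t / 2) ^ 3 * rho t) (Icc (Real.pi / 2) Real.pi) := by
  have hpi := Real.pi_pos
  intro a ha b hb hab
  have h1 : rho a ≤ rho b := by
    unfold rho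
    apply Real.exp_le_exp.mpr
    have h2 := hanti (show a ∈ Icc 0 Real.pi from ⟨by linarith [ha.1], ha.2⟩)
      (show b ∈ Icc 0 Real.pi from ⟨by linarith [hb.1], hb.2⟩) hab
    simp only at h2
    have h3 : 0 < 2 / Real.pi := by positivity
    nlinarith
  have h2 : Real.sin (a / 2) ≤ Real.sin (b / 2) :=
    Real.sin_le_sin_of_le_of_le_pi_div_two (by linarith [ha.1]) (by linarith [hb.2]) (by linarith)
  have h3 : 0 ≤ Real.sin (a / 2) :=
    Real.sin_nonneg_of_nonneg_of_le_pi (by linarith [ha.1]) (by linarith [ha.2])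
  have h4 : 0 < rho a := Real.exp_pos _
  show Real.sin (a / 2) ^ 3 * rho a ≤ Real.sin (b / 2) ^ 3 * rho b
  exact mul_le_mul (pow_le_pow_left₀ h3 h2 3) h1 h4.le (pow_nonneg (h3.trans h2) 3)

theorem main_r
    (hc : ContinuousOn Ti2 (closedBall (0:ℂ) 1))
    (hconj : ∀ z : ℂ, Ti2 (starRingEnd ℂ z) = starRingEnd ℂ (Ti2 z))
    (hanti : AntitoneOn (fun t : ℝ => (Ti2 (exp (t * I))).re) (Icc 0 Real.pi))
    (hbr : ∀ t : ℝ, 0 ≤ t → t ≤ Real.pi / 2 → Sf (exp (t * I)) * exp (-(t * I)) = 8 * I * (Real.sin (t / 2) : ℂ) ^ 3 * (rho t : ℂ))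
    (hbl : ∀ t : ℝ, Real.pi / 2 ≤ t → t ≤ Real.pi → Sf (exp (t * I)) * exp (-(t * I)) = 8 * (Real.sin (t / 2) : ℂ) ^ 3 * (rho t : ℂ) * exp (t * I))
    (hmono : ∀ (a b : ℝ), a < b → ∀ (w u u' : ℝ → ℝ), MonotoneOn w (Icc a b) → ContinuousOn w (Icc a b) →
      0 ≤ w a → (∀ t ∈ Icc a b, HasDerivAt u (u' t) t) → ContinuousOn u' (Icc a b) →
      (∀ t ∈ Icc a b, 0 ≤ u t) → u b = 0 → ∫ t in a..b, w t * u' t ≤ 0)
    (hcau : ∀ (h : ℂ → ℂ) (R : ℝ), 1 < R → DifferentiableOn ℂ h (ball (0:ℂ) R) →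
      ∫ t in (0:ℝ)..(2 * Real.pi), h (exp (t * I)) * (Sf (exp (t * I)) * exp (-(t * I))) =
      2 * Real.pi * (deriv h 0 + h 0 * (-3 - 2 / Real.pi)))
    (f : ℂ → ℂ) (hf : DifferentiableOn ℂ f (ball (0:ℂ) 1)) (h1 : deriv f 0 = 1)
    (hs : ∀ z ∈ ball (0:ℂ) 1, f (starRingEnd ℂ z) = starRingEnd ℂ (f z))
    (hs' : ∀ z ∈ ball (0:ℂ) 1, deriv f (starRingEnd ℂ z) = starRingEnd ℂ (deriv f z))
    (hu : ∀ z ∈ ball (0:ℂ) 1, 0 < z.im → 0 ≤ (f z).im)
    (hv : ∀ z ∈ ball (0:ℂ) 1, 0 < z.im → 0 ≤ (deriv f z).im)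
    (r : ℝ) (hr0 : 0 < r) (hr1 : r < 1) :
    r * (deriv (deriv f) 0).re ≤ 3 + 2 / Real.pi := by
  have hpi := Real.pi_pos
  -- the function h
  let h : ℂ → ℂ := fun z => deriv f ((r : ℂ) * z)
  have hdf : DifferentiableOn ℂ (deriv f) (ball (0:ℂ) 1) := hf.deriv isOpen_ball
  have hR : 1 < 1 / r := by rw [lt_div_iff₀ hr0]; linarith
  have hmaps : ∀ z ∈ ball (0:ℂ) (1 / r), (r : ℂ) * z ∈ ball (0:ℂ) 1 := by
    intro z hz
    rw [mem_ball_zero_iff] at hz ⊢
    rw [norm_mul, Complex.norm_real, Real.norm_eq_abs, abs_of_pos hr0]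
    rw [lt_div_iff₀ hr0] at hz
    linarith
  have hdh : DifferentiableOn ℂ h (ball (0:ℂ) (1 / r)) :=
    hdf.comp (by fun_prop) hmaps
  have hC := hcau h (1 / r) hR hdh
  have h0 : h 0 = 1 := by simp only [h, mul_zero]; exact h1
  have hdh0 : deriv h 0 = r * deriv (deriv f) 0 := by
    have e1 : HasDerivAt (deriv f) (deriv (deriv f) ((r : ℂ) * 0)) ((r : ℂ) * 0) := by
      apply DifferentiableAt.hasDerivAt
      rw [mul_zero]
      exact hdf.differentiableAt (ball_mem_nhds _ one_pos)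
    have e2 : HasDerivAt (fun z : ℂ => (r : ℂ) * z) ((r : ℂ) * 1) 0 :=
      (hasDerivAt_id (0:ℂ)).const_mul (r : ℂ)
    have e3 := (e1.comp (0:ℂ) e2).deriv
    rw [mul_zero, mul_one] at e3
    rw [mul_comm]
    exact e3
  -- the integrand
  let g : ℝ → ℂ := fun t => h (exp (t * I)) * (Sf (exp (t * I)) * exp (-(t * I)))
  have hhc : Continuous (fun t : ℝ => h (exp (t * I))) := by
    rw [← continuousOn_univ]
    exact hdf.continuousOn.comp (by fun_prop) (fun t _ => r_mem r hr0 hr1 t)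
  have hgc : Continuous g := hhc.mul ((Sf_cont hc).mul (by fun_prop))
  have hGc : Continuous (fun t => (g t).re) := Complex.continuous_re.comp hgc
  have hGint : ∀ a b : ℝ, IntervalIntegrable (fun t => (g t).re) volume a b :=
    fun a b => hGc.intervalIntegrable a b
  have hre : ∫ t in (0:ℝ)..(2 * Real.pi), (g t).re =
      2 * Real.pi * (r * (deriv (deriv f) 0).re + (-3 - 2 / Real.pi)) := by
    have e1 : ∫ t in (0:ℝ)..(2 * Real.pi), (g t).re = (∫ t in (0:ℝ)..(2 * Real.pi), g t).re := by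
      have := intervalIntegral.intervalIntegral_eq_integral_uIoc g 0 (2 * Real.pi) volume
      have e := ContinuousLinearMap.intervalIntegral_comp_comm Complex.reCLM
        (hgc.intervalIntegrable (μ := volume) 0 (2 * Real.pi))
      exact e
    rw [e1]
    have e2 : ∫ t in (0:ℝ)..(2 * Real.pi), g t =
      2 * Real.pi * (deriv h 0 + h 0 * (-3 - 2 / Real.pi)) := hC
    rw [e2, hdh0, h0]
    have e3 : (2 * (Real.pi : ℂ) * (r * deriv (deriv f) 0 + 1 * (-3 - 2 / (Real.pi : ℂ)))) =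
        ((2 * Real.pi : ℝ) : ℂ) * ((r : ℂ) * deriv (deriv f) 0 + ((-3 - 2 / Real.pi : ℝ) : ℂ)) := by
      push_cast; ring
    rw [e3, Complex.re_ofReal_mul, Complex.add_re, Complex.re_ofReal_mul, Complex.ofReal_re]
  -- symmetry
  have hsym : ∀ t : ℝ, g (2 * Real.pi - t) = starRingEnd ℂ (g t) := by
    intro t
    have e1 : exp (((2 * Real.pi - t : ℝ) : ℂ) * I) = starRingEnd ℂ (exp (t * I)) := by
      rw [← Complex.exp_conj, map_mul, Complex.conj_ofReal, Complex.conj_I]
      have : ((2 * Real.pi - t : ℝ) : ℂ) * I = (t : ℂ) * -I + 2 * Real.pi * I := by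
        push_cast; ring
      rw [this, Complex.exp_add, Complex.exp_two_pi_mul_I, mul_one]
    have e2 : exp (-(((2 * Real.pi - t : ℝ) : ℂ) * I)) = starRingEnd ℂ (exp (-(t * I))) := by
      rw [Complex.exp_neg, Complex.exp_neg, e1, map_inv₀]
    have e3 : h (starRingEnd ℂ (exp (t * I))) = starRingEnd ℂ (h (exp (t * I))) := by
      simp only [h]
      rw [← hs' _ (r_mem r hr0 hr1 t), map_mul, Complex.conj_ofReal]
    simp only [g]
    rw [e1, e2, e3, Sf_conj hconj, map_mul, map_mul]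
  have hsym' : ∀ t : ℝ, (g (2 * Real.pi - t)).re = (g t).re := by
    intro t
    rw [hsym, Complex.conj_re]
  have hhalf : ∫ t in (0:ℝ)..(2 * Real.pi), (g t).re = 2 * ∫ t in (0:ℝ)..Real.pi, (g t).re := by
    have e1 : ∫ t in (0:ℝ)..Real.pi, (g (2 * Real.pi - t)).re =
        ∫ t in (2 * Real.pi - Real.pi)..(2 * Real.pi - 0), (g t).re :=
      intervalIntegral.integral_comp_sub_left (fun t => (g t).re) (2 * Real.pi)
    have e2 : (2 * Real.pi - Real.pi) = Real.pi := by ring
    rw [e2, sub_zero] at e1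
    rw [← intervalIntegral.integral_add_adjacent_intervals (hGint 0 Real.pi)
      (hGint Real.pi (2 * Real.pi)), ← e1]
    simp_rw [hsym']
    ring
  -- first piece
  have hp1 : ∫ t in (0:ℝ)..(Real.pi / 2), (g t).re ≤ 0 := by
    have e1 : ∫ t in (0:ℝ)..(Real.pi / 2), (g t).re ≤ ∫ t in (0:ℝ)..(Real.pi / 2), (0:ℝ) := by
      refine intervalIntegral.integral_mono_on (by positivity) (hGint _ _) (by simp) ?_
      intro t ht
      simp only [g]
      rw [hbr t ht.1 ht.2]
      have hs0 : 0 ≤ Real.sin (t / 2) :=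
        Real.sin_nonneg_of_nonneg_of_le_pi (by linarith [ht.1]) (by linarith [ht.2])
      have hrho : 0 < rho t := Real.exp_pos _
      have him : 0 ≤ (h (exp (t * I))).im := by
        refine (im_nonneg_of (deriv f) hs' hv _ (r_mem r hr0 hr1 t) ?_).1
        rw [r_im]
        exact mul_nonneg hr0.le (Real.sin_nonneg_of_nonneg_of_le_pi ht.1 (by linarith [ht.2]))
      have e2 : h (exp (t * I)) * (8 * I * (Real.sin (t / 2) : ℂ) ^ 3 * (rho t : ℂ)) =
          ((8 * Real.sin (t / 2) ^ 3 * rho t : ℝ) : ℂ) * (h (exp (t * I)) * I) := by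
        push_cast; ring
      rw [e2, Complex.re_ofReal_mul, Complex.mul_I_re]
      have : 0 ≤ 8 * Real.sin (t / 2) ^ 3 * rho t * (h (exp (t * I))).im := by positivity
      linarith
    simpa using e1
  -- second piece
  have hp2 : ∫ t in (Real.pi / 2)..Real.pi, (g t).re ≤ 0 := by
    have e0 := hmono (Real.pi / 2) Real.pi (by linarith)
      (fun t => Real.sin (t / 2) ^ 3 * rho t)
      (fun t => (f ((r : ℂ) * exp (t * I))).im / r)
      (fun t => (exp (t * I) * h (exp (t * I))).re) (w_mono hanti)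
      (by have := rho_cont hc; fun_prop)
      (by
        have hrho : 0 < rho (Real.pi / 2) := Real.exp_pos _
        have hs0 : 0 ≤ Real.sin (Real.pi / 2 / 2) :=
          Real.sin_nonneg_of_nonneg_of_le_pi (by positivity) (by linarith)
        positivity)
      (by
        intro t _
        have d1 : HasDerivAt (fun t : ℝ => exp ((t : ℂ) * I)) (exp (t * I) * I) t := by
          have e : HasDerivAt (fun t : ℝ => (t : ℂ) * I) (1 * I) t :=
            (Complex.ofRealCLM.hasDerivAt (x := t)).mul_const I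
          have := e.cexp
          simpa using this
        have d2 : HasDerivAt (fun t : ℝ => (r : ℂ) * exp ((t : ℂ) * I))
          ((r : ℂ) * (exp (t * I) * I)) t := d1.const_mul _
        have d3 : HasDerivAt f (deriv f ((r : ℂ) * exp (t * I))) ((r : ℂ) * exp (t * I)) :=
          (hf.differentiableAt (isOpen_ball.mem_nhds (r_mem r hr0 hr1 t))).hasDerivAt
        have d4 : HasDerivAt (fun t : ℝ => f ((r : ℂ) * exp ((t : ℂ) * I)))
          (deriv f ((r : ℂ) * exp (t * I)) * ((r : ℂ) * (exp (t * I) * I))) t :=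
          d3.comp (h := fun t : ℝ => (r : ℂ) * exp ((t : ℂ) * I)) t d2
        have d5 : HasDerivAt (fun t : ℝ => (f ((r : ℂ) * exp ((t : ℂ) * I))).im)
          (deriv f ((r : ℂ) * exp (t * I)) * ((r : ℂ) * (exp (t * I) * I))).im t := by
          have := Complex.imCLM.hasFDerivAt.comp_hasDerivAt t d4
          exact this
        have d6 := d5.div_const r
        have e : deriv f ((r : ℂ) * exp (t * I)) * ((r : ℂ) * (exp (t * I) * I)) =
            (r : ℂ) * ((exp (t * I) * h (exp (t * I))) * I) := by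
          simp only [h]; ring
        rw [e, Complex.im_ofReal_mul, Complex.mul_I_im, mul_div_cancel_left₀ _ hr0.ne'] at d6
        exact d6)
      (by
        have : Continuous (fun t : ℝ => (exp (t * I) * h (exp (t * I))).re) :=
          Complex.continuous_re.comp ((by fun_prop : Continuous (fun t : ℝ => exp ((t : ℂ) * I))).mul hhc)
        exact this.continuousOn)
      (by
        intro t ht
        refine div_nonneg (im_nonneg_of f hs hu _ (r_mem r hr0 hr1 t) ?_).1 hr0.le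
        rw [r_im]
        exact mul_nonneg hr0.le (Real.sin_nonneg_of_nonneg_of_le_pi (by linarith [ht.1]) ht.2))
      (by
        have e := (im_nonneg_of f hs hu _ (r_mem r hr0 hr1 Real.pi) (by
          rw [r_im, Real.sin_pi, mul_zero])).2 (by rw [r_im, Real.sin_pi, mul_zero])
        show (f ((r : ℂ) * exp (Real.pi * I))).im / r = 0
        rw [e, zero_div])
    have e1 : ∫ t in (Real.pi / 2)..Real.pi, (g t).re =
        8 * ∫ t in (Real.pi / 2)..Real.pi, (Real.sin (t / 2) ^ 3 * rho t) *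
          (exp (t * I) * h (exp (t * I))).re := by
      rw [← intervalIntegral.integral_const_mul]
      refine intervalIntegral.integral_congr (fun t ht => ?_)
      rw [uIcc_of_le (by linarith)] at ht
      simp only [g]
      rw [hbl t ht.1 ht.2]
      have e2 : h (exp (t * I)) * (8 * (Real.sin (t / 2) : ℂ) ^ 3 * (rho t : ℂ) * exp (t * I)) =
          ((8 * (Real.sin (t / 2) ^ 3 * rho t) : ℝ) : ℂ) * (exp (t * I) * h (exp (t * I))) := by
        push_cast; ring
      rw [e2, Complex.re_ofReal_mul]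
      ring
    rw [e1]
    linarith
  have hfin : 2 * Real.pi * (r * (deriv (deriv f) 0).re + (-3 - 2 / Real.pi)) ≤ 0 := by
    rw [← hre, hhalf, ← intervalIntegral.integral_add_adjacent_intervals
      (hGint 0 (Real.pi / 2)) (hGint (Real.pi / 2) Real.pi)]
    linarith
  have h2pi : 0 < 2 * Real.pi := by positivity
  have h3 : r * (deriv (deriv f) 0).re + (-3 - 2 / Real.pi) ≤ 0 := by
    by_contra hcon
    push Not at hcon
    have := mul_pos h2pi hcon
    linarith
  linarith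

end Pool.Agent.Helper859.SP.T13
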