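import Pool.Agent.Helper859.SP.Defs
set_option linter.all false
open Complex MeasureTheory Set Filter Topology Metric

namespace Pool.Agent.Helper859.SP.T14
open Pool.Agent.Helper859.SP

theorem rog_sin (n : ℕ) (t : ℝ) : |Real.sin (n * t)| ≤ n * |Real.sin t| := by
  induction n with
  | zero => simp
  | succ k ih =>
    have h1 : ((k+1 : ℕ) : ℝ) * t = k * t + t := by push_cast; ring
    rw [h1, Real.sin_add]
    calc |Real.sin (k*t) * Real.cos t + Real.cos (k*t) * Real.sin t|
        ≤ |Real.sin (k*t) * Real.cos t| + |Real.cos (k*t) * Real.sin t| := abs_add_le _ _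
      _ = |Real.sin (k*t)| * |Real.cos t| + |Real.cos (k*t)| * |Real.sin t| := by
          rw [abs_mul, abs_mul]
      _ ≤ |Real.sin (k*t)| * 1 + 1 * |Real.sin t| := by
          gcongr
          · exact Real.abs_cos_le_one _
          · exact Real.abs_cos_le_one _
      _ ≤ k * |Real.sin t| + |Real.sin t| := by linarith
      _ = _ := by push_cast; ring

theorem rog_cont (g : ℂ → ℂ) (hg : DifferentiableOn ℂ g (ball (0:ℂ) 1)) (r : ℝ) (hr : 0 < r)
    (hr1 : r < 1) : Continuous (fun θ : ℝ => g (circleMap 0 r θ)) := by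
  refine hg.continuousOn.comp_continuous (continuous_circleMap 0 r) fun θ => ?_
  rw [mem_ball_zero_iff, norm_circleMap_zero, abs_of_pos hr]
  exact hr1

theorem rog_cauchy (g : ℂ → ℂ) (hg : DifferentiableOn ℂ g (ball (0:ℂ) 1)) (n : ℕ) (hn : 1 ≤ n)
    (r : ℝ) (hr : 0 < r) (hr1 : r < 1) :
    ∫ θ in (0:ℝ)..2*Real.pi, ((Real.sin (n*θ) : ℝ) : ℂ) * g (circleMap 0 r θ) =
      I * Real.pi * r^n * coeff n g := by
  have hsub : closedBall (0:ℂ) r ⊆ ball (0:ℂ) 1 := closedBall_subset_ball hr1
  have hdc : DiffContOnCl ℂ g (ball (0:ℂ) r) := by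
    apply DifferentiableOn.diffContOnCl
    exact hg.mono ((closure_ball_subset_closedBall).trans hsub)
  have hcs : ContinuousOn g (sphere (0:ℂ) r) :=
    hg.continuousOn.mono (sphere_subset_closedBall.trans hsub)
  have hA := hdc.circleIntegral_one_div_sub_center_pow_smul hr n
  have hdc2 : DiffContOnCl ℂ (fun z => z^(n-1) • g z) (ball (0:ℂ) r) := by
    apply DifferentiableOn.diffContOnCl
    exact ((differentiable_id.pow (n-1)).differentiableOn).smul
      (hg.mono ((closure_ball_subset_closedBall).trans hsub))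
  have hB : ∮ z in C(0,r), z^(n-1) • g z = 0 := by
    refine circleIntegral_eq_zero_of_differentiable_on_off_countable hr.le Set.countable_empty
      hdc2.continuousOn_ball fun z hz => hdc2.differentiableAt isOpen_ball hz.1
  have cA : CircleIntegrable (fun z => (1 / (z - 0) ^ (n + 1)) • g z) 0 r := by
    apply ContinuousOn.circleIntegrable hr.le
    have hp : ContinuousOn (fun z : ℂ => 1 / (z - 0) ^ (n + 1)) (sphere (0:ℂ) r) := by
      refine ContinuousOn.div continuousOn_const
        ((continuous_id.sub continuous_const).pow _).continuousOn ?_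
      intro z hz
      apply pow_ne_zero
      intro h
      have h' : z = 0 := by simpa using h
      rw [h'] at hz
      simp at hz
      linarith
    exact hp.smul hcs
  have cB : CircleIntegrable (fun z => z^(n-1) • g z) 0 r := by
    apply ContinuousOn.circleIntegrable hr.le
    have hp : ContinuousOn (fun z : ℂ => z^(n-1)) (sphere (0:ℂ) r) := (continuous_pow (n-1)).continuousOn
    exact hp.smul hcs
  have hrn : (r:ℂ)^n ≠ 0 := pow_ne_zero _ (by exact_mod_cast hr.ne')
  have key : ∫ θ in (0:ℝ)..2*Real.pi, ((Real.sin (n*θ) : ℝ) : ℂ) * g (circleMap 0 r θ) =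
      ∮ z in C(0,r), (((r:ℂ)^n/2) * ((1 / (z - 0) ^ (n + 1)) • g z) -
        (((r:ℂ)^n)⁻¹/2) * (z^(n-1) • g z)) := by
    unfold circleIntegral
    refine intervalIntegral.integral_congr fun θ _ => ?_
    simp only [deriv_circleMap, smul_eq_mul, sub_zero]
    have hz0 : circleMap 0 r θ ≠ 0 := circleMap_ne_center hr.ne'
    have hzn : (circleMap 0 r θ)^n = (r:ℂ)^n * exp ((n * θ : ℝ) * I) := by
      rw [circleMap_zero, mul_pow, ← Complex.exp_nat_mul]
      congr 2
      push_cast
      ring
    set z := circleMap 0 r θ with hz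
    set E := exp ((n * θ : ℝ) * I) with hE
    have hE0 : E ≠ 0 := exp_ne_zero _
    have hsin : ((Real.sin (n*θ) : ℝ) : ℂ) = (E⁻¹ - E) * I / 2 := by
      rw [Complex.ofReal_sin, Complex.sin, hE, ← Complex.exp_neg]
      congr 4
      push_cast
      ring
    have e1 : z * (1/z^(n+1)) = (z^n)⁻¹ := by
      rw [pow_succ]
      field_simp
    have e2 : z * z^(n-1) = z^n := by
      rw [← pow_succ']
      congr 1
      omega
    calc ((Real.sin (n*θ) : ℝ) : ℂ) * g z = I * ((r:ℂ)^n/2 * (z^n)⁻¹ - ((r:ℂ)^n)⁻¹/2 * z^n) * g z := by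
          rw [hsin, hzn]
          field_simp
      _ = I * ((r:ℂ)^n/2 * (z * (1/z^(n+1))) - ((r:ℂ)^n)⁻¹/2 * (z * z^(n-1))) * g z := by
          rw [e1, e2]
      _ = z * I * ((r:ℂ)^n/2 * (1/z^(n+1) * g z) - ((r:ℂ)^n)⁻¹/2 * (z^(n-1) * g z)) := by ring
  rw [key, circleIntegral.integral_sub, circleIntegral.integral_const_mul,
    circleIntegral.integral_const_mul, hA, hB]
  · unfold coeff
    rw [smul_eq_mul]
    ring
  · exact cA.const_mul _ 
  · exact cB.const_mul _

theorem rogosinski (g : ℂ → ℂ) (hg : DifferentiableOn ℂ g (ball (0:ℂ) 1))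
    (hs : ∀ z ∈ ball (0:ℂ) 1, g (starRingEnd ℂ z) = starRingEnd ℂ (g z))
    (hv : ∀ z ∈ ball (0:ℂ) 1, 0 < z.im → 0 ≤ (g z).im) (n : ℕ) (hn : 1 ≤ n) :
    ‖coeff n g‖ ≤ n * (deriv g 0).re := by
  have hpi := Real.pi_pos
  -- integrals of real and imaginary parts
  have him : ∀ m : ℕ, 1 ≤ m → ∀ r : ℝ, 0 < r → r < 1 →
      ∫ θ in (0:ℝ)..2*Real.pi, Real.sin (m*θ) * (g (circleMap 0 r θ)).im =
        Real.pi * r^m * (coeff m g).re := by
    intro m hm r hr hr1
    have hc : Continuous (fun θ : ℝ => ((Real.sin (m*θ) : ℝ) : ℂ) * g (circleMap 0 r θ)) :=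
      (Complex.continuous_ofReal.comp (Real.continuous_sin.comp (continuous_const.mul continuous_id))).mul
        (rog_cont g hg r hr hr1)
    have h1 := Complex.imCLM.intervalIntegral_comp_comm (hc.intervalIntegrable (μ := volume) 0 (2*Real.pi))
    rw [rog_cauchy g hg m hm r hr hr1] at h1
    simp only [Complex.imCLM_apply, Complex.im_ofReal_mul] at h1
    rw [h1]
    have h2 : I * (Real.pi:ℂ) * (r:ℂ)^m * coeff m g = ((Real.pi * r^m : ℝ) : ℂ) * (I * coeff m g) := by
      push_cast; ring
    rw [h2, Complex.im_ofReal_mul]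
    simp
  have hre : ∀ m : ℕ, 1 ≤ m → ∀ r : ℝ, 0 < r → r < 1 →
      ∫ θ in (0:ℝ)..2*Real.pi, Real.sin (m*θ) * (g (circleMap 0 r θ)).re =
        -(Real.pi * r^m * (coeff m g).im) := by
    intro m hm r hr hr1
    have hc : Continuous (fun θ : ℝ => ((Real.sin (m*θ) : ℝ) : ℂ) * g (circleMap 0 r θ)) :=
      (Complex.continuous_ofReal.comp (Real.continuous_sin.comp (continuous_const.mul continuous_id))).mul
        (rog_cont g hg r hr hr1)
    have h1 := Complex.reCLM.intervalIntegral_comp_comm (hc.intervalIntegrable (μ := volume) 0 (2*Real.pi))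
    rw [rog_cauchy g hg m hm r hr hr1] at h1
    simp only [Complex.reCLM_apply, Complex.re_ofReal_mul] at h1
    rw [h1]
    have h2 : I * (Real.pi:ℂ) * (r:ℂ)^m * coeff m g = ((Real.pi * r^m : ℝ) : ℂ) * (I * coeff m g) := by
      push_cast; ring
    rw [h2, Complex.re_ofReal_mul]
    simp
  -- symmetry
  have hmem : ∀ r : ℝ, 0 < r → r < 1 → ∀ θ : ℝ, circleMap 0 r θ ∈ ball (0:ℂ) 1 := by
    intro r hr hr1 θ
    rw [mem_ball_zero_iff, norm_circleMap_zero, abs_of_pos hr]
    exact hr1
  have hconj : ∀ r θ : ℝ, circleMap 0 r (2*Real.pi - θ) = starRingEnd ℂ (circleMap 0 r θ) := by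
    intro r θ
    rw [circleMap_zero, circleMap_zero, map_mul, Complex.conj_ofReal, ← Complex.exp_conj, map_mul,
      Complex.conj_ofReal, Complex.conj_I]
    have h3 : ((2*Real.pi - θ : ℝ) : ℂ) * I = (θ:ℂ) * -I + 2 * Real.pi * I := by push_cast; ring
    rw [h3, Complex.exp_add, Complex.exp_two_pi_mul_I, mul_one]
  have hreal : (coeff n g).im = 0 := by
    have h1 := hre n hn (1/2) (by norm_num) (by norm_num)
    have h2 : ∫ θ in (0:ℝ)..2*Real.pi, Real.sin (n*θ) * (g (circleMap 0 (1/2) θ)).re =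
        -∫ θ in (0:ℝ)..2*Real.pi, Real.sin (n*θ) * (g (circleMap 0 (1/2) θ)).re := by
      have h3 := intervalIntegral.integral_comp_sub_left (a := 0) (b := 2*Real.pi)
        (fun θ : ℝ => Real.sin (n*θ) * (g (circleMap 0 (1/2) θ)).re) (2*Real.pi)
      rw [sub_self, sub_zero] at h3
      rw [← intervalIntegral.integral_neg]
      rw [← h3]
      refine intervalIntegral.integral_congr fun θ _ => ?_
      show Real.sin (n*(2*Real.pi - θ)) * (g (circleMap 0 (1/2) (2*Real.pi - θ))).re = _
      have h4 : (n:ℝ)*(2*Real.pi - θ) = n * (2*Real.pi) - n*θ := by ring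
      rw [h4, Real.sin_nat_mul_two_pi_sub, hconj,
        hs _ (hmem (1/2) (by norm_num) (by norm_num) θ), Complex.conj_re]
      ring
    have h5 : ∫ θ in (0:ℝ)..2*Real.pi, Real.sin (n*θ) * (g (circleMap 0 (1/2) θ)).re = 0 := by
      linarith
    rw [h5] at h1
    have h6 : 0 < Real.pi * (1/2:ℝ)^n := by positivity
    have h7 : Real.pi * (1/2:ℝ)^n * (coeff n g).im = 0 := by linarith
    exact (mul_eq_zero.1 h7).resolve_left h6.ne'
  -- positivity
  have hpos : ∀ r : ℝ, 0 < r → r < 1 → ∀ θ : ℝ,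
      |Real.sin θ| * |(g (circleMap 0 r θ)).im| = Real.sin θ * (g (circleMap 0 r θ)).im := by
    intro r hr hr1 θ
    have hz := hmem r hr hr1 θ
    have hzim : (circleMap 0 r θ).im = r * Real.sin θ := by
      rw [circleMap_zero, Complex.im_ofReal_mul, Complex.exp_ofReal_mul_I_im]
    rcases lt_trichotomy (Real.sin θ) 0 with h | h | h
    · have h1 : 0 < (starRingEnd ℂ (circleMap 0 r θ)).im := by
        rw [Complex.conj_im, hzim]; nlinarith
      have h2 : starRingEnd ℂ (circleMap 0 r θ) ∈ ball (0:ℂ) 1 := by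
        rw [mem_ball_zero_iff] at hz ⊢
        simpa using hz
      have h3 := hv _ h2 h1
      rw [hs _ hz, Complex.conj_im] at h3
      rw [abs_of_neg h, abs_of_nonpos (by linarith)]
      ring
    · rw [h]; simp
    · have h1 : 0 < (circleMap 0 r θ).im := by rw [hzim]; positivity
      have h3 := hv _ hz h1
      rw [abs_of_pos h, abs_of_nonneg h3]
  have hb1 : coeff 1 g = deriv g 0 := by
    unfold coeff
    rw [iteratedDeriv_one]
    simp
  have hmain : ∀ r : ℝ, 0 < r → r < 1 → r^n * ‖coeff n g‖ ≤ n * r * (deriv g 0).re := by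
    intro r hr hr1
    have hnorm : ‖coeff n g‖ = |(coeff n g).re| := by
      have h1 : coeff n g = (((coeff n g).re : ℝ) : ℂ) := by
        apply Complex.ext
        · simp
        · simp [hreal]
      conv_lhs => rw [h1]
      rw [Complex.norm_real, Real.norm_eq_abs]
    have h1 := him n hn r hr hr1
    have h2 := him 1 le_rfl r hr hr1
    rw [hb1, pow_one] at h2
    have hc : Continuous (fun θ : ℝ => (g (circleMap 0 r θ)).im) :=
      Complex.continuous_im.comp (rog_cont g hg r hr hr1)
    have hc1 : Continuous (fun θ : ℝ => |Real.sin (n*θ) * (g (circleMap 0 r θ)).im|) :=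
      ((Real.continuous_sin.comp (continuous_const.mul continuous_id)).mul hc).abs
    have hc2 : Continuous (fun θ : ℝ => (n:ℝ) * (Real.sin (((1:ℕ):ℝ)*θ) * (g (circleMap 0 r θ)).im)) :=
      continuous_const.mul ((Real.continuous_sin.comp (continuous_const.mul continuous_id)).mul hc)
    have h3 : |∫ θ in (0:ℝ)..2*Real.pi, Real.sin (n*θ) * (g (circleMap 0 r θ)).im| ≤
        ∫ θ in (0:ℝ)..2*Real.pi, (n:ℝ) * (Real.sin (((1:ℕ):ℝ)*θ) * (g (circleMap 0 r θ)).im) := by
      refine (intervalIntegral.abs_integral_le_integral_abs (by positivity)).trans ?_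
      refine intervalIntegral.integral_mono_on (by positivity) (hc1.intervalIntegrable _ _)
        (hc2.intervalIntegrable _ _) fun θ _ => ?_
      rw [abs_mul, Nat.cast_one, one_mul, ← hpos r hr hr1 θ]
      calc |Real.sin (n*θ)| * |(g (circleMap 0 r θ)).im|
          ≤ (n * |Real.sin θ|) * |(g (circleMap 0 r θ)).im| :=
            mul_le_mul_of_nonneg_right (rog_sin n θ) (abs_nonneg _)
        _ = _ := by ring
    rw [intervalIntegral.integral_const_mul, h2, h1, abs_mul, abs_of_pos (by positivity)] at h3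
    rw [hnorm]
    have h4 : Real.pi * (r^n * |(coeff n g).re|) ≤ Real.pi * (n * r * (deriv g 0).re) := by
      linarith
    exact le_of_mul_le_mul_left h4 hpi
  have t1 : Tendsto (fun r : ℝ => r^n * ‖coeff n g‖) (𝓝[<] 1) (𝓝 (1^n * ‖coeff n g‖)) :=
    ((continuous_pow n).mul continuous_const).continuousAt.tendsto.mono_left nhdsWithin_le_nhds
  have t2 : Tendsto (fun r : ℝ => n * r * (deriv g 0).re) (𝓝[<] 1) (𝓝 (n * 1 * (deriv g 0).re)) :=
    ((continuous_const.mul continuous_id).mul continuous_const).continuousAt.tendsto.mono_left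
      nhdsWithin_le_nhds
  have t3 := le_of_tendsto_of_tendsto t1 t2 (by
    filter_upwards [Ioo_mem_nhdsLT (zero_lt_one' ℝ)] with r hr
    exact hmain r hr.1 hr.2)
  simpa using t3

end Pool.Agent.Helper859.SP.T14
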