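import Pool.Agent.Helper859.SP.Defs
set_option linter.all false
open Complex MeasureTheory Set Filter Topology Metric

namespace Pool.Agent.Helper859.SP.T2
open Pool.Agent.Helper859.SP

theorem Ti2_hd (z : ℂ) (hz : z ∈ ball (0:ℂ) 1) :
    HasDerivAt Ti2 (∑' k : ℕ, (-1 : ℂ) ^ k * z ^ (2 * k) / ((2 * k + 1 : ℕ) : ℂ)) z := by
  have hz1 : ‖z‖ < 1 := by simpa using hz
  obtain ⟨r, hzr, hr1⟩ := exists_between hz1
  have hr0 : 0 ≤ r := (norm_nonneg z).trans hzr.le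
  have key := hasDerivAt_tsum_of_isPreconnected (𝕜 := ℂ) (u := fun k : ℕ => (r ^ 2) ^ k)
    (t := ball (0:ℂ) r) (y₀ := 0) (y := z)
    (g := fun (k : ℕ) (z : ℂ) => (-1 : ℂ) ^ k * z ^ (2 * k + 1) / ((2 * k + 1 : ℕ) : ℂ) ^ 2)
    (g' := fun (k : ℕ) (z : ℂ) => (-1 : ℂ) ^ k * z ^ (2 * k) / ((2 * k + 1 : ℕ) : ℂ))
    (summable_geometric_of_lt_one (by positivity) (by nlinarith)) isOpen_ball
    (convex_ball _ _).isPreconnected ?_ ?_ ?_ ?_ ?_
  · exact key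
  · intro n y _
    have hn : ((2 * n + 1 : ℕ) : ℂ) ≠ 0 := by exact_mod_cast (by omega : 2 * n + 1 ≠ 0)
    have h1 := ((hasDerivAt_pow (2 * n + 1) y).const_mul ((-1 : ℂ) ^ n)).div_const
      (((2 * n + 1 : ℕ) : ℂ) ^ 2)
    refine h1.congr_deriv ?_
    rw [Nat.add_sub_cancel]
    field_simp
  · intro n y hy
    have hy' : ‖y‖ ≤ r := by
      have : ‖y‖ < r := by simpa using hy
      exact this.le
    rw [norm_div, norm_mul, norm_pow, norm_neg, norm_one, one_pow, one_mul, norm_pow,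
      Complex.norm_natCast, ← pow_mul]
    have h1 : (1:ℝ) ≤ ((2 * n + 1 : ℕ) : ℝ) := by exact_mod_cast (by omega : 1 ≤ 2 * n + 1)
    calc ‖y‖ ^ (2 * n) / ((2 * n + 1 : ℕ) : ℝ) ≤ ‖y‖ ^ (2 * n) :=
          div_le_self (by positivity) h1
      _ ≤ r ^ (2 * n) := pow_le_pow_left₀ (norm_nonneg _) hy' _
  · simp only [mem_ball, dist_self]
    exact lt_of_le_of_lt (norm_nonneg z) hzr
  · have : (fun k : ℕ => (-1 : ℂ) ^ k * (0:ℂ) ^ (2 * k + 1) / ((2 * k + 1 : ℕ) : ℂ) ^ 2) =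
        fun _ => 0 := by
      funext k
      rw [zero_pow (by omega)]
      simp
    simp only [this]
    exact summable_zero
  · simpa using hzr

theorem Ti2_hasDeriv (z : ℂ) (hz : z ∈ ball (0:ℂ) 1) (h0 : z ≠ 0) : HasDerivAt Ti2 (Complex.arctan z / z) z := by
  have h1 := Ti2_hd z hz
  have hz1 : ‖z‖ < 1 := by simpa using hz
  have h2 : ∑' k : ℕ, (-1 : ℂ) ^ k * z ^ (2 * k) / ((2 * k + 1 : ℕ) : ℂ) = Complex.arctan z / z := by
    have h3 := (Complex.hasSum_arctan hz1).div_const z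
    rw [← h3.tsum_eq]
    congr 1
    funext k
    rw [pow_succ]
    field_simp
  rw [h2] at h1
  exact h1

theorem Ti2_hasDeriv0 : HasDerivAt Ti2 1 0 := by
  have h1 := Ti2_hd 0 (by simp)
  have h2 : ∑' k : ℕ, (-1 : ℂ) ^ k * (0:ℂ) ^ (2 * k) / ((2 * k + 1 : ℕ) : ℂ) = 1 := by
    rw [tsum_eq_single 0]
    · simp
    · intro k hk
      rw [zero_pow (by omega)]
      simp
  rw [h2] at h1
  exact h1

end Pool.Agent.Helper859.SP.T2
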