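import Pool.Agent.Helper859.SP.Defs
set_option linter.all false
open Complex MeasureTheory Set Filter Topology Metric

namespace Pool.Agent.Helper859.SP.T3
open Pool.Agent.Helper859.SP


theorem odd_cos (q : ℝ) (h0 : 0 ≤ q) (h1 : q ≤ Real.pi / 2) :
    HasSum (fun k : ℕ => 1 / ((2 * k + 1 : ℕ) : ℝ) ^ 2 * Real.cos (((2 * k + 1 : ℕ) : ℝ) * q))
      (Real.pi ^ 2 / 8 - Real.pi * q / 4) := by
  have hpi := Real.pi_pos
  have hx1 : q / (2 * Real.pi) ∈ Icc (0:ℝ) 1 := by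
    constructor
    · positivity
    · rw [div_le_one (by positivity)]; linarith
  have hx2 : q / Real.pi ∈ Icc (0:ℝ) 1 := by
    constructor
    · positivity
    · rw [div_le_one (by positivity)]; linarith
  have H1 := hasSum_one_div_nat_pow_mul_cos (k := 1) one_ne_zero hx1
  have H2 := hasSum_one_div_nat_pow_mul_cos (k := 1) one_ne_zero hx2
  have hb : ∀ x : ℝ, ((Polynomial.map (algebraMap ℚ ℝ) (Polynomial.bernoulli (2 * 1))).eval x) = x ^ 2 - x + 1 / 6 := by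
    intro x
    simp [Polynomial.bernoulli, Finset.sum_range_succ, bernoulli, bernoulli'_two, bernoulli'_one, bernoulli'_zero]
    try ring
  rw [hb] at H1 H2
  have F1 : HasSum (fun n : ℕ => 1 / (n : ℝ) ^ 2 * Real.cos ((n : ℝ) * q))
      (Real.pi ^ 2 * ((q / (2 * Real.pi)) ^ 2 - q / (2 * Real.pi) + 1 / 6)) := by
    have hf : (fun n : ℕ => 1 / (n : ℝ) ^ 2 * Real.cos ((n : ℝ) * q)) =
        (fun n : ℕ => 1 / (n : ℝ) ^ (2 * 1) * Real.cos (2 * Real.pi * (n : ℝ) * (q / (2 * Real.pi)))) := by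
      funext n
      have : 2 * Real.pi * (n : ℝ) * (q / (2 * Real.pi)) = (n : ℝ) * q := by field_simp
      rw [this]
    have hv : Real.pi ^ 2 * ((q / (2 * Real.pi)) ^ 2 - q / (2 * Real.pi) + 1 / 6) =
        (-1) ^ (1 + 1) * (2 * Real.pi) ^ (2 * 1) / 2 / ((2 * 1).factorial : ℝ) * ((q / (2 * Real.pi)) ^ 2 - q / (2 * Real.pi) + 1 / 6) := by
      have : ((2 * 1).factorial : ℝ) = 2 := by norm_num [Nat.factorial]
      rw [this]
      ring
    rw [hf, hv]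
    exact H1
  have F2 : HasSum (fun n : ℕ => 1 / ((2 * n : ℕ) : ℝ) ^ 2 * Real.cos (((2 * n : ℕ) : ℝ) * q))
      (1 / 4 * (Real.pi ^ 2 * ((q / Real.pi) ^ 2 - q / Real.pi + 1 / 6))) := by
    have hf : (fun n : ℕ => 1 / ((2 * n : ℕ) : ℝ) ^ 2 * Real.cos (((2 * n : ℕ) : ℝ) * q)) =
        (fun n : ℕ => 1 / 4 * (1 / (n : ℝ) ^ (2 * 1) * Real.cos (2 * Real.pi * (n : ℝ) * (q / Real.pi)))) := by
      funext n
      have : 2 * Real.pi * (n : ℝ) * (q / Real.pi) = ((2 * n : ℕ) : ℝ) * q := by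
        push_cast; field_simp
      rw [this]
      push_cast
      rw [mul_pow]
      have h4 : (1:ℝ) / (2 ^ 2 * (n:ℝ) ^ 2) = 1 / 4 * (1 / (n:ℝ) ^ (2 * 1)) := by
        rw [div_mul_div_comm]; norm_num
      rw [h4]; ring
    have hv : (1 / 4 * (Real.pi ^ 2 * ((q / Real.pi) ^ 2 - q / Real.pi + 1 / 6))) =
        1 / 4 * ((-1) ^ (1 + 1) * (2 * Real.pi) ^ (2 * 1) / 2 / ((2 * 1).factorial : ℝ) * ((q / Real.pi) ^ 2 - q / Real.pi + 1 / 6)) := by
      have : ((2 * 1).factorial : ℝ) = 2 := by norm_num [Nat.factorial]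
      rw [this]
      ring
    rw [hf, hv]
    exact H2.mul_left (1 / 4)
  have S3 : Summable (fun k : ℕ => 1 / ((2 * k + 1 : ℕ) : ℝ) ^ 2 * Real.cos (((2 * k + 1 : ℕ) : ℝ) * q)) := by
    have hinj : Function.Injective (fun k : ℕ => 2 * k + 1) := by
      intro a b h; simp only at h; omega
    exact F1.summable.comp_injective hinj
  have F3 := HasSum.even_add_odd (f := fun n : ℕ => 1 / (n : ℝ) ^ 2 * Real.cos ((n : ℝ) * q)) F2 S3.hasSum
  have hE := F1.unique F3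
  have hS := S3.hasSum
  have hval : Real.pi ^ 2 / 8 - Real.pi * q / 4 = ∑' k : ℕ, 1 / ((2 * k + 1 : ℕ) : ℝ) ^ 2 * Real.cos (((2 * k + 1 : ℕ) : ℝ) * q) := by
    clear hS
    revert hE
    generalize (∑' k : ℕ, 1 / ((2 * k + 1 : ℕ) : ℝ) ^ 2 * Real.cos (((2 * k + 1 : ℕ) : ℝ) * q)) = W
    intro hE
    have e1 : Real.pi ^ 2 * ((q / (2 * Real.pi)) ^ 2 - q / (2 * Real.pi) + 1 / 6) = q ^ 2 / 4 - Real.pi * q / 2 + Real.pi ^ 2 / 6 := by
      field_simp; ring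
    have e2 : (1 / 4 * (Real.pi ^ 2 * ((q / Real.pi) ^ 2 - q / Real.pi + 1 / 6))) = q ^ 2 / 4 - Real.pi * q / 4 + Real.pi ^ 2 / 24 := by
      field_simp; ring
    rw [e1, e2] at hE
    linarith
  rw [hval]
  exact hS

theorem sin_cos (t : ℝ) (k : ℕ) : (-1 : ℝ) ^ k * Real.sin (((2 * k + 1 : ℕ) : ℝ) * t) =
    Real.cos (((2 * k + 1 : ℕ) : ℝ) * (Real.pi / 2 - t)) := by
  have : ((2 * k + 1 : ℕ) : ℝ) * (Real.pi / 2 - t) = (Real.pi / 2 - ((2 * k + 1 : ℕ) : ℝ) * t) + k * Real.pi := by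
    push_cast; ring
  rw [this, Real.cos_add_nat_mul_pi, Real.cos_pi_div_two_sub]

theorem Ti2_im0 (t : ℝ) : (Ti2 (exp (t * I))).im =
    ∑' k : ℕ, 1 / ((2 * k + 1 : ℕ) : ℝ) ^ 2 * Real.cos (((2 * k + 1 : ℕ) : ℝ) * (Real.pi / 2 - t)) := by
  unfold Ti2
  have hterm : ∀ k : ℕ, (-1 : ℂ) ^ k * exp (t * I) ^ (2 * k + 1) / ((2 * k + 1 : ℕ) : ℂ) ^ 2 =
      (((-1 : ℝ) ^ k / ((2 * k + 1 : ℕ) : ℝ) ^ 2 : ℝ) : ℂ) * exp (((((2 * k + 1 : ℕ) : ℝ) * t : ℝ) : ℂ) * I) := by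
    intro k
    rw [← Complex.exp_nat_mul]
    push_cast
    rw [← mul_assoc]
    ring
  have hsum : Summable (fun k : ℕ => (-1 : ℂ) ^ k * exp (t * I) ^ (2 * k + 1) / ((2 * k + 1 : ℕ) : ℂ) ^ 2) := by
    apply Summable.of_norm
    have h2 : Summable (fun n : ℕ => 1 / (n : ℝ) ^ 2) := Real.summable_one_div_nat_pow.mpr (by norm_num)
    have hinj : Function.Injective (fun k : ℕ => 2 * k + 1) := by
      intro a b h; simp only at h; omega
    refine (h2.comp_injective hinj).congr ?_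
    intro k
    simp only [Function.comp, hterm]
    rw [norm_mul, Complex.norm_exp_ofReal_mul_I, mul_one, Complex.norm_real, norm_div, norm_pow, norm_neg, norm_one, one_pow, norm_pow,
      Real.norm_natCast]
  rw [Complex.im_tsum hsum]
  refine tsum_congr fun k => ?_
  rw [hterm, Complex.im_ofReal_mul, Complex.exp_ofReal_mul_I_im, ← sin_cos]
  ring

theorem Ti2_im1 (t : ℝ) (h0 : 0 ≤ t) (h1 : t ≤ Real.pi / 2) : (Ti2 (exp (t * I))).im = Real.pi / 4 * t := by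
  rw [Ti2_im0, (odd_cos (Real.pi / 2 - t) (by linarith) (by linarith)).tsum_eq]
  ring


theorem Ti2_im2 (t : ℝ) (h0 : Real.pi / 2 ≤ t) (h1 : t ≤ Real.pi) : (Ti2 (exp (t * I))).im = Real.pi / 4 * (Real.pi - t) := by
  have h := odd_cos (t - Real.pi / 2) (by linarith) (by linarith)
  have e : ∀ k : ℕ, Real.cos (((2 * k + 1 : ℕ) : ℝ) * (Real.pi / 2 - t)) = Real.cos (((2 * k + 1 : ℕ) : ℝ) * (t - Real.pi / 2)) := by
    intro k
    rw [← Real.cos_neg]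
    congr 1
    ring
  rw [Ti2_im0]
  simp only [e]
  rw [h.tsum_eq]
  ring


end Pool.Agent.Helper859.SP.T3
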