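import Pool.Agent.Helper859.SP.Defs
set_option linter.all false
open Complex MeasureTheory Set Filter Topology Metric

namespace Pool.Agent.Helper859.SP.T4
open Pool.Agent.Helper859.SP

theorem at_ne (z : ℂ) (hz : ‖z‖ < 1) : 0 < normSq (1 - z * I) := by
  rw [Complex.normSq_pos]
  intro h
  have h1 : z * I = 1 := by linear_combination -h
  have h2 : ‖z * I‖ = 1 := by rw [h1, norm_one]
  rw [norm_mul, Complex.norm_I, mul_one] at h2
  linarith

theorem at_re (z : ℂ) : (Complex.arctan z).re = arg ((1 + z * I) / (1 - z * I)) / 2 := by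
  rw [Complex.arctan, ← Complex.log_im]
  simp [Complex.mul_re, Complex.div_re, Complex.div_im]
  ring

theorem at_im (z : ℂ) : (Complex.arctan z).im = -(Real.log ‖(1 + z * I) / (1 - z * I)‖ / 2) := by
  rw [Complex.arctan, ← Complex.log_re]
  simp [Complex.mul_im, Complex.div_re, Complex.div_im]
  ring

theorem q_re (z : ℂ) (hz : ‖z‖ < 1) : 0 < ((1 + z * I) / (1 - z * I)).re := by
  have hN := at_ne z hz
  have h1 : ((1 + z * I) / (1 - z * I)).re = (1 - ‖z‖ ^ 2) / normSq (1 - z * I) := by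
    rw [Complex.div_re, ← add_div, ← Complex.normSq_eq_norm_sq]
    congr 1
    simp [Complex.normSq_apply]
    ring
  rw [h1]
  have h3 : 0 < 1 - ‖z‖ ^ 2 := by nlinarith [norm_nonneg z]
  positivity

theorem q_im (z : ℂ) : ((1 + z * I) / (1 - z * I)).im = 2 * z.re / normSq (1 - z * I) := by
  rw [Complex.div_im, ← sub_div]
  congr 1
  simp
  ring

theorem arctan_im_nonneg (z : ℂ) (hz : ‖z‖ < 1) (h : 0 ≤ z.im) : 0 ≤ (Complex.arctan z).im := by
  rw [at_im]
  have hN := at_ne z hz
  have h1 : ‖(1 + z * I) / (1 - z * I)‖ ≤ 1 := by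
    have h2 : 0 < ‖1 - z * I‖ := by
      rw [norm_pos_iff]
      exact Complex.normSq_pos.mp hN
    rw [norm_div, div_le_one h2]
    have h3 : ‖1 + z * I‖ ^ 2 ≤ ‖1 - z * I‖ ^ 2 := by
      rw [← Complex.normSq_eq_norm_sq, ← Complex.normSq_eq_norm_sq]
      simp [Complex.normSq_apply]
      nlinarith
    exact (sq_le_sq₀ (norm_nonneg _) (norm_nonneg _)).mp h3
  have h4 := Real.log_nonpos (norm_nonneg _) h1
  linarith

theorem arctan_re_pos (z : ℂ) (hz : ‖z‖ < 1) (h : 0 ≤ z.re) : 0 ≤ (Complex.arctan z).re ∧ (Complex.arctan z).re ≤ Real.pi / 4 := by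
  rw [at_re]
  have hN := at_ne z hz
  have h1 : 0 ≤ arg ((1 + z * I) / (1 - z * I)) := by
    rw [Complex.arg_nonneg_iff, q_im]
    positivity
  have h2 : |arg ((1 + z * I) / (1 - z * I))| ≤ Real.pi / 2 := by
    rw [Complex.abs_arg_le_pi_div_two_iff]
    exact (q_re z hz).le
  rw [abs_le] at h2
  constructor
  · linarith
  · linarith [h2.2]

theorem arctan_re_neg (z : ℂ) (hz : ‖z‖ < 1) (h : z.re ≤ 0) : (Complex.arctan z).re ≤ 0 ∧ -(Real.pi / 4) ≤ (Complex.arctan z).re := by
  rw [at_re]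
  have hN := at_ne z hz
  have h1 : arg ((1 + z * I) / (1 - z * I)) ≤ 0 := by
    rcases h.lt_or_eq with h' | h'
    · have : arg ((1 + z * I) / (1 - z * I)) < 0 := by
        rw [Complex.arg_neg_iff, q_im]
        exact div_neg_of_neg_of_pos (by linarith) hN
      exact this.le
    · have h3 : ((1 + z * I) / (1 - z * I)).im = 0 := by rw [q_im, h']; simp
      have h4 : arg ((1 + z * I) / (1 - z * I)) = 0 := by
        rw [Complex.arg_eq_zero_iff]
        exact ⟨(q_re z hz).le, h3⟩
      exact h4.le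
  have h2 : |arg ((1 + z * I) / (1 - z * I))| ≤ Real.pi / 2 := by
    rw [Complex.abs_arg_le_pi_div_two_iff]
    exact (q_re z hz).le
  rw [abs_le] at h2
  constructor
  · linarith
  · linarith [h2.1]

end Pool.Agent.Helper859.SP.T4
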