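import Pool.Agent.Helper859.SP.Defs
set_option linter.all false
open Complex MeasureTheory Set Filter Topology Metric

namespace Pool.Agent.Helper859.SP.T5

theorem Ti2_re_anti_deriv
    (hd : ∀ z ∈ ball (0:ℂ) 1, z ≠ 0 → HasDerivAt Ti2 (Complex.arctan z / z) z)
    (r : ℝ) (hr0 : 0 < r) (hr1 : r < 1) (t : ℝ) :
    HasDerivAt (fun t : ℝ => (Ti2 ((r : ℂ) * exp (t * I))).re)
      (-(Complex.arctan ((r : ℂ) * exp (t * I))).im) t := by
  have hn : ‖(r : ℂ) * exp (t * I)‖ = r := by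
    rw [norm_mul, Complex.norm_exp_ofReal_mul_I, mul_one, Complex.norm_real, Real.norm_eq_abs,
      abs_of_pos hr0]
  have hz : (r : ℂ) * exp (t * I) ∈ ball (0:ℂ) 1 := by
    rw [mem_ball_zero_iff, hn]; exact hr1
  have hz0 : (r : ℂ) * exp (t * I) ≠ 0 := by
    rw [← norm_pos_iff, hn]; exact hr0
  have h1 : HasDerivAt (fun t : ℝ => (r : ℂ) * exp (t * I)) ((r : ℂ) * (exp (t * I) * (1 * I))) t := by
    have h2 : HasDerivAt (fun t : ℝ => ((t : ℝ) : ℂ) * I) (1 * I) t :=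
      (HasDerivAt.ofReal_comp (hasDerivAt_id t)).mul_const I
    exact (h2.cexp).const_mul (r : ℂ)
  have h3 := (hd _ hz hz0).comp_of_eq t h1 rfl
  have h4 : HasDerivAt (fun t : ℝ => Ti2 ((r : ℂ) * exp (t * I)))
      (Complex.arctan ((r : ℂ) * exp (t * I)) / ((r : ℂ) * exp (t * I)) *
        ((r : ℂ) * (exp (t * I) * (1 * I)))) t := h3
  have h5 : Complex.arctan ((r : ℂ) * exp (t * I)) / ((r : ℂ) * exp (t * I)) *
        ((r : ℂ) * (exp (t * I) * (1 * I))) = Complex.arctan ((r : ℂ) * exp (t * I)) * I := by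
    have hr : (r : ℂ) ≠ 0 := by exact_mod_cast hr0.ne'
    have he : exp ((t : ℂ) * I) ≠ 0 := Complex.exp_ne_zero _
    obtain ⟨w, hw⟩ : ∃ w, w = Complex.arctan ((r : ℂ) * exp (t * I)) := ⟨_, rfl⟩
    rw [← hw]
    field_simp
  rw [h5] at h4
  have h6 := (Complex.reCLM.hasFDerivAt).comp_hasDerivAt t h4
  have h7 : Complex.reCLM (Complex.arctan ((r : ℂ) * exp (t * I)) * I) =
      -(Complex.arctan ((r : ℂ) * exp (t * I))).im := by
    simp
  rw [h7] at h6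
  exact h6

theorem Ti2_re_anti_r
    (hd : ∀ z ∈ ball (0:ℂ) 1, z ≠ 0 → HasDerivAt Ti2 (Complex.arctan z / z) z)
    (hp : ∀ z : ℂ, ‖z‖ < 1 → 0 ≤ z.im → 0 ≤ (Complex.arctan z).im)
    (r : ℝ) (hr0 : 0 < r) (hr1 : r < 1) :
    AntitoneOn (fun t : ℝ => (Ti2 ((r : ℂ) * exp (t * I))).re) (Icc 0 Real.pi) := by
  have hD := Ti2_re_anti_deriv hd r hr0 hr1
  refine antitoneOn_of_deriv_nonpos (convex_Icc 0 Real.pi) ?_ ?_ ?_
  · exact fun t _ => (hD t).continuousAt.continuousWithinAt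
  · exact fun t _ => (hD t).differentiableAt.differentiableWithinAt
  · intro t ht
    rw [(hD t).deriv, neg_nonpos]
    rw [interior_Icc] at ht
    apply hp
    · rw [norm_mul, Complex.norm_exp_ofReal_mul_I, mul_one, Complex.norm_real, Real.norm_eq_abs,
        abs_of_pos hr0]
      exact hr1
    · rw [Complex.im_ofReal_mul, Complex.exp_ofReal_mul_I_im]
      exact mul_nonneg hr0.le (Real.sin_nonneg_of_mem_Icc ⟨ht.1.le, ht.2.le⟩)

theorem Ti2_re_anti_tendsto (hc : ContinuousOn Ti2 (closedBall (0:ℂ) 1)) (t : ℝ) :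
    Tendsto (fun r : ℝ => (Ti2 ((r : ℂ) * exp (t * I))).re) (𝓝[Ioo 0 1] 1)
      (𝓝 (Ti2 (exp (t * I))).re) := by
  have hm : exp (t * I) ∈ closedBall (0:ℂ) 1 := by
    rw [mem_closedBall_zero_iff, Complex.norm_exp_ofReal_mul_I]
  have h1 : Tendsto Ti2 (𝓝[closedBall (0:ℂ) 1] (exp (t * I))) (𝓝 (Ti2 (exp (t * I)))) := hc _ hm
  have h2 : Tendsto (fun r : ℝ => (r : ℂ) * exp (t * I)) (𝓝[Ioo 0 1] 1)
      (𝓝[closedBall (0:ℂ) 1] (exp (t * I))) := by
    refine tendsto_nhdsWithin_iff.2 ⟨?_, ?_⟩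
    · have h3 : Continuous (fun r : ℝ => (r : ℂ) * exp (t * I)) := by fun_prop
      have h4 := h3.tendsto 1
      simp only [Complex.ofReal_one, one_mul] at h4
      exact h4.mono_left nhdsWithin_le_nhds
    · filter_upwards [self_mem_nhdsWithin] with r hr
      rw [mem_closedBall_zero_iff, norm_mul, Complex.norm_exp_ofReal_mul_I, mul_one,
        Complex.norm_real, Real.norm_eq_abs, abs_of_pos hr.1]
      exact hr.2.le
  exact (Complex.continuous_re.tendsto _).comp (h1.comp h2)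


open Pool.Agent.Helper859.SP

theorem Ti2_re_anti
    (hc : ContinuousOn Ti2 (closedBall (0:ℂ) 1))
    (hd : ∀ z ∈ ball (0:ℂ) 1, z ≠ 0 → HasDerivAt Ti2 (Complex.arctan z / z) z)
    (hp : ∀ z : ℂ, ‖z‖ < 1 → 0 ≤ z.im → 0 ≤ (Complex.arctan z).im) :
    AntitoneOn (fun t : ℝ => (Ti2 (exp (t * I))).re) (Icc 0 Real.pi) := by
  intro s hs t ht hst
  have hne : (𝓝[Ioo (0:ℝ) 1] 1).NeBot := by
    rw [← mem_closure_iff_nhdsWithin_neBot, closure_Ioo (by norm_num)]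
    exact ⟨zero_le_one, le_refl _⟩
  refine le_of_tendsto_of_tendsto (Ti2_re_anti_tendsto hc t) (Ti2_re_anti_tendsto hc s) ?_
  filter_upwards [self_mem_nhdsWithin] with r hr
  exact Ti2_re_anti_r hd hp r hr.1 hr.2 hs ht hst

end Pool.Agent.Helper859.SP.T5
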