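import Pool.Agent.Helper859.SP.Defs
set_option linter.all false
open Complex MeasureTheory Set Filter Topology Metric

namespace Pool.Agent.Helper859.SP.T6
open Pool.Agent.Helper859.SP

theorem Ti2_im_bd
    (hc : ContinuousOn Ti2 (closedBall (0:ℂ) 1))
    (hd : ∀ z ∈ ball (0:ℂ) 1, z ≠ 0 → HasDerivAt Ti2 (Complex.arctan z / z) z)
    (h0 : Ti2 0 = 0)
    (hp : ∀ z : ℂ, ‖z‖ < 1 → 0 ≤ z.im → 0 ≤ (Complex.arctan z).im)
    (r t : ℝ) (hr0 : 0 ≤ r) (hr1 : r ≤ 1) (ht0 : 0 ≤ t) (ht1 : t ≤ Real.pi) :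
    0 ≤ (Ti2 (r * exp (t * I))).im ∧ (Ti2 (r * exp (t * I))).im ≤ (Ti2 (exp (t * I))).im := by
  have he : ‖exp (t * I)‖ = 1 := Complex.norm_exp_ofReal_mul_I t
  have hne : exp (t * I) ≠ 0 := Complex.exp_ne_zero _
  have hnorm : ∀ r : ℝ, 0 ≤ r → ‖(r : ℂ) * exp (t * I)‖ = r := by
    intro r hr
    rw [norm_mul, he, mul_one, Complex.norm_real, Real.norm_of_nonneg hr]
  have hder : ∀ r : ℝ, 0 < r → r < 1 →
      HasDerivAt (fun r : ℝ => (Ti2 (r * exp (t * I))).im) ((Complex.arctan (r * exp (t * I))).im / r) r := by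
    intro r hr hr1
    have hz : (r : ℂ) * exp (t * I) ≠ 0 := mul_ne_zero (by exact_mod_cast hr.ne') hne
    have hb : (r : ℂ) * exp (t * I) ∈ ball (0:ℂ) 1 := by
      rw [mem_ball_zero_iff, hnorm r hr.le]; exact hr1
    have h1 := hd _ hb hz
    have h2 : HasDerivAt (fun r : ℝ => (r : ℂ) * exp (t * I)) (exp (t * I)) r := by
      have h3 := (Complex.ofRealCLM.hasDerivAt (x := r)).mul_const (exp (t * I))
      simpa using h3
    have h4 : HasDerivAt (fun r : ℝ => Ti2 (r * exp (t * I)))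
        (Complex.arctan (r * exp (t * I)) / (r * exp (t * I)) * exp (t * I)) r :=
      HasDerivAt.comp (h₂ := Ti2) (h := fun r : ℝ => (r : ℂ) * exp (t * I)) r h1 h2
    have h5 : Complex.arctan (r * exp (t * I)) / (r * exp (t * I)) * exp (t * I)
        = Complex.arctan (r * exp (t * I)) / (r : ℂ) := by
      have : (r : ℂ) ≠ 0 := by exact_mod_cast hr.ne'
      field_simp
    rw [h5] at h4
    have h6 := (Complex.imCLM.hasFDerivAt (x := Ti2 (r * exp (t * I)))).comp_hasDerivAt r h4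
    simp only [Complex.imCLM_apply] at h6
    rw [Complex.div_ofReal_im] at h6
    exact h6
  have hmono : MonotoneOn (fun r : ℝ => (Ti2 (r * exp (t * I))).im) (Icc 0 1) := by
    apply monotoneOn_of_deriv_nonneg (convex_Icc 0 1)
    · apply Complex.continuous_im.comp_continuousOn
      apply hc.comp
      · fun_prop
      · intro r hr
        rw [mem_closedBall_zero_iff, hnorm r hr.1]; exact hr.2
    · intro r hr
      rw [interior_Icc] at hr
      exact (hder r hr.1 hr.2).differentiableAt.differentiableWithinAt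
    · intro r hr
      rw [interior_Icc] at hr
      rw [(hder r hr.1 hr.2).deriv]
      apply div_nonneg _ hr.1.le
      apply hp
      · rw [hnorm r hr.1.le]; exact hr.2
      · have h7 : ((r : ℂ) * exp (t * I)).im = r * Real.sin t := by
          rw [Complex.im_ofReal_mul, Complex.exp_ofReal_mul_I_im]
        rw [h7]
        exact mul_nonneg hr.1.le (Real.sin_nonneg_of_nonneg_of_le_pi ht0 ht1)
  have g0 := hmono (left_mem_Icc.2 zero_le_one) ⟨hr0, hr1⟩ hr0
  have g1 := hmono ⟨hr0, hr1⟩ (right_mem_Icc.2 zero_le_one) hr1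
  simp only [Complex.ofReal_zero, zero_mul, h0, Complex.zero_im, Complex.ofReal_one, one_mul] at g0 g1
  exact ⟨g0, g1⟩

end Pool.Agent.Helper859.SP.T6
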