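import Pool.Agent.Helper859.SP.Defs
set_option linter.all false
open Complex MeasureTheory Set Filter Topology Metric

namespace Pool.Agent.Helper859.SP.T7
open Pool.Agent.Helper859.SP

theorem mono_step (a b : ℝ) (hab : a < b) (w u u' : ℝ → ℝ) (hw : MonotoneOn w (Icc a b)) (hwc : ContinuousOn w (Icc a b))
    (hu : ∀ t ∈ Icc a b, HasDerivAt u (u' t) t) (hu' : ContinuousOn u' (Icc a b))
    (hu0 : ∀ t ∈ Icc a b, 0 ≤ u t) (M : ℝ) (hM : ∀ t ∈ Icc a b, |u' t| ≤ M) (s t : ℝ) (hs : a ≤ s)
    (hst : s ≤ t) (ht : t ≤ b) :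
    ((∫ r in s..b, w r * u' r) + w s * u s) - ((∫ r in t..b, w r * u' r) + w t * u t) ≤
      M * (t - s) * (w t - w s) := by
  have hsm : s ∈ Icc a b := ⟨hs, hst.trans ht⟩
  have htm : t ∈ Icc a b := ⟨hs.trans hst, ht⟩
  have hc : ContinuousOn (fun r => w r * u' r) (Icc a b) := hwc.mul hu'
  have hi : ∀ x y : ℝ, x ∈ Icc a b → y ∈ Icc a b → IntervalIntegrable (fun r => w r * u' r) volume x y := by
    intro x y hx hy
    apply ContinuousOn.intervalIntegrable
    exact hc.mono (uIcc_subset_Icc hx hy)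
  have hi' : IntervalIntegrable u' volume s t := by
    apply ContinuousOn.intervalIntegrable
    exact hu'.mono (uIcc_subset_Icc hsm htm)
  have h1 : (∫ r in s..b, w r * u' r) = (∫ r in s..t, w r * u' r) + ∫ r in t..b, w r * u' r :=
    (intervalIntegral.integral_add_adjacent_intervals (hi s t hsm htm)
      (hi t b htm ⟨hab.le, le_refl _⟩)).symm
  have h2 : (∫ r in s..t, u' r) = u t - u s := by
    apply intervalIntegral.integral_eq_sub_of_hasDerivAt _ hi'
    intro x hx
    exact hu x (uIcc_subset_Icc hsm htm hx)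
  have h3 : (∫ r in s..t, w r * u' r) = (∫ r in s..t, (w r - w s) * u' r) + w s * (u t - u s) := by
    rw [← h2, ← intervalIntegral.integral_const_mul, ← intervalIntegral.integral_add]
    · apply intervalIntegral.integral_congr
      intro r _
      simp only
      ring
    · apply ContinuousOn.intervalIntegrable
      exact ((hwc.sub continuousOn_const).mul hu').mono (uIcc_subset_Icc hsm htm)
    · exact hi'.const_mul _
  have h4 : (∫ r in s..t, (w r - w s) * u' r) ≤ ∫ r in s..t, (w t - w s) * M := by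
    apply intervalIntegral.integral_mono_on hst
    · apply ContinuousOn.intervalIntegrable
      exact ((hwc.sub continuousOn_const).mul hu').mono (uIcc_subset_Icc hsm htm)
    · exact intervalIntegrable_const
    · intro r hr
      have hrm : r ∈ Icc a b := ⟨hs.trans hr.1, hr.2.trans ht⟩
      have a1 : 0 ≤ w r - w s := sub_nonneg.2 (hw hsm hrm hr.1)
      have a2 : w r - w s ≤ w t - w s := sub_le_sub_right (hw hrm htm hr.2) _
      have a3 : u' r ≤ M := (le_abs_self _).trans (hM r hrm)
      have a4 : 0 ≤ M := (abs_nonneg _).trans (hM r hrm)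
      calc (w r - w s) * u' r ≤ (w r - w s) * M := mul_le_mul_of_nonneg_left a3 a1
        _ ≤ (w t - w s) * M := mul_le_mul_of_nonneg_right a2 a4
  rw [intervalIntegral.integral_const, smul_eq_mul] at h4
  have h5 : (w s - w t) * u t ≤ 0 := by
    have a1 : w s - w t ≤ 0 := sub_nonpos.2 (hw hsm htm hst)
    exact mul_nonpos_of_nonpos_of_nonneg a1 (hu0 t htm)
  rw [h1, h3]
  nlinarith

theorem mono_int (a b : ℝ) (hab : a < b) (w u u' : ℝ → ℝ) (hw : MonotoneOn w (Icc a b)) (hwc : ContinuousOn w (Icc a b))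
    (hw0 : 0 ≤ w a) (hu : ∀ t ∈ Icc a b, HasDerivAt u (u' t) t) (hu' : ContinuousOn u' (Icc a b))
    (hu0 : ∀ t ∈ Icc a b, 0 ≤ u t) (hub : u b = 0) :
    ∫ t in a..b, w t * u' t ≤ 0 := by
  obtain ⟨M, hM⟩ := isCompact_Icc.exists_bound_of_continuousOn hu'
  have hM' : ∀ t ∈ Icc a b, |u' t| ≤ M := fun t ht => by
    have := hM t ht
    rwa [Real.norm_eq_abs] at this
  have ham : a ∈ Icc a b := ⟨le_refl _, hab.le⟩
  have hbm : b ∈ Icc a b := ⟨hab.le, le_refl _⟩
  have hM0 : 0 ≤ M := (abs_nonneg _).trans (hM' a ham)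
  set G : ℝ → ℝ := fun s => (∫ r in s..b, w r * u' r) + w s * u s with hG
  have hGb : G b = 0 := by
    simp only [hG]
    rw [intervalIntegral.integral_same, hub]
    ring
  have hwab : 0 ≤ w b - w a := sub_nonneg.2 (hw ham hbm hab.le)
  have hmain : ∀ n : ℕ, 0 < n → G a ≤ M * ((b - a) / n) * (w b - w a) := by
    intro n hn
    have hnr : (0:ℝ) < (n:ℝ) := by exact_mod_cast hn
    set δ := (b - a) / n with hδ
    have hδ0 : 0 < δ := by
      have : 0 < b - a := by linarith
      positivity
    have hnδ : (n:ℝ) * δ = b - a := by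
      rw [hδ]
      field_simp
    have hstep : ∀ i : ℕ, i ≤ n → G a - G (a + i * δ) ≤ M * δ * (w (a + i * δ) - w a) := by
      intro i
      induction i with
      | zero =>
        intro _
        simp
      | succ i ih =>
        intro hi
        have h1 := ih (by omega)
        have hir : ((i:ℝ) + 1) ≤ (n:ℝ) := by exact_mod_cast hi
        have hi0 : (0:ℝ) ≤ (i:ℝ) := Nat.cast_nonneg i
        have h2 := mono_step a b hab w u u' hw hwc hu hu' hu0 M hM' (a + i * δ) (a + (i + 1) * δ)
          (by nlinarith) (by nlinarith) (by nlinarith)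
        have h3 : (a + ((i:ℝ) + 1) * δ) - (a + i * δ) = δ := by ring
        rw [h3] at h2
        have h4 : G (a + i * δ) - G (a + (i + 1) * δ) ≤ M * δ * (w (a + (i + 1) * δ) - w (a + i * δ)) := h2
        push_cast
        linarith
    have h5 := hstep n le_rfl
    rw [hnδ] at h5
    have h6 : a + (b - a) = b := by ring
    rw [h6, hGb] at h5
    linarith
  have hGa : G a ≤ 0 := by
    by_contra hcon
    push Not at hcon
    obtain ⟨n, hn⟩ := exists_nat_gt (M * (b - a) * (w b - w a) / G a)
    have hq0 : 0 ≤ M * (b - a) * (w b - w a) / G a := by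
      have : 0 < b - a := by linarith
      positivity
    have hnr : (0:ℝ) < (n:ℝ) := lt_of_le_of_lt hq0 hn
    have hn0 : 0 < n := by exact_mod_cast hnr
    have h1 := hmain n hn0
    rw [div_lt_iff₀ hcon] at hn
    have h2 : M * ((b - a) / n) * (w b - w a) = M * (b - a) * (w b - w a) / n := by ring
    rw [h2, le_div_iff₀ hnr] at h1
    linarith
  have h7 : 0 ≤ w a * u a := mul_nonneg hw0 (hu0 a ham)
  have h8 : G a = (∫ r in a..b, w r * u' r) + w a * u a := rfl
  linarith

end Pool.Agent.Helper859.SP.T7
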