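import Pool.Agent.Helper859.SP.Defs
set_option linter.all false
open Complex MeasureTheory Set Filter Topology Metric

namespace Pool.Agent.Helper859.SP.T8
open Pool.Agent.Helper859.SP

theorem typ_real (f : ℂ → ℂ) (hd : ContinuousOn f (ball (0:ℂ) 1)) (hinj : InjOn f (ball (0:ℂ) 1))
    (hs : ∀ z ∈ ball (0:ℂ) 1, f (starRingEnd ℂ z) = starRingEnd ℂ (f z))
    (c : ℝ) (hc : 0 < c) (h1 : HasDerivAt f (c : ℂ) 0) :
    ∀ z ∈ ball (0:ℂ) 1, 0 < z.im → 0 < (f z).im := by
  set U : Set ℂ := ball (0:ℂ) 1 ∩ {z : ℂ | 0 < z.im} with hU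
  have hUp : IsPreconnected U :=
    ((convex_ball (0:ℂ) 1).inter (convex_halfSpace_im_gt 0)).isPreconnected
  have hcont : ContinuousOn (fun z => (f z).im) U :=
    Complex.continuous_im.comp_continuousOn (hd.mono inter_subset_left)
  have hball : ∀ z ∈ ball (0:ℂ) 1, starRingEnd ℂ z ∈ ball (0:ℂ) 1 := by
    intro z hz
    rw [mem_ball_zero_iff] at hz ⊢
    rwa [Complex.norm_conj]
  have hne : ∀ z ∈ U, (f z).im ≠ 0 := by
    intro z hz h0
    have e1 : starRingEnd ℂ (f z) = f z := Complex.conj_eq_iff_im.mpr h0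
    have e2 := hs z hz.1
    rw [e1] at e2
    have e3 := hinj (hball z hz.1) hz.1 e2
    have e4 : z.im = 0 := Complex.conj_eq_iff_im.mp e3
    exact hz.2.ne' e4
  have h0 : (f 0).im = 0 := by
    have e := hs 0 (mem_ball_self one_pos)
    rw [map_zero] at e
    exact Complex.conj_eq_iff_im.mp e.symm
  have hder : HasDerivAt (fun t : ℝ => (f ((t : ℂ) * I)).im) c 0 := by
    have hb : HasDerivAt (fun t : ℝ => (t : ℂ) * I) I 0 := by
      have := (Complex.ofRealCLM.hasDerivAt (x := (0:ℝ))).mul_const I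
      simpa using this
    have h1' : HasDerivAt f (c : ℂ) (((0:ℝ) : ℂ) * I) := by simpa using h1
    have hcmp : HasDerivAt (fun t : ℝ => f ((t : ℂ) * I)) ((c : ℂ) * I) 0 :=
      HasDerivAt.comp (0:ℝ) h1' hb
    have him := (Complex.imCLM.hasFDerivAt (x := f (((0:ℝ) : ℂ) * I))).comp_hasDerivAt (0:ℝ) hcmp
    have e : ((c : ℂ) * I).im = c := by simp
    rw [← e]
    exact him
  rw [hasDerivAt_iff_tendsto_slope] at hder
  have hev : ∀ᶠ t in 𝓝[>] (0:ℝ), 0 < slope (fun t : ℝ => (f ((t : ℂ) * I)).im) 0 t :=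
    (hder.mono_left (nhdsWithin_mono _ (fun t ht => ne_of_gt ht))).eventually (lt_mem_nhds hc)
  have hev2 : ∀ᶠ t in 𝓝[>] (0:ℝ), t < 1 :=
    mem_nhdsWithin_of_mem_nhds (Iio_mem_nhds one_pos)
  have hev3 : ∀ᶠ t in 𝓝[>] (0:ℝ), 0 < t := self_mem_nhdsWithin
  obtain ⟨t, ht1, ht2, ht3⟩ := (hev.and (hev2.and hev3)).exists
  have hpt : ((t : ℂ) * I) ∈ U := by
    refine ⟨?_, ?_⟩
    · rw [mem_ball_zero_iff, norm_mul, Complex.norm_I, mul_one, Complex.norm_real,
        Real.norm_of_nonneg ht3.le]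
      exact ht2
    · show 0 < ((t : ℂ) * I).im
      simpa using ht3
  have hpos : 0 < (f ((t : ℂ) * I)).im := by
    rw [slope_def_field] at ht1
    have e : (f (((0:ℝ) : ℂ) * I)).im = 0 := by simpa using h0
    simp only [e, sub_zero] at ht1
    have := mul_pos ht1 ht3
    rwa [div_mul_cancel₀ _ ht3.ne'] at this
  intro z hz him
  by_contra hcon
  push Not at hcon
  have hzU : z ∈ U := ⟨hz, him⟩
  obtain ⟨w, hw, hw0⟩ := hUp.intermediate_value hzU hpt hcont ⟨hcon, hpos.le⟩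
  exact hne w hw hw0

end Pool.Agent.Helper859.SP.T8
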