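import Pool.Agent.Helper859.SP.Defs
set_option linter.all false
open Complex MeasureTheory Set Filter Topology Metric

namespace Pool.Agent.Helper859.SP.T9
open Pool.Agent.Helper859.SP

theorem real_D (f : ℂ → ℂ) (n : ℕ) (h : (coeff n f).im = 0) :
    starRingEnd ℂ (iteratedDeriv n f 0) = iteratedDeriv n f 0 := by
  rw [Complex.conj_eq_iff_im]
  unfold coeff at h
  rw [Complex.div_natCast_im] at h
  have hn : ((n.factorial : ℕ) : ℝ) ≠ 0 := by positivity
  rcases div_eq_zero_iff.mp h with h | h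
  · exact h
  · exact absurd h hn

theorem conj_mem {z : ℂ} (hz : z ∈ ball (0:ℂ) 1) : starRingEnd ℂ z ∈ ball (0:ℂ) 1 := by
  rw [mem_ball_zero_iff] at hz ⊢
  rwa [RCLike.norm_conj]

theorem symm_of_real (f : ℂ → ℂ) (hf : DifferentiableOn ℂ f (ball (0:ℂ) 1))
    (hr : ∀ n, (coeff n f).im = 0) : ∀ z ∈ ball (0:ℂ) 1, f (starRingEnd ℂ z) = starRingEnd ℂ (f z) := by
  intro z hz
  have h1 := Complex.hasSum_taylorSeries_on_ball hf hz
  have h2 := Complex.hasSum_taylorSeries_on_ball hf (conj_mem hz)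
  have h3 := (Complex.hasSum_conj').mpr h1
  refine h2.unique ?_
  have e : (fun n : ℕ => ((n.factorial : ℕ) : ℂ)⁻¹ • (starRingEnd ℂ z - 0) ^ n • iteratedDeriv n f 0) =
      fun n : ℕ => starRingEnd ℂ (((n.factorial : ℕ) : ℂ)⁻¹ • (z - 0) ^ n • iteratedDeriv n f 0) := by
    funext n
    simp only [sub_zero, smul_eq_mul, map_mul, map_pow, map_inv₀, Complex.conj_natCast,
      real_D f n (hr n)]
  rw [e]
  exact h3

theorem symm_deriv (f : ℂ → ℂ) (hf : DifferentiableOn ℂ f (ball (0:ℂ) 1))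
    (hs : ∀ z ∈ ball (0:ℂ) 1, f (starRingEnd ℂ z) = starRingEnd ℂ (f z)) :
    ∀ z ∈ ball (0:ℂ) 1, deriv f (starRingEnd ℂ z) = starRingEnd ℂ (deriv f z) := by
  intro z hz
  have h1 : HasDerivAt f (deriv f z) z :=
    ((hf z hz).differentiableAt (isOpen_ball.mem_nhds hz)).hasDerivAt
  have h2 := h1.conj_conj
  have h3 : HasDerivAt f (starRingEnd ℂ (deriv f z)) (starRingEnd ℂ z) := by
    refine h2.congr_of_eventuallyEq ?_
    filter_upwards [isOpen_ball.mem_nhds (conj_mem hz)] with w hw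
    simp only [Function.comp]
    rw [hs w hw, Complex.conj_conj]
  exact h3.deriv

theorem real_of_symm (f : ℂ → ℂ) (hf : DifferentiableOn ℂ f (ball (0:ℂ) 1))
    (hs : ∀ z ∈ ball (0:ℂ) 1, f (starRingEnd ℂ z) = starRingEnd ℂ (f z)) :
    ∀ n, (coeff n f).im = 0 := by
  have key : ∀ n, DifferentiableOn ℂ (iteratedDeriv n f) (ball (0:ℂ) 1) ∧
      ∀ z ∈ ball (0:ℂ) 1, iteratedDeriv n f (starRingEnd ℂ z) = starRingEnd ℂ (iteratedDeriv n f z) := by
    intro n
    induction n with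
    | zero =>
      rw [iteratedDeriv_zero]
      exact ⟨hf, hs⟩
    | succ n ih =>
      rw [iteratedDeriv_succ]
      exact ⟨ih.1.deriv isOpen_ball, symm_deriv _ ih.1 ih.2⟩
  intro n
  have h := (key n).2 0 (by simp)
  rw [map_zero] at h
  have h2 := Complex.conj_eq_iff_im.mp h.symm
  unfold coeff
  rw [Complex.div_natCast_im, h2, zero_div]

end Pool.Agent.Helper859.SP.T9
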