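import Pool.Agent.Helper859.SP.Defs
set_option linter.all false
open Complex MeasureTheory Set Filter Topology Metric

namespace Pool.Agent.Helper859.SP.V1
open Pool.Agent.Helper859.SP

theorem re_im_34483 (r t : ℝ) : ((r : ℂ) * exp (t * I)).re = r * Real.cos t ∧
    ((r : ℂ) * exp (t * I)).im = r * Real.sin t := by
  constructor
  · rw [Complex.re_ofReal_mul, Complex.exp_ofReal_mul_I_re]
  · rw [Complex.im_ofReal_mul, Complex.exp_ofReal_mul_I_im]

theorem arg_bds (r t : ℝ) (hr0 : 0 ≤ r) (hr1 : r < 1) (ht0 : 0 < t) (ht1 : t ≤ Real.pi) :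
    0 ≤ arg (1 + r * exp (t * I)) ∧ arg (1 + r * exp (t * I)) < t / 2 ∧
    arg (1 - r * exp (t * I)) ≤ 0 ∧ -((Real.pi - t) / 2) ≤ arg (1 - r * exp (t * I)) := by
  obtain ⟨hre, him⟩ := re_im_34483 r t
  have hpi := Real.pi_pos
  have hs : 0 ≤ Real.sin t := Real.sin_nonneg_of_nonneg_of_le_pi ht0.le ht1
  have hs2 : 0 < Real.sin (t / 2) := Real.sin_pos_of_pos_of_lt_pi (by linarith) (by linarith)
  have hc2 : 0 ≤ Real.cos (t / 2) := Real.cos_nonneg_of_mem_Icc ⟨by linarith, by linarith⟩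
  have hcl := Real.neg_one_le_cos t
  have hcu := Real.cos_le_one t
  set w1 : ℂ := 1 + r * exp (t * I) with hw1
  set w2 : ℂ := 1 - r * exp (t * I) with hw2
  have h1re : w1.re = 1 + r * Real.cos t := by rw [hw1, Complex.add_re, hre]; simp
  have h1im : w1.im = r * Real.sin t := by rw [hw1, Complex.add_im, him]; simp
  have h2re : w2.re = 1 - r * Real.cos t := by rw [hw2, Complex.sub_re, hre]; simp
  have h2im : w2.im = -(r * Real.sin t) := by rw [hw2, Complex.sub_im, him]; simp
  have h1pos : 0 < w1.re := by rw [h1re]; nlinarith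
  have h2pos : 0 < w2.re := by rw [h2re]; nlinarith
  have hst : Real.sin t = 2 * Real.sin (t / 2) * Real.cos (t / 2) := by
    rw [← Real.sin_two_mul]; congr 1; ring
  have hct : Real.cos t = 2 * Real.cos (t / 2) ^ 2 - 1 := by
    rw [← Real.cos_two_mul]; congr 1; ring
  have hsc := Real.sin_sq_add_cos_sq (t / 2)
  refine ⟨?_, ?_, ?_, ?_⟩
  · rw [Complex.arg_nonneg_iff, h1im]
    positivity
  · by_contra hcon
    push Not at hcon
    have e1 : ‖w1‖ * Real.cos w1.arg = w1.re := Complex.norm_mul_cos_arg w1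
    have e2 : ‖w1‖ * Real.sin w1.arg = w1.im := Complex.norm_mul_sin_arg w1
    have e3 : ‖w1‖ * Real.sin (w1.arg - t / 2) = (r - 1) * Real.sin (t / 2) := by
      rw [Real.sin_sub]
      have : ‖w1‖ * (Real.sin w1.arg * Real.cos (t / 2) - Real.cos w1.arg * Real.sin (t / 2)) =
          (‖w1‖ * Real.sin w1.arg) * Real.cos (t / 2) -
          (‖w1‖ * Real.cos w1.arg) * Real.sin (t / 2) := by ring
      rw [this, e1, e2, h1im, h1re, hst, hct]
      linear_combination (-(2 : ℝ) * r * 0) * hsc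
    have h3 : 0 ≤ Real.sin (w1.arg - t / 2) :=
      Real.sin_nonneg_of_nonneg_of_le_pi (by linarith) (by linarith [Complex.arg_le_pi w1])
    have h4 : 0 ≤ ‖w1‖ * Real.sin (w1.arg - t / 2) := mul_nonneg (norm_nonneg _) h3
    rw [e3] at h4
    nlinarith
  · by_contra hcon
    push Not at hcon
    have h3 : 0 ≤ w2.im := (Complex.arg_nonneg_iff).1 hcon.le
    have h4 : w2.im = 0 := le_antisymm (by rw [h2im]; nlinarith [mul_nonneg hr0 hs]) h3
    have h5 : w2.arg = 0 := by
      rw [Complex.arg_eq_zero_iff]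
      exact ⟨h2pos.le, h4⟩
    linarith
  · by_contra hcon
    push Not at hcon
    have e1 : ‖w2‖ * Real.cos w2.arg = w2.re := Complex.norm_mul_cos_arg w2
    have e2 : ‖w2‖ * Real.sin w2.arg = w2.im := Complex.norm_mul_sin_arg w2
    have c1 : Real.cos ((Real.pi - t) / 2) = Real.sin (t / 2) := by
      rw [← Real.cos_pi_div_two_sub]; congr 1; ring
    have c2 : Real.sin ((Real.pi - t) / 2) = Real.cos (t / 2) := by
      rw [← Real.sin_pi_div_two_sub]; congr 1; ring
    have e3 : ‖w2‖ * Real.sin (w2.arg + (Real.pi - t) / 2) = (1 - r) * Real.cos (t / 2) := by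
      rw [Real.sin_add, c1, c2]
      have : ‖w2‖ * (Real.sin w2.arg * Real.sin (t / 2) + Real.cos w2.arg * Real.cos (t / 2)) =
          (‖w2‖ * Real.sin w2.arg) * Real.sin (t / 2) +
          (‖w2‖ * Real.cos w2.arg) * Real.cos (t / 2) := by ring
      rw [this, e1, e2, h2im, h2re, hst, hct]
      linear_combination (-(2 : ℝ) * r * Real.cos (t / 2)) * hsc
    have habs : |w2.arg| < Real.pi / 2 := by
      rw [Complex.abs_arg_lt_pi_div_two_iff]
      exact Or.inl h2pos
    have h3 : Real.sin (w2.arg + (Real.pi - t) / 2) < 0 := by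
      apply Real.sin_neg_of_neg_of_neg_pi_lt
      · linarith
      · have := (abs_lt.1 habs).1
        linarith
    have hn : 0 < ‖w2‖ := norm_pos_iff.2 (fun h => by rw [h] at h2pos; simp at h2pos)
    have h4 : ‖w2‖ * Real.sin (w2.arg + (Real.pi - t) / 2) < 0 := mul_neg_of_pos_of_neg hn h3
    rw [e3] at h4
    nlinarith

end Pool.Agent.Helper859.SP.V1
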