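import Pool.Agent.Helper859.SP.Defs
set_option linter.all false
open Complex MeasureTheory Set Filter Topology Metric

namespace Pool.Agent.Helper859.SP.V2
open Pool.Agent.Helper859.SP

theorem P_pos_arctan_neg (z : ℂ) (hz : ‖z‖ < 1) : Complex.arctan (-z) = -Complex.arctan z := by
  have h1 : (1 : ℂ) + z * I ≠ 0 := by
    intro h
    have h2 : z * I = -1 := by linear_combination h
    have h3 : ‖z * I‖ = 1 := by rw [h2]; simp
    rw [norm_mul, Complex.norm_I, mul_one] at h3
    linarith
  have h2 : (1 : ℂ) - z * I ≠ 0 := by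
    intro h
    have h2 : z * I = 1 := by linear_combination -h
    have h3 : ‖z * I‖ = 1 := by rw [h2]; simp
    rw [norm_mul, Complex.norm_I, mul_one] at h3
    linarith
  unfold Complex.arctan
  have h3 : (1 + -z * I) / (1 - -z * I) = ((1 + z * I) / (1 - z * I))⁻¹ := by
    rw [inv_div]
    congr 1 <;> ring
  rw [h3, Complex.log_inv]
  · ring
  · intro harg
    -- the quotient would be negative real
    have h4 : 0 < ((1 + z * I) / (1 - z * I)).re := by
      rw [Complex.div_re]
      have hD : 0 < Complex.normSq (1 - z * I) := Complex.normSq_pos.mpr h2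
      rw [← add_div]
      apply div_pos _ hD
      have h5 : z.re ^ 2 + z.im ^ 2 < 1 := by
        have h6 : ‖z‖ ^ 2 < 1 := by
          have := norm_nonneg z
          nlinarith
        rw [Complex.sq_norm, Complex.normSq_apply] at h6
        nlinarith
      simp
      nlinarith
    have h5 := Complex.arg_eq_pi_iff.mp harg
    linarith [h5.1]

theorem P_pos
    (hp : ∀ z : ℂ, ‖z‖ < 1 → 0 ≤ z.im → 0 ≤ (Complex.arctan z).im)
    (ha : ∀ z : ℂ, ‖z‖ < 1 → 0 ≤ z.re → 0 ≤ (Complex.arctan z).re ∧ (Complex.arctan z).re ≤ Real.pi / 4)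
    (hb : ∀ z : ℂ, ‖z‖ < 1 → z.re ≤ 0 → (Complex.arctan z).re ≤ 0 ∧ -(Real.pi / 4) ≤ (Complex.arctan z).re)
    (z : ℂ) (hz : ‖z‖ < 1) (h0 : z ≠ 0) :
    0 < ((1 - z) ^ 2 * (1 / (1 + z) + 2 / (1 - z) + (2 / (Real.pi : ℂ)) * (Complex.arctan z / z))).re := by
  have hpi := Real.pi_pos
  have h1 : (1 : ℂ) + z ≠ 0 := by
    intro h
    have h2 : z = -1 := by linear_combination h
    rw [h2] at hz
    simp at hz
  have h2 : (1 : ℂ) - z ≠ 0 := by
    intro h
    have h2 : z = 1 := by linear_combination -h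
    rw [h2] at hz
    simp at hz
  set w := Complex.arctan z with hw
  set q : ℂ := 2 - z - z⁻¹ with hq
  have hc : (2 / (Real.pi : ℂ)) = ((2 / Real.pi : ℝ) : ℂ) := by push_cast; rfl
  have hid : (1 - z) ^ 2 * (1 / (1 + z) + 2 / (1 - z) + (2 / (Real.pi : ℂ)) * (w / z)) =
      2 * ((1 - z) / (1 + z)) + (1 - z) - ((2 / Real.pi : ℝ) : ℂ) * (q * w) := by
    rw [hc, hq]
    generalize ((2 / Real.pi : ℝ) : ℂ) = c
    field_simp
    ring
  rw [hid]
  -- the norm
  set N := Complex.normSq z with hN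
  have hN0 : 0 < N := Complex.normSq_pos.mpr h0
  have hNe : N = z.re ^ 2 + z.im ^ 2 := by
    rw [hN, Complex.normSq_apply]; ring
  have hN1 : N < 1 := by
    have h6 : ‖z‖ ^ 2 < 1 := by
      have := norm_nonneg z
      nlinarith
    rwa [Complex.sq_norm] at h6
  have hNinv : 1 < N⁻¹ := (one_lt_inv₀ hN0).mpr hN1
  have hqre : q.re = 2 - z.re - z.re * N⁻¹ := by
    rw [hq]
    simp [Complex.inv_re, div_eq_mul_inv, hN]
  have hqim : q.im = -z.im + z.im * N⁻¹ := by
    rw [hq]
    simp [Complex.inv_im, div_eq_mul_inv, hN]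
  have hre1 : 0 < ((1 - z) / (1 + z)).re := by
    rw [Complex.div_re]
    have hD : 0 < Complex.normSq (1 + z) := Complex.normSq_pos.mpr h1
    rw [← add_div]
    apply div_pos _ hD
    simp
    nlinarith
  have hBq : 0 ≤ q.im * w.im := by
    rw [hqim]
    rcases le_or_gt 0 z.im with h | h
    · have h3 := hp z hz h
      apply mul_nonneg _ h3
      nlinarith
    · have h3 := hp (-z) (by rwa [norm_neg]) (by simp; linarith)
      rw [P_pos_arctan_neg z hz, Complex.neg_im] at h3
      have h4 : -z.im + z.im * N⁻¹ ≤ 0 := by nlinarith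
      have h5 : w.im ≤ 0 := by linarith
      exact mul_nonneg_of_nonpos_of_nonpos h4 h5
  have hx1 : z.re < 1 := lt_of_le_of_lt ((le_abs_self _).trans (Complex.abs_re_le_norm z)) hz
  have hAq : (2 / Real.pi) * (q.re * w.re) ≤ 1 - z.re := by
    rcases le_or_gt 0 z.re with h | h
    · obtain ⟨h3, h4⟩ := ha z hz h
      rcases le_or_gt q.re 0 with h5 | h5
      · have h6 : q.re * w.re ≤ 0 := mul_nonpos_of_nonpos_of_nonneg h5 h3
        have h7 : (2 / Real.pi) * (q.re * w.re) ≤ 0 :=
          mul_nonpos_of_nonneg_of_nonpos (by positivity) h6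
        linarith
      · have h6 : q.re * w.re ≤ q.re * (Real.pi / 4) := mul_le_mul_of_nonneg_left h4 h5.le
        have h7 : (2 / Real.pi) * (q.re * w.re) ≤ (2 / Real.pi) * (q.re * (Real.pi / 4)) :=
          mul_le_mul_of_nonneg_left h6 (by positivity)
        have h8 : (2 / Real.pi) * (q.re * (Real.pi / 4)) = q.re / 2 := by
          field_simp
          ring
        rw [h8] at h7
        rw [hqre] at h7 ⊢
        nlinarith
    · obtain ⟨h3, h4⟩ := hb z hz h.le
      have h5 : 0 < q.re := by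
        rw [hqre]
        nlinarith
      have h6 : q.re * w.re ≤ 0 := mul_nonpos_of_nonneg_of_nonpos h5.le h3
      have h7 : (2 / Real.pi) * (q.re * w.re) ≤ 0 :=
        mul_nonpos_of_nonneg_of_nonpos (by positivity) h6
      linarith
  have hBq' : 0 ≤ (2 / Real.pi) * (q.im * w.im) := mul_nonneg (by positivity) hBq
  have hfin : (2 * ((1 - z) / (1 + z)) + (1 - z) - ((2 / Real.pi : ℝ) : ℂ) * (q * w)).re =
      2 * ((1 - z) / (1 + z)).re + (1 - z.re) - (2 / Real.pi) * (q.re * w.re - q.im * w.im) := by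
    rw [Complex.sub_re, Complex.add_re, Complex.re_ofReal_mul, Complex.mul_re q w,
      Complex.sub_re, Complex.one_re]
    congr 2
    simp
  rw [hfin]
  have : (2 / Real.pi) * (q.re * w.re - q.im * w.im) =
      (2 / Real.pi) * (q.re * w.re) - (2 / Real.pi) * (q.im * w.im) := by ring
  rw [this]
  linarith

end Pool.Agent.Helper859.SP.V2
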