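import Pool.Agent.Helper859.SP.Defs
set_option linter.all false
open Complex MeasureTheory Set Filter Topology Metric

namespace Pool.Agent.Helper859.SP.V3
open Pool.Agent.Helper859.SP

theorem ic_half (v : ℂ) : 1 / 2 < v.re ↔ ‖v - 1‖ ^ 2 < ‖v‖ ^ 2 := by
  rw [← Complex.normSq_eq_norm_sq, ← Complex.normSq_eq_norm_sq, Complex.normSq_apply,
    Complex.normSq_apply]
  simp only [Complex.sub_re, Complex.sub_im, Complex.one_re, Complex.one_im]
  constructor <;> intro h <;> nlinarith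

theorem ic_mem (v : ℂ) (hv : 1 / 2 < v.re) : v ≠ 0 ∧ 1 - v⁻¹ ∈ ball (0:ℂ) 1 := by
  have h0 : v ≠ 0 := by
    rintro rfl
    norm_num at hv
  refine ⟨h0, ?_⟩
  have h1 := (ic_half v).1 hv
  have h2 : ‖v - 1‖ < ‖v‖ := lt_of_pow_lt_pow_left₀ 2 (norm_nonneg _) h1
  rw [mem_ball_zero_iff]
  have h3 : 1 - v⁻¹ = (v - 1) / v := by field_simp
  rw [h3, norm_div, div_lt_one (norm_pos_iff.2 h0)]
  exact h2

theorem ic_inv (z : ℂ) (hz : z ∈ ball (0:ℂ) 1) :
    1 / 2 < ((1 - z)⁻¹).re ∧ 1 - ((1 - z)⁻¹)⁻¹ = z := by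
  rw [mem_ball_zero_iff] at hz
  have h0 : 1 - z ≠ 0 := by
    intro h
    have : z = 1 := (sub_eq_zero.1 h).symm
    rw [this, norm_one] at hz
    exact lt_irrefl _ hz
  refine ⟨?_, by rw [inv_inv]; ring⟩
  rw [ic_half]
  have h1 : (1 - z)⁻¹ - 1 = z * (1 - z)⁻¹ := by field_simp; ring
  rw [h1, norm_mul, mul_pow]
  have h2 : 0 < ‖(1 - z)⁻¹‖ := norm_pos_iff.2 (inv_ne_zero h0)
  have h3 : ‖z‖ ^ 2 < 1 := by nlinarith [norm_nonneg z]
  nlinarith [pow_pos h2 2]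

theorem inj_crit (g : ℂ → ℂ) (hg : DifferentiableOn ℂ g (ball (0:ℂ) 1))
    (hp : ∀ z ∈ ball (0:ℂ) 1, 0 < ((1 - z) ^ 2 * deriv g z).re) : InjOn g (ball (0:ℂ) 1) := by
  intro z1 hz1 z2 hz2 he
  by_contra hne
  obtain ⟨r1, e1⟩ := ic_inv z1 hz1
  obtain ⟨r2, e2⟩ := ic_inv z2 hz2
  set v1 := (1 - z1)⁻¹ with hv1
  set v2 := (1 - z2)⁻¹ with hv2
  have hd : v2 - v1 ≠ 0 := by
    intro h
    apply hne
    rw [← e1, ← e2, sub_eq_zero.1 h]
  set v : ℝ → ℂ := fun s => v1 + (s : ℂ) * (v2 - v1) with hv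
  have hre : ∀ s ∈ Icc (0:ℝ) 1, 1 / 2 < (v s).re := by
    intro s hs
    have h1 : (v s).re = (1 - s) * v1.re + s * v2.re := by
      simp only [hv, Complex.add_re, Complex.re_ofReal_mul, Complex.sub_re]; ring
    rw [h1]
    rcases hs.1.eq_or_lt with h | h
    · rw [← h]; linarith
    · nlinarith [hs.2, mul_pos h (sub_pos.2 r2), mul_nonneg (sub_nonneg.2 hs.2) (sub_pos.2 r1).le]
  have hder : ∀ s ∈ Icc (0:ℝ) 1, HasDerivAt (fun s : ℝ => (g (1 - (v s)⁻¹) / (v2 - v1)).re)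
      (((1 - (1 - (v s)⁻¹)) ^ 2 * deriv g (1 - (v s)⁻¹)).re) s := by
    intro s hs
    obtain ⟨h0, hmem⟩ := ic_mem (v s) (hre s hs)
    have hv' : HasDerivAt v (v2 - v1) s := by
      have h1 : HasDerivAt (fun s : ℝ => (s : ℂ)) 1 s := Complex.ofRealCLM.hasDerivAt
      have h2 := (h1.mul_const (v2 - v1)).const_add v1
      rw [one_mul] at h2
      exact h2
    have hz' : HasDerivAt (fun s : ℝ => 1 - (v s)⁻¹) (-(-(v2 - v1) / (v s) ^ 2)) s :=
      (hv'.inv h0).const_sub 1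
    have hgd : HasDerivAt g (deriv g (1 - (v s)⁻¹)) (1 - (v s)⁻¹) :=
      ((hg _ hmem).differentiableAt (isOpen_ball.mem_nhds hmem)).hasDerivAt
    have hc := hgd.comp s hz'
    have hc2 := hc.div_const (v2 - v1)
    have hc3 := (Complex.reCLM.hasFDerivAt (x := g (1 - (v s)⁻¹) / (v2 - v1))).comp_hasDerivAt s hc2
    refine hc3.congr_deriv ?_
    show (deriv g (1 - (v s)⁻¹) * (-(-(v2 - v1) / (v s) ^ 2)) / (v2 - v1)).re = _
    congr 1
    field_simp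
    ring
  have hmono : StrictMonoOn (fun s : ℝ => (g (1 - (v s)⁻¹) / (v2 - v1)).re) (Icc 0 1) := by
    refine strictMonoOn_of_deriv_pos (convex_Icc 0 1) ?_ ?_
    · intro s hs
      exact (hder s hs).continuousAt.continuousWithinAt
    · intro s hs
      rw [interior_Icc] at hs
      have hs' := Ioo_subset_Icc_self hs
      rw [(hder s hs').deriv]
      exact hp _ (ic_mem (v s) (hre s hs')).2
  have h := hmono (left_mem_Icc.2 zero_le_one) (right_mem_Icc.2 zero_le_one) zero_lt_one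
  have hv0 : v 0 = v1 := by simp [hv]
  have hv1' : v 1 = v2 := by simp [hv]
  simp only [hv0, hv1', e1, e2, he] at h
  exact lt_irrefl _ h

end Pool.Agent.Helper859.SP.V3
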