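import Pool.Agent.Helper859.SP.Defs
set_option linter.all false
open Complex MeasureTheory Set Filter Topology Metric

namespace Pool.Agent.Helper859.SP.V4
open Pool.Agent.Helper859.SP

theorem w_core (z : ℂ) (T : ℝ) (hT : (Ti2 z).im = T)
    (h1 : 0 ≤ arg (1 + z)) (h2 : arg (1 - z) ≤ 0) (h3 : 0 ≤ T)
    (h4 : arg (1 + z) - 2 * arg (1 - z) + (2 / Real.pi) * T < Real.pi)
    (h5 : arg (1 + z) + (2 / Real.pi) * T < Real.pi / 2) (h6 : 1 + z ≠ 0) :
    |(Complex.log (1 + z) - 2 * Complex.log (1 - z) + (2 / (Real.pi : ℂ)) * Ti2 z).im| < Real.pi ∧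
    0 < ((1 + z) * exp ((2 / (Real.pi : ℂ)) * Ti2 z)).re := by
  have hpi := Real.pi_pos
  have e1 : (2 / (Real.pi : ℂ)) = ((2 / Real.pi : ℝ) : ℂ) := by push_cast; rfl
  have e2 : (2 : ℂ) = ((2 : ℝ) : ℂ) := by push_cast; rfl
  have him : ((2 / (Real.pi : ℂ)) * Ti2 z).im = (2 / Real.pi) * T := by
    rw [e1, im_ofReal_mul, hT]
  have hb : 0 ≤ (2 / Real.pi) * T := by positivity
  constructor
  · rw [add_im, him, sub_im, log_im]
    have e3 : (2 * Complex.log (1 - z)).im = 2 * arg (1 - z) := by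
      rw [e2, im_ofReal_mul, log_im]
    rw [e3, abs_lt]
    constructor <;> linarith
  · have e4 : (1 + z) * exp ((2 / (Real.pi : ℂ)) * Ti2 z) =
        (‖1 + z‖ : ℂ) * exp (arg (1 + z) * I + (2 / (Real.pi : ℂ)) * Ti2 z) := by
      rw [Complex.exp_add, ← mul_assoc, norm_mul_exp_arg_mul_I]
    rw [e4, re_ofReal_mul, exp_re]
    have e5 : (((arg (1 + z) : ℝ) : ℂ) * I + (2 / (Real.pi : ℂ)) * Ti2 z).im =
        arg (1 + z) + (2 / Real.pi) * T := by
      rw [add_im, him]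
      simp
    rw [e5]
    have h7 : 0 < ‖1 + z‖ := norm_pos_iff.2 h6
    have h8 : 0 < Real.cos (arg (1 + z) + (2 / Real.pi) * T) :=
      Real.cos_pos_of_mem_Ioo ⟨by linarith, h5⟩
    positivity

theorem w_upper
    (harg : ∀ (r t : ℝ), 0 ≤ r → r < 1 → 0 < t → t ≤ Real.pi →
      0 ≤ arg (1 + r * exp (t * I)) ∧ arg (1 + r * exp (t * I)) < t / 2 ∧
      arg (1 - r * exp (t * I)) ≤ 0 ∧ -((Real.pi - t) / 2) ≤ arg (1 - r * exp (t * I)))
    (hT : ∀ (r t : ℝ), 0 ≤ r → r ≤ 1 → 0 ≤ t → t ≤ Real.pi →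
      0 ≤ (Ti2 (r * exp (t * I))).im ∧ (Ti2 (r * exp (t * I))).im ≤ (Ti2 (exp (t * I))).im)
    (h1 : ∀ t : ℝ, 0 ≤ t → t ≤ Real.pi / 2 → (Ti2 (exp (t * I))).im = Real.pi / 4 * t)
    (h2 : ∀ t : ℝ, Real.pi / 2 ≤ t → t ≤ Real.pi → (Ti2 (exp (t * I))).im = Real.pi / 4 * (Real.pi - t))
    (r t : ℝ) (hr0 : 0 ≤ r) (hr1 : r < 1) (ht0 : 0 ≤ t) (ht1 : t ≤ Real.pi)
    (hne : 1 + (r : ℂ) * exp (t * I) ≠ 0) :
    |(Complex.log (1 + r * exp (t * I)) - 2 * Complex.log (1 - r * exp (t * I)) +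
      (2 / (Real.pi : ℂ)) * Ti2 (r * exp (t * I))).im| < Real.pi ∧
    0 < ((1 + r * exp (t * I)) * exp ((2 / (Real.pi : ℂ)) * Ti2 (r * exp (t * I)))).re := by
  have hpi := Real.pi_pos
  obtain ⟨hT0, hT1⟩ := hT r t hr0 hr1.le ht0 ht1
  have hb1 : (Ti2 (exp (t * I))).im ≤ Real.pi / 4 * t := by
    rcases le_total t (Real.pi / 2) with h | h
    · exact (h1 t ht0 h).le
    · rw [h2 t h ht1]
      have : Real.pi - t ≤ t := by linarith
      exact mul_le_mul_of_nonneg_left this (by positivity)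
  have hb2 : (Ti2 (exp (t * I))).im ≤ Real.pi / 4 * (Real.pi - t) := by
    rcases le_total t (Real.pi / 2) with h | h
    · rw [h1 t ht0 h]
      have : t ≤ Real.pi - t := by linarith
      exact mul_le_mul_of_nonneg_left this (by positivity)
    · exact (h2 t h ht1).le
  have hc1 : (2 / Real.pi) * (Ti2 (r * exp (t * I))).im ≤ t / 2 := by
    calc (2 / Real.pi) * (Ti2 (r * exp (t * I))).im ≤ (2 / Real.pi) * (Real.pi / 4 * t) :=
          mul_le_mul_of_nonneg_left (hT1.trans hb1) (by positivity)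
      _ = t / 2 := by field_simp; ring
  have hc2 : (2 / Real.pi) * (Ti2 (r * exp (t * I))).im ≤ (Real.pi - t) / 2 := by
    calc (2 / Real.pi) * (Ti2 (r * exp (t * I))).im ≤ (2 / Real.pi) * (Real.pi / 4 * (Real.pi - t)) :=
          mul_le_mul_of_nonneg_left (hT1.trans hb2) (by positivity)
      _ = (Real.pi - t) / 2 := by field_simp; ring
  rcases ht0.eq_or_lt with h0 | h0
  · subst h0
    have e1 : (r : ℂ) * exp (((0 : ℝ) : ℂ) * I) = (r : ℂ) := by simp
    rw [e1] at hT0 hc1 hc2 hne ⊢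
    have a1 : arg (1 + (r : ℂ)) = 0 := by
      have : (1 + (r : ℂ)) = ((1 + r : ℝ) : ℂ) := by push_cast; rfl
      rw [this]
      exact arg_ofReal_of_nonneg (by linarith)
    have a2 : arg (1 - (r : ℂ)) = 0 := by
      have : (1 - (r : ℂ)) = ((1 - r : ℝ) : ℂ) := by push_cast; rfl
      rw [this]
      exact arg_ofReal_of_nonneg (by linarith)
    refine w_core _ _ rfl a1.ge a2.le hT0 ?_ ?_ hne
    · rw [a1, a2]
      linarith
    · rw [a1]
      linarith
  · obtain ⟨g1, g2, g3, g4⟩ := harg r t hr0 hr1 h0 ht1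
    refine w_core _ _ rfl g1 g3 hT0 ?_ ?_ hne
    · linarith
    · linarith

theorem H_im_bd
    (hconj : ∀ z : ℂ, Ti2 (starRingEnd ℂ z) = starRingEnd ℂ (Ti2 z))
    (harg : ∀ (r t : ℝ), 0 ≤ r → r < 1 → 0 < t → t ≤ Real.pi →
      0 ≤ arg (1 + r * exp (t * I)) ∧ arg (1 + r * exp (t * I)) < t / 2 ∧
      arg (1 - r * exp (t * I)) ≤ 0 ∧ -((Real.pi - t) / 2) ≤ arg (1 - r * exp (t * I)))
    (hT : ∀ (r t : ℝ), 0 ≤ r → r ≤ 1 → 0 ≤ t → t ≤ Real.pi →
      0 ≤ (Ti2 (r * exp (t * I))).im ∧ (Ti2 (r * exp (t * I))).im ≤ (Ti2 (exp (t * I))).im)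
    (h1 : ∀ t : ℝ, 0 ≤ t → t ≤ Real.pi / 2 → (Ti2 (exp (t * I))).im = Real.pi / 4 * t)
    (h2 : ∀ t : ℝ, Real.pi / 2 ≤ t → t ≤ Real.pi → (Ti2 (exp (t * I))).im = Real.pi / 4 * (Real.pi - t))
    (z : ℂ) (hz : z ∈ ball (0:ℂ) 1) :
    |(Complex.log (1 + z) - 2 * Complex.log (1 - z) + (2 / (Real.pi : ℂ)) * Ti2 z).im| < Real.pi ∧
    0 < ((1 + z) * exp ((2 / (Real.pi : ℂ)) * Ti2 z)).re := by
  have hz' : ‖z‖ < 1 := by simpa using hz
  have hne : ∀ w : ℂ, ‖w‖ < 1 → 1 + w ≠ 0 := by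
    intro w hw h
    have h3 : w = -1 := by linear_combination h
    rw [h3] at hw
    simp at hw
  have hup : ∀ w : ℂ, ‖w‖ < 1 → 0 ≤ w.im →
      |(Complex.log (1 + w) - 2 * Complex.log (1 - w) + (2 / (Real.pi : ℂ)) * Ti2 w).im| < Real.pi ∧
      0 < ((1 + w) * exp ((2 / (Real.pi : ℂ)) * Ti2 w)).re := by
    intro w hw him
    have e : ((‖w‖ : ℝ) : ℂ) * exp ((arg w : ℝ) * I) = w := norm_mul_exp_arg_mul_I w
    have h3 := w_upper harg hT h1 h2 ‖w‖ (arg w) (norm_nonneg _) hw (arg_nonneg_iff.2 him)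
      (arg_le_pi w) (by rw [e]; exact hne w hw)
    rw [e] at h3
    exact h3
  rcases le_total 0 z.im with him | him
  · exact hup z hz' him
  · have hc := hup (starRingEnd ℂ z) (by rw [Complex.norm_conj]; exact hz') (by simpa using him)
    have hre1 : 0 < (1 + z).re := by
      have := (abs_lt.1 ((abs_re_le_norm z).trans_lt hz')).1
      simp
      linarith
    have hre2 : 0 < (1 - z).re := by
      have := (abs_lt.1 ((abs_re_le_norm z).trans_lt hz')).2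
      simp
      linarith
    have harg1 : arg (1 + z) ≠ Real.pi := by
      intro h
      have := (arg_eq_pi_iff.1 h).1
      linarith
    have harg2 : arg (1 - z) ≠ Real.pi := by
      intro h
      have := (arg_eq_pi_iff.1 h).1
      linarith
    have e1 : Complex.log (1 + starRingEnd ℂ z) = starRingEnd ℂ (Complex.log (1 + z)) := by
      rw [← log_conj _ harg1]
      simp
    have e2 : Complex.log (1 - starRingEnd ℂ z) = starRingEnd ℂ (Complex.log (1 - z)) := by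
      rw [← log_conj _ harg2]
      simp
    have e3 : Complex.log (1 + starRingEnd ℂ z) - 2 * Complex.log (1 - starRingEnd ℂ z) +
        (2 / (Real.pi : ℂ)) * Ti2 (starRingEnd ℂ z) =
        starRingEnd ℂ (Complex.log (1 + z) - 2 * Complex.log (1 - z) +
          (2 / (Real.pi : ℂ)) * Ti2 z) := by
      rw [e1, e2, hconj]
      simp only [map_add, map_sub, map_mul, map_div₀, map_ofNat, conj_ofReal]
    have e4 : (1 + starRingEnd ℂ z) * exp ((2 / (Real.pi : ℂ)) * Ti2 (starRingEnd ℂ z)) =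
        starRingEnd ℂ ((1 + z) * exp ((2 / (Real.pi : ℂ)) * Ti2 z)) := by
      rw [map_mul, ← exp_conj, hconj]
      simp only [map_add, map_mul, map_div₀, map_ofNat, conj_ofReal, map_one]
    rw [e3, e4, conj_im, conj_re, abs_neg] at hc
    exact hc

end Pool.Agent.Helper859.SP.V4
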