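import Pool.Agent.Helper859.SP.Defs
set_option linter.all false
open Complex MeasureTheory Set Filter Topology Metric

namespace Pool.Agent.Helper859.SP.V5
open Pool.Agent.Helper859.SP

/-- the logarithm of the derivative -/
noncomputable def Hf (z : ℂ) : ℂ :=
  Complex.log (1 + z) - 2 * Complex.log (1 - z) + (2 / (Real.pi : ℂ)) * Ti2 z

/-- the derivative -/
noncomputable def Gf (z : ℂ) : ℂ := (1 + z) / (1 - z) ^ 2 * exp ((2 / (Real.pi : ℂ)) * Ti2 z)

theorem v5_re {z : ℂ} (hz : z ∈ ball (0:ℂ) 1) : |z.re| < 1 := by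
  rw [mem_ball_zero_iff] at hz
  exact lt_of_le_of_lt (Complex.abs_re_le_norm z) hz

theorem v5_p {z : ℂ} (hz : z ∈ ball (0:ℂ) 1) : 1 + z ∈ slitPlane := by
  have := abs_lt.mp (v5_re hz)
  left
  rw [add_re, one_re]
  linarith

theorem v5_m {z : ℂ} (hz : z ∈ ball (0:ℂ) 1) : 1 - z ∈ slitPlane := by
  have := abs_lt.mp (v5_re hz)
  left
  rw [sub_re, one_re]
  linarith

theorem v5_exp {z : ℂ} (hz : z ∈ ball (0:ℂ) 1) : Gf z = exp (Hf z) := by
  have h1 : (1 + z) ≠ 0 := slitPlane_ne_zero (v5_p hz)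
  have h2 : (1 - z) ≠ 0 := slitPlane_ne_zero (v5_m hz)
  unfold Gf Hf
  rw [exp_add, exp_sub, Complex.exp_log h1, two_mul (Complex.log (1 - z)), exp_add,
    Complex.exp_log h2, sq]

theorem v5_H {z d : ℂ} (hz : z ∈ ball (0:ℂ) 1) (hT : HasDerivAt Ti2 d z) :
    HasDerivAt Hf (1 / (1 + z) + 2 / (1 - z) + (2 / (Real.pi : ℂ)) * d) z := by
  have h1 : HasDerivAt (fun z : ℂ => Complex.log (1 + z)) (1 / (1 + z)) z :=
    ((hasDerivAt_id z).const_add 1).clog (v5_p hz)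
  have h2 : HasDerivAt (fun z : ℂ => Complex.log (1 - z)) (-1 / (1 - z)) z :=
    ((hasDerivAt_id z).const_sub 1).clog (v5_m hz)
  have h3 := (h1.sub (h2.const_mul 2)).add (hT.const_mul (2 / (Real.pi : ℂ)))
  refine h3.congr_deriv ?_
  ring

theorem sharp_fun
    (hd : ∀ z ∈ ball (0:ℂ) 1, z ≠ 0 → HasDerivAt Ti2 (Complex.arctan z / z) z)
    (hd0 : HasDerivAt Ti2 1 0) (h0 : Ti2 0 = 0)
    (hconj : ∀ z : ℂ, Ti2 (starRingEnd ℂ z) = starRingEnd ℂ (Ti2 z))
    (hP : ∀ z : ℂ, ‖z‖ < 1 → z ≠ 0 →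
      0 < ((1 - z) ^ 2 * (1 / (1 + z) + 2 / (1 - z) + (2 / (Real.pi : ℂ)) * (Complex.arctan z / z))).re)
    (hinj : ∀ (g : ℂ → ℂ), DifferentiableOn ℂ g (ball (0:ℂ) 1) →
      (∀ z ∈ ball (0:ℂ) 1, 0 < ((1 - z) ^ 2 * deriv g z).re) → InjOn g (ball (0:ℂ) 1))
    (hH : ∀ z ∈ ball (0:ℂ) 1, |(Complex.log (1 + z) - 2 * Complex.log (1 - z) + (2 / (Real.pi : ℂ)) * Ti2 z).im| < Real.pi ∧
      0 < ((1 + z) * exp ((2 / (Real.pi : ℂ)) * Ti2 z)).re) :
    ∃ F : ℂ → ℂ, InS' F ∧ (∀ z ∈ ball (0:ℂ) 1, F (starRingEnd ℂ z) = starRingEnd ℂ (F z)) ∧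
      deriv (deriv F) 0 = 3 + 2 / (Real.pi : ℂ) ∧ (∀ z ∈ ball (0:ℂ) 1, deriv F z = Gf z) := by
  have h0mem : (0:ℂ) ∈ ball (0:ℂ) 1 := mem_ball_self one_pos
  have hTi : ∀ z ∈ ball (0:ℂ) 1, ∃ d, HasDerivAt Ti2 d z := by
    intro z hz
    by_cases h : z = 0
    · rw [h]; exact ⟨1, hd0⟩
    · exact ⟨_, hd z hz h⟩
  have hH0 : HasDerivAt Hf (3 + 2 / (Real.pi : ℂ)) 0 := by
    refine (v5_H h0mem hd0).congr_deriv ?_
    norm_num
  have hHdiff : DifferentiableOn ℂ Hf (ball (0:ℂ) 1) := by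
    intro z hz
    obtain ⟨d, hd'⟩ := hTi z hz
    exact (v5_H hz hd').differentiableAt.differentiableWithinAt
  have hHinj : InjOn Hf (ball (0:ℂ) 1) := by
    apply hinj Hf hHdiff
    intro z hz
    by_cases h : z = 0
    · rw [h, hH0.deriv]
      have : ((1 - 0 : ℂ) ^ 2 * (3 + 2 / (Real.pi : ℂ))) = ((3 + 2 / Real.pi : ℝ) : ℂ) := by
        push_cast
        ring
      rw [this, ofReal_re]
      have := Real.pi_pos
      positivity
    · rw [(v5_H hz (hd z hz h)).deriv]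
      exact hP z (mem_ball_zero_iff.mp hz) h
  have hGdiff : DifferentiableOn ℂ Gf (ball (0:ℂ) 1) := by
    have h1 : DifferentiableOn ℂ (fun z => exp (Hf z)) (ball (0:ℂ) 1) := hHdiff.cexp
    exact h1.congr fun z hz => v5_exp hz
  obtain ⟨F, hF0, hF⟩ := hGdiff.isExactOn_ball.with_val_at 0 0
  have hFd : ∀ z ∈ ball (0:ℂ) 1, HasDerivAt F (Gf z) z := hF
  have hderiv : ∀ z ∈ ball (0:ℂ) 1, deriv F z = Gf z := fun z hz => (hFd z hz).deriv
  have hFdiff : DifferentiableOn ℂ F (ball (0:ℂ) 1) := fun z hz =>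
    (hFd z hz).differentiableAt.differentiableWithinAt
  have hG0 : Gf 0 = 1 := by
    unfold Gf
    rw [h0]
    simp
  refine ⟨F, ⟨hFdiff, ?_, hF0, ?_, ?_⟩, ?_, ?_, hderiv⟩
  · apply hinj F hFdiff
    intro z hz
    rw [hderiv z hz]
    have h2 : (1 - z) ≠ 0 := slitPlane_ne_zero (v5_m hz)
    have : (1 - z) ^ 2 * Gf z = (1 + z) * exp ((2 / (Real.pi : ℂ)) * Ti2 z) := by
      unfold Gf
      field_simp
    rw [this]
    exact (hH z hz).2
  · rw [hderiv 0 h0mem, hG0]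
  · intro z₁ hz₁ z₂ hz₂ he
    rw [hderiv z₁ hz₁, hderiv z₂ hz₂, v5_exp hz₁, v5_exp hz₂] at he
    obtain ⟨n, hn⟩ := Complex.exp_eq_exp_iff_exists_int.mp he
    apply hHinj hz₁ hz₂
    have b1 : |(Hf z₁).im| < Real.pi := (hH z₁ hz₁).1
    have b2 : |(Hf z₂).im| < Real.pi := (hH z₂ hz₂).1
    have him : (Hf z₁).im = (Hf z₂).im + n * (2 * Real.pi) := by
      rw [hn]
      simp
    have hpi := Real.pi_pos
    have hn0 : n = 0 := by
      have c1 := abs_lt.mp b1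
      have c2 := abs_lt.mp b2
      have l1 : (n : ℝ) < 1 := by
        by_contra hcon
        rw [not_lt] at hcon
        nlinarith
      have l2 : (-1 : ℝ) < n := by
        by_contra hcon
        rw [not_lt] at hcon
        nlinarith
      have l1' : n < 1 := by exact_mod_cast l1
      have l2' : -1 < n := by exact_mod_cast l2
      omega
    rw [hn, hn0]
    simp
  · intro z hz
    have hball : ∀ w : ℂ, w ∈ ball (0:ℂ) 1 → starRingEnd ℂ w ∈ ball (0:ℂ) 1 := by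
      intro w hw
      rw [mem_ball_zero_iff] at hw ⊢
      rwa [RCLike.norm_conj]
    have hGconj : ∀ w : ℂ, starRingEnd ℂ (Gf (starRingEnd ℂ w)) = Gf w := by
      intro w
      unfold Gf
      rw [hconj]
      simp only [map_mul, map_div₀, map_add, map_one, map_pow, map_sub, Complex.conj_conj,
        ← Complex.exp_conj, Complex.conj_ofReal, map_ofNat]
    have hK : ∀ w ∈ ball (0:ℂ) 1,
        HasDerivAt (fun w => starRingEnd ℂ (F (starRingEnd ℂ w))) (Gf w) w := by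
      intro w hw
      have h1 := (hFd _ (hball w hw)).conj_conj
      rw [Complex.conj_conj, hGconj] at h1
      exact h1
    have heq : EqOn (fun w => starRingEnd ℂ (F (starRingEnd ℂ w))) F (ball (0:ℂ) 1) := by
      refine isOpen_ball.eqOn_of_deriv_eq (convex_ball (0:ℂ) 1).isPreconnected ?_ hFdiff ?_ h0mem ?_
      · exact fun w hw => (hK w hw).differentiableAt.differentiableWithinAt
      · intro w hw
        rw [(hK w hw).deriv, hderiv w hw]
      · simp [hF0]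
    have h2 := heq hz
    simp only at h2
    rw [← h2, Complex.conj_conj]
  · have hev : deriv F =ᶠ[𝓝 0] fun z => exp (Hf z) := by
      filter_upwards [isOpen_ball.mem_nhds h0mem] with z hz
      rw [hderiv z hz, v5_exp hz]
    rw [hev.deriv_eq]
    have h1 := hH0.cexp
    rw [h1.deriv]
    have : exp (Hf 0) = 1 := by rw [← v5_exp h0mem, hG0]
    rw [this, one_mul]

end Pool.Agent.Helper859.SP.V5
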