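import Pool.Agent.Helper859.SP.Defs
set_option linter.all false
open Complex MeasureTheory Set Filter Topology Metric

namespace Pool.Agent.Helper859.SP.W1
open Pool.Agent.Helper859.SP

theorem b1_bound
    (harea : ∀ (h V P : ℂ → ℂ) (m : ℕ) (a : ℕ → ℂ) (r : ℝ), DifferentiableOn ℂ h (ball (0:ℂ) 1 \ {0}) →
      InjOn h (ball (0:ℂ) 1 \ {0}) → Tendsto h (𝓝[≠] 0) (Bornology.cobounded ℂ) → Differentiable ℂ V →
      DifferentiableOn ℂ P (ball 0 1) → (∀ z ∈ ball (0:ℂ) 1 \ {0}, V (h z) * z ^ m = P z) →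
      (∀ z ∈ ball (0:ℂ) 1, HasSum (fun j => a j * z ^ j) (P z)) → 0 < r → r < 1 →
      ∑' j : ℕ, ((j : ℝ) - m) * ‖a j‖ ^ 2 * r ^ (2 * j) ≤ 0)
    (f : ℂ → ℂ) (hf : DifferentiableOn ℂ f (ball (0:ℂ) 1)) (hi : InjOn f (ball (0:ℂ) 1)) (h0 : f 0 = 0) (h1 : deriv f 0 = 1) :
    ‖coeff 2 f ^ 2 - coeff 3 f‖ ≤ 1 := by
  have hball : ball (0:ℂ) 1 ∈ 𝓝 (0:ℂ) := ball_mem_nhds _ one_pos
  set g : ℂ → ℂ := dslope f 0 with hgdef
  have hg : DifferentiableOn ℂ g (ball (0:ℂ) 1) := (differentiableOn_dslope hball).2 hf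
  have hfg : ∀ z, f z = z * g z := by
    intro z
    have h := sub_smul_dslope f 0 z
    rw [h0, sub_zero, sub_zero, smul_eq_mul] at h
    exact h.symm
  have hg0 : g 0 = 1 := by rw [hgdef, dslope_same, h1]
  have hfne : ∀ z ∈ ball (0:ℂ) 1, z ≠ 0 → f z ≠ 0 := by
    intro z hz hz0 h
    apply hz0
    exact hi hz (mem_of_mem_nhds hball) (by rw [h, h0])
  have hgne : ∀ z ∈ ball (0:ℂ) 1, g z ≠ 0 := by
    intro z hz h
    by_cases hz0 : z = 0
    · rw [hz0, hg0] at h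
      exact one_ne_zero h
    · apply hfne z hz hz0
      rw [hfg, h, mul_zero]
  set P : ℂ → ℂ := fun z => (g z)⁻¹ with hPdef
  have hP : DifferentiableOn ℂ P (ball (0:ℂ) 1) := hg.inv hgne
  have hgA : ∀ n : ℕ, ContDiffAt ℂ n g 0 := fun n => (hg.analyticAt hball).contDiffAt
  have hPA : ∀ n : ℕ, ContDiffAt ℂ n P 0 := fun n => (hP.analyticAt hball).contDiffAt
  have hPg : ∀ n : ℕ, 0 < n → iteratedDeriv n (P * g) 0 = 0 := by
    intro n hn
    have h2 : (P * g) =ᶠ[𝓝 0] fun _ => (1 : ℂ) := by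
      filter_upwards [hball] with z hz
      simp only [Pi.mul_apply, hPdef]
      exact inv_mul_cancel₀ (hgne z hz)
    rw [h2.iteratedDeriv_eq, iteratedDeriv_const]
    simp [hn.ne']
  have hP0 : P 0 = 1 := by simp [hPdef, hg0]
  have e1 := hPg 1 one_pos
  have e2 := hPg 2 two_pos
  rw [iteratedDeriv_mul (hPA 1) (hgA 1)] at e1
  rw [iteratedDeriv_mul (hPA 2) (hgA 2)] at e2
  simp only [Finset.sum_range_succ, Finset.sum_range_zero, iteratedDeriv_zero, hP0, hg0,
    Nat.choose_zero_right, Nat.choose_self, Nat.choose_one_right, Nat.cast_one, one_mul, mul_one,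
    zero_add, Nat.sub_zero, Nat.sub_self, Nat.cast_ofNat, Nat.reduceSub] at e1 e2
  have hfeq : f = (fun z => z) * g := by
    funext z
    exact hfg z
  have d2 : iteratedDeriv 2 f 0 = 2 * iteratedDeriv 1 g 0 := by
    rw [hfeq, iteratedDeriv_mul contDiffAt_fun_id (hgA 2)]
    simp only [Finset.sum_range_succ, Finset.sum_range_zero, iteratedDeriv_fun_id_zero]
    simp
  have d3 : iteratedDeriv 3 f 0 = 3 * iteratedDeriv 2 g 0 := by
    rw [hfeq, iteratedDeriv_mul contDiffAt_fun_id (hgA 3)]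
    simp only [Finset.sum_range_succ, Finset.sum_range_zero, iteratedDeriv_fun_id_zero]
    simp
  set a : ℕ → ℂ := fun j => ((j.factorial : ℂ))⁻¹ * iteratedDeriv j P 0 with hadef
  have hsum : ∀ z ∈ ball (0:ℂ) 1, HasSum (fun j => a j * z ^ j) (P z) := by
    intro z hz
    have h := hasSum_taylorSeries_on_ball hP hz
    have h' : (fun j => a j * z ^ j) = fun n : ℕ => ((n.factorial : ℂ))⁻¹ • (z - 0) ^ n • iteratedDeriv n P 0 := by
      funext j
      show ((j.factorial : ℂ))⁻¹ * iteratedDeriv j P 0 * z ^ j = _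
      rw [sub_zero, smul_eq_mul, smul_eq_mul]
      ring
    rw [h']
    exact h
  have ha0 : a 0 = 1 := by simp [hadef, hP0]
  have ha2 : a 2 = coeff 2 f ^ 2 - coeff 3 f := by
    have hP1 : iteratedDeriv 1 P 0 = - iteratedDeriv 1 g 0 := by linear_combination e1
    have hP2 : iteratedDeriv 2 P 0 = 2 * (iteratedDeriv 1 g 0) ^ 2 - iteratedDeriv 2 g 0 := by
      rw [hP1] at e2
      linear_combination e2
    simp only [hadef, coeff, hP2, d2, d3]
    norm_num [Nat.factorial]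
    ring
  have hh1 : DifferentiableOn ℂ (fun z => (f z)⁻¹) (ball (0:ℂ) 1 \ {0}) :=
    (hf.mono diff_subset).inv (fun z hz => hfne z hz.1 hz.2)
  have hh2 : InjOn (fun z => (f z)⁻¹) (ball (0:ℂ) 1 \ {0}) := by
    intro z hz w hw h
    exact hi hz.1 hw.1 (inv_injective h)
  have hh3 : Tendsto (fun z => (f z)⁻¹) (𝓝[≠] 0) (Bornology.cobounded ℂ) := by
    have hf0 : Tendsto f (𝓝[≠] 0) (𝓝[≠] 0) := by
      apply tendsto_nhdsWithin_iff.2
      constructor
      · have hc : ContinuousAt f 0 := (hf.differentiableAt hball).continuousAt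
        unfold ContinuousAt at hc
        rw [h0] at hc
        exact hc.mono_left nhdsWithin_le_nhds
      · filter_upwards [nhdsWithin_le_nhds hball, self_mem_nhdsWithin] with z hz hz0
        exact hfne z hz hz0
    exact tendsto_inv₀_nhdsNE_zero.comp hf0
  have key : ∀ r : ℝ, 0 < r → r < 1 → ‖a 2‖ * r ^ 2 ≤ 1 := by
    intro r hr0 hr1
    have hle := harea (fun z => (f z)⁻¹) id P 1 a r hh1 hh2 hh3 differentiable_id hP (by
      intro z hz
      simp only [id, pow_one, hPdef]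
      rw [hfg z, mul_inv]
      have hz0 : z ≠ 0 := hz.2
      field_simp) hsum hr0 hr1
    have hsq0 : 0 < Real.sqrt r := Real.sqrt_pos.2 hr0
    have hsq1 : Real.sqrt r < 1 := by
      rw [Real.sqrt_lt' one_pos]
      simpa using hr1
    have hmem : ((Real.sqrt r : ℝ) : ℂ) ∈ ball (0:ℂ) 1 := by
      rw [mem_ball_zero_iff, Complex.norm_real, Real.norm_of_nonneg hsq0.le]
      exact hsq1
    have hT : Tendsto (fun j => a j * ((Real.sqrt r : ℝ) : ℂ) ^ j) atTop (𝓝 0) :=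
      (hsum _ hmem).summable.tendsto_atTop_zero
    obtain ⟨C, hC⟩ := (hT.norm).bddAbove_range
    have hCb : ∀ j, ‖a j‖ * (Real.sqrt r) ^ j ≤ C := by
      intro j
      have h3 := hC (mem_range_self j)
      simp only [norm_mul, norm_pow, Complex.norm_real, Real.norm_of_nonneg hsq0.le] at h3
      exact h3
    have hsummable : Summable (fun j : ℕ => ((j : ℝ) - ((1 : ℕ) : ℝ)) * ‖a j‖ ^ 2 * r ^ (2 * j)) := by
      have hs1 : Summable (fun j : ℕ => C ^ 2 * ((j : ℝ) ^ 1 * r ^ j + r ^ j)) := by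
        apply Summable.mul_left
        apply Summable.add
        · exact summable_pow_mul_geometric_of_norm_lt_one 1 (by
            rw [Real.norm_of_nonneg hr0.le]; exact hr1)
        · exact summable_geometric_of_lt_one hr0.le hr1
      apply Summable.of_norm_bounded hs1
      intro j
      have h4 : ‖a j‖ ^ 2 * r ^ (2 * j) = (‖a j‖ * (Real.sqrt r) ^ j) ^ 2 * r ^ j := by
        have h5 : (Real.sqrt r) ^ 2 = r := Real.sq_sqrt hr0.le
        calc ‖a j‖ ^ 2 * r ^ (2 * j) = ‖a j‖ ^ 2 * (r ^ j * r ^ j) := by rw [← pow_add]; ring_nf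
          _ = ‖a j‖ ^ 2 * (((Real.sqrt r) ^ 2) ^ j * r ^ j) := by rw [h5]
          _ = _ := by rw [← pow_mul, mul_comm 2 j, pow_mul]; ring
      have h6 : (‖a j‖ * (Real.sqrt r) ^ j) ^ 2 ≤ C ^ 2 :=
        pow_le_pow_left₀ (by positivity) (hCb j) 2
      rw [mul_assoc, h4, Real.norm_eq_abs, abs_mul, abs_of_nonneg (a := _ ^ 2 * r ^ j) (by positivity)]
      have h7 : |(j : ℝ) - ((1 : ℕ) : ℝ)| ≤ (j : ℝ) + 1 := by
        rw [abs_le]
        constructor <;> push_cast <;> linarith [Nat.cast_nonneg (α := ℝ) j]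
      calc |(j : ℝ) - ((1 : ℕ) : ℝ)| * ((‖a j‖ * (Real.sqrt r) ^ j) ^ 2 * r ^ j)
          ≤ ((j : ℝ) + 1) * (C ^ 2 * r ^ j) := by
            apply mul_le_mul h7 (mul_le_mul_of_nonneg_right h6 (by positivity)) (by positivity)
              (by positivity)
        _ = C ^ 2 * ((j : ℝ) ^ 1 * r ^ j + r ^ j) := by ring
    have h8 := hsummable.sum_le_tsum (Finset.range 3) (by
      intro j hj
      have hj3 : 3 ≤ j := by simpa using hj
      have hj3' : (3 : ℝ) ≤ (j : ℝ) := by exact_mod_cast hj3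
      have : (0 : ℝ) ≤ (j : ℝ) - ((1 : ℕ) : ℝ) := by push_cast; linarith
      positivity)
    have h9 := h8.trans hle
    simp only [Finset.sum_range_succ, Finset.sum_range_zero, ha0] at h9
    norm_num at h9
    have h10 : (‖a 2‖ * r ^ 2) ^ 2 ≤ 1 := by
      have : (‖a 2‖ * r ^ 2) ^ 2 = ‖a 2‖ ^ 2 * r ^ 4 := by ring
      rw [this]
      linarith
    exact (sq_le_one_iff₀ (by positivity)).1 h10
  have hlim : Tendsto (fun r : ℝ => ‖a 2‖ * r ^ 2) (𝓝[<] 1) (𝓝 (‖a 2‖ * 1 ^ 2)) :=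
    ((continuous_const.mul (continuous_pow 2)).tendsto 1).mono_left nhdsWithin_le_nhds
  have hev : ∀ᶠ r in 𝓝[<] (1:ℝ), ‖a 2‖ * r ^ 2 ≤ 1 := by
    filter_upwards [Ioo_mem_nhdsLT (zero_lt_one' ℝ)] with r hr
    exact key r hr.1 hr.2
  have hfin := le_of_tendsto hlim hev
  rw [one_pow, mul_one, ha2] at hfin
  exact hfin

end Pool.Agent.Helper859.SP.W1
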