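import Pool.Agent.Helper859.SP.Defs
set_option linter.all false
open Complex MeasureTheory Set Filter Topology Metric

namespace Pool.Agent.Helper859.SP.W2
open Pool.Agent.Helper859.SP

theorem sqrt_aux (q : ℂ → ℂ) (hq : DifferentiableOn ℂ q (ball (0:ℂ) 1)) (hq0 : ∀ z ∈ ball (0:ℂ) 1, q z ≠ 0)
    (h1 : q 0 = 1) : ∃ s : ℂ → ℂ, DifferentiableOn ℂ s (ball (0:ℂ) 1) ∧ s 0 = 1 ∧ (∀ z ∈ ball (0:ℂ) 1, s z ^ 2 = q z) := by
  have hq' : DifferentiableOn ℂ (deriv q) (ball (0:ℂ) 1) := hq.deriv isOpen_ball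
  have hd : DifferentiableOn ℂ (fun z => deriv q z / q z) (ball (0:ℂ) 1) := hq'.div hq hq0
  obtain ⟨L, hL0, hL⟩ := hd.isExactOn_ball.with_val_at 0 0
  have hconst : ∀ z ∈ ball (0:ℂ) 1, q z * exp (-L z) = 1 := by
    have hD : ∀ z ∈ ball (0:ℂ) 1, HasDerivAt (fun z => q z * exp (-L z)) 0 z := by
      intro z hz
      have hqz : HasDerivAt q (deriv q z) z := (hq.differentiableAt (isOpen_ball.mem_nhds hz)).hasDerivAt
      have h3 : HasDerivAt (fun z => exp (-L z)) (exp (-L z) * (-(deriv q z / q z))) z :=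
        (hL z hz).neg.cexp
      have h2 := hqz.mul h3
      have h4 := hq0 z hz
      have h5 : deriv q z * exp (-L z) + q z * (exp (-L z) * (-(deriv q z / q z))) = 0 := by
        field_simp
        ring
      rw [h5] at h2
      exact h2
    intro z hz
    have h3 : (fun z => q z * exp (-L z)) z = (fun z => q z * exp (-L z)) 0 := by
      apply isOpen_ball.is_const_of_deriv_eq_zero (convex_ball (0:ℂ) 1).isPreconnected
        (fun w hw => (hD w hw).differentiableAt.differentiableWithinAt)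
        (fun w hw => (hD w hw).deriv) hz (mem_ball_self one_pos)
    have h4 : q z * exp (-L z) = q 0 * exp (-L 0) := h3
    rw [h4, h1, hL0]; simp
  refine ⟨fun z => exp (L z / 2), ?_, ?_, ?_⟩
  · intro z hz
    exact ((hL z hz).div_const 2).cexp.differentiableAt.differentiableWithinAt
  · simp [hL0]
  · intro z hz
    show exp (L z / 2) ^ 2 = q z
    rw [← Complex.exp_nat_mul]
    have h5 := hconst z hz
    have h6 : exp (-L z) ≠ 0 := exp_ne_zero _
    have h7 : exp (L z) * exp (-L z) = 1 := by rw [← exp_add]; simp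
    have h8 : exp (L z) = q z := mul_right_cancel₀ h6 (h7.trans h5.symm)
    rw [← h8]; congr 1; push_cast; ring

theorem coeff2_aux (q : ℂ → ℂ) (hq : DifferentiableOn ℂ q (ball (0:ℂ) 1)) :
    coeff 2 (fun z => z * q z) = deriv q 0 := by
  have hU : ∀ z ∈ ball (0:ℂ) 1, HasDerivAt q (deriv q z) z := fun z hz =>
    (hq.differentiableAt (isOpen_ball.mem_nhds hz)).hasDerivAt
  have hq' : DifferentiableOn ℂ (deriv q) (ball (0:ℂ) 1) := hq.deriv isOpen_ball
  have h0 : (0:ℂ) ∈ ball (0:ℂ) 1 := mem_ball_self one_pos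
  have e1 : deriv (fun z => z * q z) =ᶠ[𝓝 (0:ℂ)] fun z => q z + z * deriv q z := by
    filter_upwards [isOpen_ball.mem_nhds h0] with z hz
    have h : HasDerivAt (fun z => z * q z) (1 * q z + z * deriv q z) z :=
      (hasDerivAt_id z).mul (hU z hz)
    rw [h.deriv]; ring
  have e2 : deriv (deriv (fun z => z * q z)) 0 = deriv (fun z => q z + z * deriv q z) 0 := e1.deriv_eq
  have hq0' : HasDerivAt (deriv q) (deriv (deriv q) 0) 0 :=
    (hq'.differentiableAt (isOpen_ball.mem_nhds h0)).hasDerivAt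
  have e3 : deriv (fun z => q z + z * deriv q z) 0 = 2 * deriv q 0 := by
    have := ((hU 0 h0).add ((hasDerivAt_id (0:ℂ)).mul hq0')).deriv
    have h4 : deriv (fun z => q z + z * deriv q z) 0 = deriv q 0 + (1 * deriv q 0 + 0 * deriv (deriv q) 0) := this
    rw [h4]; ring
  unfold coeff
  rw [iteratedDeriv_succ, iteratedDeriv_one, e2, e3]
  simp [Nat.factorial]

theorem coeff3_aux (s : ℂ → ℂ) (hs : DifferentiableOn ℂ s (ball (0:ℂ) 1)) :
    coeff 2 (fun z => z * s (z ^ 2)) = 0 ∧ coeff 3 (fun z => z * s (z ^ 2)) = deriv s 0 := by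
  have hU : ∀ z ∈ ball (0:ℂ) 1, HasDerivAt s (deriv s z) z := fun z hz =>
    (hs.differentiableAt (isOpen_ball.mem_nhds hz)).hasDerivAt
  have hs' : DifferentiableOn ℂ (deriv s) (ball (0:ℂ) 1) := hs.deriv isOpen_ball
  have hU' : ∀ z ∈ ball (0:ℂ) 1, HasDerivAt (deriv s) (deriv (deriv s) z) z := fun z hz =>
    (hs'.differentiableAt (isOpen_ball.mem_nhds hz)).hasDerivAt
  have hs'' : DifferentiableOn ℂ (deriv (deriv s)) (ball (0:ℂ) 1) := hs'.deriv isOpen_ball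
  have hU'' : ∀ z ∈ ball (0:ℂ) 1, HasDerivAt (deriv (deriv s)) (deriv (deriv (deriv s)) z) z := fun z hz =>
    (hs''.differentiableAt (isOpen_ball.mem_nhds hz)).hasDerivAt
  have h0 : (0:ℂ) ∈ ball (0:ℂ) 1 := mem_ball_self one_pos
  have hsq : ∀ z ∈ ball (0:ℂ) 1, z ^ 2 ∈ ball (0:ℂ) 1 := by
    intro z hz
    rw [mem_ball_zero_iff] at hz ⊢
    rw [norm_pow]
    nlinarith [norm_nonneg z]
  have hp : ∀ z : ℂ, HasDerivAt (fun z : ℂ => z ^ 2) (2 * z) z := by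
    intro z
    have := hasDerivAt_pow 2 z
    simpa using this
  have c0 : ∀ z ∈ ball (0:ℂ) 1, HasDerivAt (fun z => s (z ^ 2)) (deriv s (z ^ 2) * (2 * z)) z :=
    fun z hz => (hU _ (hsq z hz)).comp z (hp z)
  have c1 : ∀ z ∈ ball (0:ℂ) 1, HasDerivAt (fun z => deriv s (z ^ 2)) (deriv (deriv s) (z ^ 2) * (2 * z)) z :=
    fun z hz => HasDerivAt.comp (h₂ := deriv s) (h := fun z => z ^ 2) z (hU' _ (hsq z hz)) (hp z)
  have c2 : ∀ z ∈ ball (0:ℂ) 1, HasDerivAt (fun z => deriv (deriv s) (z ^ 2))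
      (deriv (deriv (deriv s)) (z ^ 2) * (2 * z)) z :=
    fun z hz => HasDerivAt.comp (h₂ := deriv (deriv s)) (h := fun z => z ^ 2) z (hU'' _ (hsq z hz)) (hp z)
  have d1 : ∀ z ∈ ball (0:ℂ) 1, HasDerivAt (fun z => z * s (z ^ 2))
      (s (z ^ 2) + 2 * z ^ 2 * deriv s (z ^ 2)) z := by
    intro z hz
    have h : HasDerivAt (fun z => z * s (z ^ 2)) (1 * s (z ^ 2) + z * (deriv s (z ^ 2) * (2 * z))) z :=
      (hasDerivAt_id z).mul (c0 z hz)
    have e : 1 * s (z ^ 2) + z * (deriv s (z ^ 2) * (2 * z)) = s (z ^ 2) + 2 * z ^ 2 * deriv s (z ^ 2) := by ring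
    rw [e] at h; exact h
  have d2 : ∀ z ∈ ball (0:ℂ) 1, HasDerivAt (fun z => s (z ^ 2) + 2 * z ^ 2 * deriv s (z ^ 2))
      (6 * z * deriv s (z ^ 2) + 4 * z ^ 3 * deriv (deriv s) (z ^ 2)) z := by
    intro z hz
    have h : HasDerivAt (fun z => s (z ^ 2) + 2 * z ^ 2 * deriv s (z ^ 2))
        (deriv s (z ^ 2) * (2 * z) + (2 * (2 * z) * deriv s (z ^ 2) +
          2 * z ^ 2 * (deriv (deriv s) (z ^ 2) * (2 * z)))) z :=
      (c0 z hz).add (((hp z).const_mul 2).mul (c1 z hz))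
    have e : deriv s (z ^ 2) * (2 * z) + (2 * (2 * z) * deriv s (z ^ 2) +
          2 * z ^ 2 * (deriv (deriv s) (z ^ 2) * (2 * z))) =
        6 * z * deriv s (z ^ 2) + 4 * z ^ 3 * deriv (deriv s) (z ^ 2) := by ring
    rw [e] at h; exact h
  have d3 : HasDerivAt (fun z => 6 * z * deriv s (z ^ 2) + 4 * z ^ 3 * deriv (deriv s) (z ^ 2))
      (6 * deriv s 0) (0:ℂ) := by
    have a1 : HasDerivAt (fun z : ℂ => 6 * z) 6 0 := by
      simpa using (hasDerivAt_id (0:ℂ)).const_mul 6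
    have a2 : HasDerivAt (fun z : ℂ => 4 * z ^ 3) (4 * (3 * 0 ^ 2)) (0:ℂ) := by
      have := (hasDerivAt_pow 3 (0:ℂ)).const_mul 4
      simpa using this
    have h : HasDerivAt (fun z => 6 * z * deriv s (z ^ 2) + 4 * z ^ 3 * deriv (deriv s) (z ^ 2))
        ((6 * deriv s ((0:ℂ) ^ 2) + 6 * 0 * (deriv (deriv s) ((0:ℂ) ^ 2) * (2 * 0))) +
         (4 * (3 * 0 ^ 2) * deriv (deriv s) ((0:ℂ) ^ 2) +
          4 * (0:ℂ) ^ 3 * (deriv (deriv (deriv s)) ((0:ℂ) ^ 2) * (2 * 0)))) (0:ℂ) :=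
      (a1.mul (c1 0 h0)).add (a2.mul (c2 0 h0))
    simpa using h
  have e1 : deriv (fun z => z * s (z ^ 2)) =ᶠ[𝓝 (0:ℂ)] fun z => s (z ^ 2) + 2 * z ^ 2 * deriv s (z ^ 2) := by
    filter_upwards [isOpen_ball.mem_nhds h0] with z hz
    exact (d1 z hz).deriv
  have e2 : deriv (deriv (fun z => z * s (z ^ 2))) =ᶠ[𝓝 (0:ℂ)]
      fun z => 6 * z * deriv s (z ^ 2) + 4 * z ^ 3 * deriv (deriv s) (z ^ 2) := by
    refine e1.deriv.trans ?_
    filter_upwards [isOpen_ball.mem_nhds h0] with z hz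
    exact (d2 z hz).deriv
  have e3 : deriv (deriv (deriv (fun z => z * s (z ^ 2)))) 0 = 6 * deriv s 0 := by
    rw [e2.deriv_eq]
    exact d3.deriv
  constructor
  · unfold coeff
    rw [iteratedDeriv_succ, iteratedDeriv_one, e2.eq_of_nhds]
    simp
  · unfold coeff
    rw [iteratedDeriv_succ, iteratedDeriv_succ, iteratedDeriv_one, e3]
    simp [Nat.factorial]

theorem bieberbach
    (hb : ∀ f : ℂ → ℂ, DifferentiableOn ℂ f (ball (0:ℂ) 1) → InjOn f (ball (0:ℂ) 1) → f 0 = 0 → deriv f 0 = 1 →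
      ‖coeff 2 f ^ 2 - coeff 3 f‖ ≤ 1)
    (g : ℂ → ℂ) (hg : DifferentiableOn ℂ g (ball (0:ℂ) 1)) (hi : InjOn g (ball (0:ℂ) 1)) (h0 : g 0 = 0) (h1 : deriv g 0 = 1) :
    ‖coeff 2 g‖ ≤ 2 := by
  have h0m : (0:ℂ) ∈ ball (0:ℂ) 1 := mem_ball_self one_pos
  have hnb : ball (0:ℂ) 1 ∈ 𝓝 (0:ℂ) := isOpen_ball.mem_nhds h0m
  let q : ℂ → ℂ := dslope g 0
  have hq : DifferentiableOn ℂ q (ball (0:ℂ) 1) := (Complex.differentiableOn_dslope hnb).mpr hg
  have hgq : ∀ z, g z = z * q z := by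
    intro z
    have := sub_smul_dslope g 0 z
    simp only [sub_zero, h0, smul_eq_mul] at this
    exact this.symm
  have hq1 : q 0 = 1 := by
    show dslope g 0 0 = 1
    rw [dslope_same, h1]
  have hqne : ∀ z ∈ ball (0:ℂ) 1, q z ≠ 0 := by
    intro z hz hqz
    by_cases hz0 : z = 0
    · rw [hz0, hq1] at hqz; exact one_ne_zero hqz
    · have : g z = g 0 := by rw [hgq z, hqz, mul_zero, h0]
      exact hz0 (hi hz h0m this)
  obtain ⟨s, hs, hs0, hsq⟩ := sqrt_aux q hq hqne hq1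
  have hsne : ∀ z ∈ ball (0:ℂ) 1, s z ≠ 0 := by
    intro z hz h
    apply hqne z hz
    rw [← hsq z hz, h]; ring
  have hsqm : ∀ z ∈ ball (0:ℂ) 1, z ^ 2 ∈ ball (0:ℂ) 1 := by
    intro z hz
    rw [mem_ball_zero_iff] at hz ⊢
    rw [norm_pow]
    nlinarith [norm_nonneg z]
  let G : ℂ → ℂ := fun z => z * s (z ^ 2)
  have hGd : DifferentiableOn ℂ G (ball (0:ℂ) 1) := by
    have h2 : DifferentiableOn ℂ (fun z => s (z ^ 2)) (ball (0:ℂ) 1) :=
      hs.comp (by fun_prop) hsqm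
    exact differentiableOn_id.mul h2
  have hG2 : ∀ z ∈ ball (0:ℂ) 1, G z ^ 2 = g (z ^ 2) := by
    intro z hz
    rw [hgq (z ^ 2), ← hsq _ (hsqm z hz)]
    show (z * s (z ^ 2)) ^ 2 = _
    ring
  have hGi : InjOn G (ball (0:ℂ) 1) := by
    intro a ha b hb' hab
    have h2 : a ^ 2 = b ^ 2 := by
      apply hi (hsqm a ha) (hsqm b hb')
      rw [← hG2 a ha, ← hG2 b hb', hab]
    rcases sq_eq_sq_iff_eq_or_eq_neg.mp h2 with h3 | h3
    · exact h3
    · have h4 : a * s (a ^ 2) = b * s (b ^ 2) := hab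
      rw [h2, h3] at h4
      have h5 : b * s (b ^ 2) = 0 := by linear_combination (-1/2 : ℂ) * h4
      rcases mul_eq_zero.mp h5 with h6 | h6
      · rw [h3, h6]; simp
      · exact absurd h6 (hsne _ (hsqm b hb'))
  have hG0 : G 0 = 0 := by simp [G]
  have hG1 : deriv G 0 = 1 := by
    have hd : HasDerivAt (fun z => s (z ^ 2)) (deriv s (0 ^ 2) * (2 * 0)) (0:ℂ) := by
      have hp : HasDerivAt (fun z : ℂ => z ^ 2) (2 * 0) 0 := by
        simpa using hasDerivAt_pow 2 (0:ℂ)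
      have hs1 : HasDerivAt s (deriv s (0 ^ 2)) ((0:ℂ) ^ 2) := by
        have : (0:ℂ) ^ 2 = 0 := by norm_num
        rw [this]
        exact (hs.differentiableAt hnb).hasDerivAt
      exact HasDerivAt.comp (h₂ := s) (h := fun z => z ^ 2) 0 hs1 hp
    have h3 : HasDerivAt G (1 * s (0 ^ 2) + 0 * (deriv s (0 ^ 2) * (2 * 0))) (0:ℂ) :=
      (hasDerivAt_id (0:ℂ)).mul hd
    rw [h3.deriv]
    have : (0:ℂ) ^ 2 = 0 := by norm_num
    rw [this, hs0]; ring
  have hfin := hb G hGd hGi hG0 hG1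
  obtain ⟨k2, k3⟩ := coeff3_aux s hs
  have e2 : coeff 2 G = 0 := k2
  have e3 : coeff 3 G = deriv s 0 := k3
  have eg : coeff 2 g = deriv q 0 := by
    have : g = fun z => z * q z := funext hgq
    rw [this]
    exact coeff2_aux q hq
  have hqs : deriv q 0 = 2 * deriv s 0 := by
    have hev : q =ᶠ[𝓝 (0:ℂ)] fun z => s z ^ 2 := by
      filter_upwards [hnb] with z hz
      exact (hsq z hz).symm
    rw [hev.deriv_eq]
    have hs1 : HasDerivAt s (deriv s 0) (0:ℂ) := (hs.differentiableAt hnb).hasDerivAt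
    have h4 : HasDerivAt (fun z => s z ^ 2) _ (0:ℂ) := hs1.pow 2
    rw [h4.deriv, hs0]
    simp
  rw [e2, e3] at hfin
  have h9 : ‖deriv s 0‖ ≤ 1 := by simpa using hfin
  rw [eg, hqs, norm_mul]
  have : ‖(2:ℂ)‖ = 2 := by simp
  rw [this]
  linarith

end Pool.Agent.Helper859.SP.W2
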