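import Pool.Agent.Helper859.SP.Defs
set_option linter.all false
open Complex MeasureTheory Set Filter Topology Metric

namespace Pool.Agent.Helper859.SP.W3
open Pool.Agent.Helper859.SP

theorem gen_bound
    (hb : ∀ f : ℂ → ℂ, DifferentiableOn ℂ f (ball (0:ℂ) 1) → InjOn f (ball (0:ℂ) 1) → f 0 = 0 → deriv f 0 = 1 →
      ‖coeff 2 f ^ 2 - coeff 3 f‖ ≤ 1)
    (hB : ∀ g : ℂ → ℂ, DifferentiableOn ℂ g (ball (0:ℂ) 1) → InjOn g (ball (0:ℂ) 1) → g 0 = 0 → deriv g 0 = 1 →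
      ‖coeff 2 g‖ ≤ 2)
    (hne : ∀ g : ℂ → ℂ, DifferentiableOn ℂ g (ball (0:ℂ) 1) → InjOn g (ball (0:ℂ) 1) → deriv g 0 ≠ 0)
    (f : ℂ → ℂ) (hf : InS' f) :
    ‖coeff 2 f‖ ≤ (2 + Real.sqrt 13) / 3 ∧ ‖coeff 3 f‖ ≤ 4 / 3 * ‖coeff 2 f‖ := by
  have i2 : ∀ g : ℂ → ℂ, iteratedDeriv 2 g 0 = deriv (deriv g) 0 := by
    intro g
    rw [iteratedDeriv_succ, iteratedDeriv_one]
  have i3 : iteratedDeriv 3 f 0 = deriv (deriv (deriv f)) 0 := by
    rw [iteratedDeriv_succ, iteratedDeriv_succ, iteratedDeriv_one]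
  have hdF : DifferentiableOn ℂ (deriv f) (ball (0:ℂ) 1) := hf.diff.deriv isOpen_ball
  set c := deriv (deriv f) 0 with hc
  have hc0 : c ≠ 0 := hne (deriv f) hdF hf.inj'
  have hg := hB (fun z => (deriv f z - 1) / c) ((hdF.sub_const 1).div_const c) (by
    intro x hx y hy hxy
    have h1 : deriv f x - 1 = deriv f y - 1 := by
      have h2 : (deriv f x - 1) / c = (deriv f y - 1) / c := hxy
      rwa [div_left_inj' hc0] at h2
    exact hf.inj' hx hy (sub_left_injective h1)) (by simp [hf.one]) (by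
    rw [deriv_div_const, deriv_sub_const, ← hc, div_self hc0])
  have hdg : deriv (fun z => (deriv f z - 1) / c) = fun z => deriv (deriv f) z / c := by
    funext z
    rw [deriv_div_const, deriv_sub_const]
  have h4 : ‖deriv (deriv (deriv f)) 0‖ ≤ 4 * ‖c‖ := by
    have h5 : coeff 2 (fun z => (deriv f z - 1) / c) = deriv (deriv (deriv f)) 0 / c / 2 := by
      unfold coeff
      rw [i2, hdg, deriv_div_const]
      norm_num
    rw [h5, norm_div, norm_div] at hg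
    have hc1 : 0 < ‖c‖ := norm_pos_iff.mpr hc0
    have h6 : ‖(2 : ℂ)‖ = 2 := by norm_num
    rw [h6, div_div, div_le_iff₀ (by positivity)] at hg
    linarith
  have h2c : coeff 2 f = c / 2 := by
    unfold coeff
    rw [i2]
    norm_num [hc]
  have h3c : coeff 3 f = deriv (deriv (deriv f)) 0 / 6 := by
    unfold coeff
    rw [i3]
    norm_num [Nat.factorial]
  have n2 : ‖coeff 2 f‖ = ‖c‖ / 2 := by
    rw [h2c, norm_div]
    norm_num
  have n3 : ‖coeff 3 f‖ = ‖deriv (deriv (deriv f)) 0‖ / 6 := by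
    rw [h3c, norm_div]
    norm_num
  have hB3 : ‖coeff 3 f‖ ≤ 4 / 3 * ‖coeff 2 f‖ := by
    rw [n2, n3]
    linarith
  refine ⟨?_, hB3⟩
  have h7 := hb f hf.diff hf.inj hf.zero hf.one
  have h8 : ‖coeff 2 f‖ ^ 2 ≤ 1 + ‖coeff 3 f‖ := by
    rw [← norm_pow]
    calc ‖coeff 2 f ^ 2‖ = ‖(coeff 2 f ^ 2 - coeff 3 f) + coeff 3 f‖ := by ring_nf
      _ ≤ ‖coeff 2 f ^ 2 - coeff 3 f‖ + ‖coeff 3 f‖ := norm_add_le _ _
      _ ≤ 1 + ‖coeff 3 f‖ := by linarith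
  have h13 : Real.sqrt 13 ^ 2 = 13 := Real.sq_sqrt (by norm_num)
  have h13' : 0 ≤ Real.sqrt 13 := Real.sqrt_nonneg _
  by_contra hcon
  push Not at hcon
  nlinarith [norm_nonneg (coeff 2 f)]

end Pool.Agent.Helper859.SP.W3
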