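import Pool.Agent.Helper859.SP.Defs
set_option linter.all false
open Complex MeasureTheory Set Filter Topology Metric

namespace Pool.Agent.Helper859.SP.X1
open Pool.Agent.Helper859.SP

theorem real_case
    (hsr : ∀ f : ℂ → ℂ, DifferentiableOn ℂ f (ball (0:ℂ) 1) → (∀ n, (coeff n f).im = 0) →
      ∀ z ∈ ball (0:ℂ) 1, f (starRingEnd ℂ z) = starRingEnd ℂ (f z))
    (hsd : ∀ f : ℂ → ℂ, DifferentiableOn ℂ f (ball (0:ℂ) 1) →
      (∀ z ∈ ball (0:ℂ) 1, f (starRingEnd ℂ z) = starRingEnd ℂ (f z)) →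
      ∀ z ∈ ball (0:ℂ) 1, deriv f (starRingEnd ℂ z) = starRingEnd ℂ (deriv f z))
    (hty : ∀ f : ℂ → ℂ, ContinuousOn f (ball (0:ℂ) 1) → InjOn f (ball (0:ℂ) 1) →
      (∀ z ∈ ball (0:ℂ) 1, f (starRingEnd ℂ z) = starRingEnd ℂ (f z)) → ∀ c : ℝ, 0 < c → HasDerivAt f (c : ℂ) 0 →
      ∀ z ∈ ball (0:ℂ) 1, 0 < z.im → 0 < (f z).im)
    (hne : ∀ g : ℂ → ℂ, DifferentiableOn ℂ g (ball (0:ℂ) 1) → InjOn g (ball (0:ℂ) 1) → deriv g 0 ≠ 0)
    (hmain : ∀ f : ℂ → ℂ, DifferentiableOn ℂ f (ball (0:ℂ) 1) → deriv f 0 = 1 →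
      (∀ z ∈ ball (0:ℂ) 1, f (starRingEnd ℂ z) = starRingEnd ℂ (f z)) →
      (∀ z ∈ ball (0:ℂ) 1, deriv f (starRingEnd ℂ z) = starRingEnd ℂ (deriv f z)) →
      (∀ z ∈ ball (0:ℂ) 1, 0 < z.im → 0 ≤ (f z).im) →
      (∀ z ∈ ball (0:ℂ) 1, 0 < z.im → 0 ≤ (deriv f z).im) →
      ∀ r : ℝ, 0 < r → r < 1 → r * (deriv (deriv f) 0).re ≤ 3 + 2 / Real.pi)
    (hrog : ∀ g : ℂ → ℂ, DifferentiableOn ℂ g (ball (0:ℂ) 1) →
      (∀ z ∈ ball (0:ℂ) 1, g (starRingEnd ℂ z) = starRingEnd ℂ (g z)) →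
      (∀ z ∈ ball (0:ℂ) 1, 0 < z.im → 0 ≤ (g z).im) → ∀ n : ℕ, 1 ≤ n → ‖coeff n g‖ ≤ n * (deriv g 0).re)
    (hcoef : ∀ f : ℂ → ℂ, DifferentiableOn ℂ f (ball (0:ℂ) 1) → InjOn f (ball (0:ℂ) 1) → deriv f 0 = 1 →
      (∀ z ∈ ball (0:ℂ) 1, f (starRingEnd ℂ z) = starRingEnd ℂ (f z)) →
      (∀ z ∈ ball (0:ℂ) 1, deriv f (starRingEnd ℂ z) = starRingEnd ℂ (deriv f z)) →
      (∀ z ∈ ball (0:ℂ) 1, 0 < z.im → 0 ≤ (f z).im) →
      (∀ z ∈ ball (0:ℂ) 1, 0 < z.im → 0 ≤ (deriv f z).im) →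
      ∀ n : ℕ, 2 ≤ n → ‖coeff n f‖ ≤ (2 * Real.exp (2 / Real.pi * (Ti2 1).re) * (n - 1) + 2) / n)
    (f : ℂ → ℂ) (hf : InS' f) (hr : ∀ n, (coeff n f).im = 0) :
    ‖coeff 2 f‖ ≤ 3 / 2 + 1 / Real.pi ∧
    (∀ n : ℕ, 2 ≤ n → ‖coeff n f‖ ≤ 2 * ‖coeff 2 f‖ * ((n - 1) / n)) ∧
    ∀ n : ℕ, 2 ≤ n → ‖coeff n f‖ ≤ (2 * Real.exp (2 / Real.pi * (Ti2 1).re) * (n - 1) + 2) / n := by
  have h0 : (0:ℂ) ∈ ball (0:ℂ) 1 := mem_ball_self one_pos
  have hc2 : ∀ f : ℂ → ℂ, coeff 2 f = deriv (deriv f) 0 / 2 := by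
    intro f
    have : iteratedDeriv 2 f = deriv (deriv f) := by
      rw [show (2:ℕ) = 1 + 1 from rfl, iteratedDeriv_succ', iteratedDeriv_one]
    unfold coeff
    rw [this]
    norm_num [Nat.factorial]
  have pos : ∀ f : ℂ → ℂ, InS' f → (∀ n, (coeff n f).im = 0) → ∀ a : ℝ, 0 < a →
      deriv (deriv f) 0 = (a:ℂ) →
      ‖coeff 2 f‖ ≤ 3 / 2 + 1 / Real.pi ∧
      (∀ n : ℕ, 2 ≤ n → ‖coeff n f‖ ≤ 2 * ‖coeff 2 f‖ * ((n - 1) / n)) ∧
      ∀ n : ℕ, 2 ≤ n → ‖coeff n f‖ ≤ (2 * Real.exp (2 / Real.pi * (Ti2 1).re) * (n - 1) + 2) / n := by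
    intro f hf hr a ha hda
    have hs := hsr f hf.diff hr
    have hs' := hsd f hf.diff hs
    have hgd : DifferentiableOn ℂ (deriv f) (ball (0:ℂ) 1) := hf.diff.deriv isOpen_ball
    have hf0 : HasDerivAt f (((1:ℝ):ℂ)) 0 := by
      have := (hf.diff.differentiableAt (isOpen_ball.mem_nhds h0)).hasDerivAt
      rw [hf.one] at this
      simpa using this
    have hg0 : HasDerivAt (deriv f) (a:ℂ) 0 := by
      have := (hgd.differentiableAt (isOpen_ball.mem_nhds h0)).hasDerivAt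
      rwa [hda] at this
    have h1 := hty f hf.diff.continuousOn hf.inj hs 1 one_pos hf0
    have h2 := hty (deriv f) hgd.continuousOn hf.inj' hs' a ha hg0
    have h3 := hmain f hf.diff hf.one hs hs' (fun z hz hi => (h1 z hz hi).le)
      (fun z hz hi => (h2 z hz hi).le)
    have hare : (deriv (deriv f) 0).re = a := by rw [hda, ofReal_re]
    rw [hare] at h3
    have hpi : 0 < Real.pi := Real.pi_pos
    have hcpos : 0 < 3 + 2 / Real.pi := by positivity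
    have h4 : a ≤ 3 + 2 / Real.pi := by
      by_contra hcon
      rw [not_le] at hcon
      have hca : (3 + 2 / Real.pi) / a < 1 := (div_lt_one ha).mpr hcon
      have hca0 : 0 < (3 + 2 / Real.pi) / a := by positivity
      have h5 := h3 (((3 + 2 / Real.pi) / a + 1) / 2) (by linarith) (by linarith)
      have h6 : (((3 + 2 / Real.pi) / a + 1) / 2) * a = ((3 + 2 / Real.pi) + a) / 2 := by
        field_simp
      rw [h6] at h5
      linarith
    have hn2 : ‖coeff 2 f‖ = a / 2 := by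
      rw [hc2, hda, norm_div, norm_real, Real.norm_eq_abs, abs_of_pos ha]
      norm_num
    refine ⟨?_, ?_, hcoef f hf.diff hf.inj hf.one hs hs' (fun z hz hi => (h1 z hz hi).le)
      (fun z hz hi => (h2 z hz hi).le)⟩
    · rw [hn2]
      have : (3 + 2 / Real.pi) / 2 = 3 / 2 + 1 / Real.pi := by ring
      linarith
    · intro n hn
      obtain ⟨m, rfl⟩ : ∃ m, n = m + 1 := ⟨n - 1, by omega⟩
      have hm : 1 ≤ m := by omega
      have h5 := hrog (deriv f) hgd hs' (fun z hz hi => (h2 z hz hi).le) m hm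
      rw [hare] at h5
      have h6 : coeff m (deriv f) = ((m:ℂ) + 1) * coeff (m + 1) f := by
        unfold coeff
        rw [iteratedDeriv_succ', Nat.factorial_succ]
        have h7 : ((m:ℂ) + 1) ≠ 0 := by exact_mod_cast Nat.succ_ne_zero m
        have h8 : ((m.factorial : ℕ) : ℂ) ≠ 0 := by exact_mod_cast Nat.factorial_ne_zero m
        push_cast
        field_simp
      rw [h6, norm_mul] at h5
      have h7 : ‖(m:ℂ) + 1‖ = (m:ℝ) + 1 := by
        have : (m:ℂ) + 1 = (((m:ℝ) + 1 : ℝ) : ℂ) := by push_cast; rfl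
        rw [this, norm_real, Real.norm_eq_abs, abs_of_pos (by positivity)]
      rw [h7] at h5
      rw [hn2]
      push_cast
      have h8 : (0:ℝ) < (m:ℝ) + 1 := by positivity
      have h9 : 2 * (a / 2) * (((m:ℝ) + 1 - 1) / ((m:ℝ) + 1)) = (m * a) / ((m:ℝ) + 1) := by
        field_simp
        ring
      rw [h9, le_div_iff₀ h8]
      linarith
  have hgd : DifferentiableOn ℂ (deriv f) (ball (0:ℂ) 1) := hf.diff.deriv isOpen_ball
  have hne0 := hne (deriv f) hgd hf.inj'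
  have him : (deriv (deriv f) 0).im = 0 := by
    have h1 := hr 2
    rw [hc2] at h1
    have h2 : (deriv (deriv f) 0 / 2).im = (deriv (deriv f) 0).im / 2 := by
      rw [show (2:ℂ) = ((2:ℝ):ℂ) by norm_num, div_ofReal_im]
    rw [h2] at h1
    linarith
  have hare : deriv (deriv f) 0 = (((deriv (deriv f) 0).re : ℝ) : ℂ) := by
    apply Complex.ext
    · simp
    · simp [him]
  have hane : (deriv (deriv f) 0).re ≠ 0 := by
    intro h
    apply hne0
    rw [hare, h, ofReal_zero]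
  rcases lt_or_gt_of_ne hane with hneg | hpos
  · -- reflect
    set f1 : ℂ → ℂ := fun z => -f (-z) with hf1
    have hmaps : ∀ z ∈ ball (0:ℂ) 1, -z ∈ ball (0:ℂ) 1 := by
      intro z hz
      rw [mem_ball_zero_iff] at hz ⊢
      rwa [norm_neg]
    have hd1 : deriv f1 = fun z => deriv f (-z) := by
      funext z
      rw [hf1, deriv.fun_neg, deriv_comp_neg, neg_neg]
    have hS1 : InS' f1 := by
      refine ⟨?_, ?_, ?_, ?_, ?_⟩
      · exact (hf.diff.comp differentiable_neg.differentiableOn hmaps).neg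
      · intro x hx y hy hxy
        have := hf.inj (hmaps x hx) (hmaps y hy) (neg_injective hxy)
        exact neg_injective this
      · simp [hf1, hf.zero]
      · rw [hd1]
        simp [hf.one]
      · rw [hd1]
        intro x hx y hy hxy
        have := hf.inj' (hmaps x hx) (hmaps y hy) hxy
        exact neg_injective this
    have hco : ∀ n, coeff n f1 = ((-((-1:ℝ)) ^ n : ℝ) : ℂ) * coeff n f := by
      intro n
      unfold coeff
      rw [hf1, iteratedDeriv_fun_neg, iteratedDeriv_comp_neg]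
      simp
      ring
    have hnorm : ∀ n, ‖coeff n f1‖ = ‖coeff n f‖ := by
      intro n
      rw [hco, norm_mul, norm_real, Real.norm_eq_abs, abs_neg, abs_pow, abs_neg, abs_one, one_pow,
        one_mul]
    have hr1 : ∀ n, (coeff n f1).im = 0 := by
      intro n
      rw [hco, im_ofReal_mul, hr n, mul_zero]
    have hd2 : deriv (deriv f1) 0 = (((-(deriv (deriv f) 0).re : ℝ)) : ℂ) := by
      rw [hd1, deriv_comp_neg, neg_zero]
      rw [ofReal_neg, ← hare]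
    have := pos f1 hS1 hr1 (-(deriv (deriv f) 0).re) (by linarith) hd2
    simpa only [hnorm] using this
  · exact pos f hf hr _ hpos hare

end Pool.Agent.Helper859.SP.X1
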