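import Pool.Agent.Helper859.SP.Defs
set_option linter.all false
open Complex MeasureTheory Set Filter Topology Metric

namespace Pool.Agent.Helper859.SP.Y1
open Pool.Agent.Helper859.SP

theorem cauchy_id2
    (hc : ContinuousOn Ti2 (closedBall (0:ℂ) 1))
    (hd : ∀ z ∈ ball (0:ℂ) 1, z ≠ 0 → HasDerivAt Ti2 (Complex.arctan z / z) z)
    (hd0 : HasDerivAt Ti2 1 0) (h0 : Ti2 0 = 0)
    (h : ℂ → ℂ) (R : ℝ) (hR : 1 < R) (hh : DifferentiableOn ℂ h (ball (0:ℂ) R)) :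
    ∫ t in (0:ℝ)..(2 * Real.pi), h (exp (t * I)) * ((1 - exp (t * I)) * exp (-(2 / (Real.pi : ℂ)) * Ti2 (exp (t * I)))) =
      2 * Real.pi * h 0 := by
  have hsub : closedBall (0:ℂ) 1 ⊆ ball (0:ℂ) R := closedBall_subset_ball hR
  have hcont : ContinuousOn (fun z => h z * ((1 - z) * exp (-(2 / (Real.pi : ℂ)) * Ti2 z)))
      (closedBall (0:ℂ) 1) := by
    apply ContinuousOn.mul (hh.continuousOn.mono hsub)
    apply ContinuousOn.mul (by fun_prop)
    exact continuous_exp.comp_continuousOn (continuousOn_const.mul hc)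
  have hdiffTi : DifferentiableOn ℂ Ti2 (ball (0:ℂ) 1) := by
    intro z hz
    by_cases hz0 : z = 0
    · rw [hz0]
      exact hd0.differentiableAt.differentiableWithinAt
    · exact (hd z hz hz0).differentiableAt.differentiableWithinAt
  have hdiff : DifferentiableOn ℂ (fun z => h z * ((1 - z) * exp (-(2 / (Real.pi : ℂ)) * Ti2 z)))
      (ball (0:ℂ) 1) := by
    apply DifferentiableOn.mul (hh.mono (ball_subset_closedBall.trans hsub))
    apply DifferentiableOn.mul (by fun_prop)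
    exact (hdiffTi.const_mul _).cexp
  have hDC : DiffContOnCl ℂ (fun z => h z * ((1 - z) * exp (-(2 / (Real.pi : ℂ)) * Ti2 z)))
      (ball (0:ℂ) 1) := by
    refine ⟨hdiff, ?_⟩
    rw [closure_ball _ one_ne_zero]
    exact hcont
  have key := hDC.circleIntegral_sub_inv_smul (mem_ball_self one_pos)
  unfold circleIntegral at key
  simp only [deriv_circleMap, circleMap_zero, sub_zero, smul_eq_mul, ofReal_one, one_mul] at key
  rw [h0, mul_zero, exp_zero, mul_one] at key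
  have h1 : ∀ t : ℝ, exp (t * I) * I * ((exp (t * I))⁻¹ * (h (exp (t * I)) * ((1 - exp (t * I)) * exp (-(2 / (Real.pi : ℂ)) * Ti2 (exp (t * I)))))) =
      I * (h (exp (t * I)) * ((1 - exp (t * I)) * exp (-(2 / (Real.pi : ℂ)) * Ti2 (exp (t * I))))) := by
    intro t
    have hne : exp (t * I) ≠ 0 := exp_ne_zero _
    field_simp
  simp only [h1] at key
  rw [intervalIntegral.integral_const_mul] at key
  have h2 : I * (∫ t in (0:ℝ)..(2 * Real.pi), h (exp (t * I)) * ((1 - exp (t * I)) * exp (-(2 / (Real.pi : ℂ)) * Ti2 (exp (t * I))))) =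
      I * (2 * Real.pi * h 0) := by
    rw [key]
    ring
  exact mul_left_cancel₀ I_ne_zero h2

theorem bd2_one_sub (t : ℝ) : (1 : ℂ) - exp (t * I) =
    -(2 * I) * (Real.sin (t / 2) : ℂ) * exp ((t / 2 : ℝ) * I) := by
  have h1 : (Real.sin (t / 2) : ℂ) =
      (exp (-((t / 2 : ℝ) : ℂ) * I) - exp (((t / 2 : ℝ) : ℂ) * I)) * I / 2 := by
    rw [Complex.ofReal_sin, Complex.sin]
  have h2 : exp (t * I) = exp (((t / 2 : ℝ) : ℂ) * I) * exp (((t / 2 : ℝ) : ℂ) * I) := by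
    rw [← exp_add]
    congr 1
    push_cast
    ring
  have h3 : exp (-((t / 2 : ℝ) : ℂ) * I) * exp (((t / 2 : ℝ) : ℂ) * I) = 1 := by
    rw [← exp_add]
    rw [show -((t / 2 : ℝ) : ℂ) * I + ((t / 2 : ℝ) : ℂ) * I = 0 by ring, exp_zero]
  rw [h1, h2]
  have hI : I * I = -1 := I_mul_I
  linear_combination (exp (-((t / 2 : ℝ) : ℂ) * I) * exp (((t / 2 : ℝ) : ℂ) * I) - exp (((t / 2 : ℝ) : ℂ) * I) * exp (((t / 2 : ℝ) : ℂ) * I)) * hI - h3

theorem bd2_exp (t s : ℝ) (him : (Ti2 (exp (t * I))).im = Real.pi / 4 * s) :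
    exp (-(2 / (Real.pi : ℂ)) * Ti2 (exp (t * I))) = (rho t : ℂ) * exp (-(s / 2 : ℝ) * I) := by
  unfold rho
  rw [Complex.ofReal_exp, ← exp_add]
  congr 1
  have hpi : (Real.pi : ℂ) ≠ 0 := by exact_mod_cast Real.pi_ne_zero
  have h1 : Ti2 (exp (t * I)) = ((Ti2 (exp (t * I))).re : ℂ) + ((Ti2 (exp (t * I))).im : ℂ) * I :=
    (re_add_im _).symm
  rw [him] at h1
  conv_lhs => rw [h1]
  push_cast
  field_simp
  ring

theorem bd2_right (t : ℝ) (h0 : 0 ≤ t) (h1 : t ≤ Real.pi / 2) (him : (Ti2 (exp (t * I))).im = Real.pi / 4 * t) :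
    (1 - exp (t * I)) * exp (-(2 / (Real.pi : ℂ)) * Ti2 (exp (t * I))) = -(2 * I) * (Real.sin (t / 2) : ℂ) * (rho t : ℂ) := by
  rw [bd2_one_sub, bd2_exp t t him]
  have h2 : exp ((t / 2 : ℝ) * I) * exp (-(t / 2 : ℝ) * I) = 1 := by
    rw [← exp_add, show ((t / 2 : ℝ) : ℂ) * I + -((t / 2 : ℝ) : ℂ) * I = 0 by ring, exp_zero]
  linear_combination (-(2 * I) * (Real.sin (t / 2) : ℂ) * (rho t : ℂ)) * h2

theorem bd2_left (t : ℝ) (h0 : Real.pi / 2 ≤ t) (h1 : t ≤ Real.pi) (him : (Ti2 (exp (t * I))).im = Real.pi / 4 * (Real.pi - t)) :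
    (1 - exp (t * I)) * exp (-(2 / (Real.pi : ℂ)) * Ti2 (exp (t * I))) = -2 * (Real.sin (t / 2) : ℂ) * (rho t : ℂ) * exp (t * I) := by
  rw [bd2_one_sub, bd2_exp t (Real.pi - t) him]
  have h3 : exp (-(Real.pi / 2 : ℝ) * I) = -I := by
    have h4 : exp (((Real.pi / 2 : ℝ) : ℂ) * I) = I := by
      push_cast
      exact Complex.exp_pi_div_two_mul_I
    rw [neg_mul, exp_neg, h4, inv_I]
  have h2 : exp ((t / 2 : ℝ) * I) * exp (-((Real.pi - t) / 2 : ℝ) * I) = exp (t * I) * (-I) := by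
    rw [← h3, ← exp_add, ← exp_add]
    congr 1
    push_cast
    ring
  have hI : I * I = -1 := I_mul_I
  linear_combination (-(2 * I) * (Real.sin (t / 2) : ℂ) * (rho t : ℂ)) * h2 + 2 * (Real.sin (t / 2) : ℂ) * (rho t : ℂ) * exp (t * I) * hI

end Pool.Agent.Helper859.SP.Y1
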