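import Pool.Agent.Helper859.SP.Defs
set_option linter.all false
open Complex MeasureTheory Set Filter Topology Metric

namespace Pool.Agent.Helper859.SP.Y3
open Pool.Agent.Helper859.SP

theorem right_bd
    (hc : ContinuousOn Ti2 (closedBall (0:ℂ) 1))
    (hconj : ∀ z : ℂ, Ti2 (starRingEnd ℂ z) = starRingEnd ℂ (Ti2 z))
    (hanti : AntitoneOn (fun t : ℝ => (Ti2 (exp (t * I))).re) (Icc 0 Real.pi))
    (hbr : ∀ t : ℝ, 0 ≤ t → t ≤ Real.pi / 2 →
      (1 - exp (t * I)) * exp (-(2 / (Real.pi : ℂ)) * Ti2 (exp (t * I))) = -(2 * I) * (Real.sin (t / 2) : ℂ) * (rho t : ℂ))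
    (hbl : ∀ t : ℝ, Real.pi / 2 ≤ t → t ≤ Real.pi →
      (1 - exp (t * I)) * exp (-(2 / (Real.pi : ℂ)) * Ti2 (exp (t * I))) = -2 * (Real.sin (t / 2) : ℂ) * (rho t : ℂ) * exp (t * I))
    (hmono : ∀ (a b : ℝ), a < b → ∀ (w u u' : ℝ → ℝ), MonotoneOn w (Icc a b) → ContinuousOn w (Icc a b) →
      0 ≤ w a → (∀ t ∈ Icc a b, HasDerivAt u (u' t) t) → ContinuousOn u' (Icc a b) →
      (∀ t ∈ Icc a b, 0 ≤ u t) → u b = 0 → ∫ t in a..b, w t * u' t ≤ 0)
    (hcau : ∀ (h : ℂ → ℂ) (R : ℝ), 1 < R → DifferentiableOn ℂ h (ball (0:ℂ) R) →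
      ∫ t in (0:ℝ)..(2 * Real.pi), h (exp (t * I)) * ((1 - exp (t * I)) * exp (-(2 / (Real.pi : ℂ)) * Ti2 (exp (t * I)))) =
      2 * Real.pi * h 0)
    (f : ℂ → ℂ) (hf : DifferentiableOn ℂ f (ball (0:ℂ) 1)) (h1 : deriv f 0 = 1)
    (hs : ∀ z ∈ ball (0:ℂ) 1, f (starRingEnd ℂ z) = starRingEnd ℂ (f z))
    (hs' : ∀ z ∈ ball (0:ℂ) 1, deriv f (starRingEnd ℂ z) = starRingEnd ℂ (deriv f z))
    (hu : ∀ z ∈ ball (0:ℂ) 1, 0 < z.im → 0 ≤ (f z).im)
    (r : ℝ) (hr0 : 0 < r) (hr1 : r < 1) :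
    ∫ t in (0:ℝ)..(Real.pi / 2), 2 * Real.sin (t / 2) * rho t * (deriv f (r * exp (t * I))).im ≤ Real.pi := by
  have hpi := Real.pi_pos
  -- norm facts
  have hnorm : ∀ t : ℝ, ‖exp ((t:ℂ) * I)‖ = 1 := fun t => Complex.norm_exp_ofReal_mul_I t
  have hmem : ∀ t : ℝ, (r : ℂ) * exp ((t:ℂ) * I) ∈ ball (0:ℂ) 1 := by
    intro t
    rw [mem_ball_zero_iff, norm_mul, hnorm, Complex.norm_real, Real.norm_eq_abs, abs_of_pos hr0]
    linarith
  have hmem' : ∀ t : ℝ, exp ((t:ℂ) * I) ∈ closedBall (0:ℂ) 1 := by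
    intro t
    rw [mem_closedBall_zero_iff, hnorm]
  have hdf : DifferentiableOn ℂ (deriv f) (ball (0:ℂ) 1) := hf.deriv isOpen_ball
  have hexpc : Continuous fun t : ℝ => exp ((t:ℂ) * I) := by fun_prop
  have hcT : Continuous fun t : ℝ => Ti2 (exp ((t:ℂ) * I)) :=
    hc.comp_continuous hexpc hmem'
  have hcD : Continuous fun t : ℝ => deriv f ((r:ℂ) * exp ((t:ℂ) * I)) :=
    hdf.continuousOn.comp_continuous (by fun_prop) hmem
  have hcW : Continuous fun t : ℝ => (1 - exp ((t:ℂ) * I)) * exp (-(2 / (Real.pi : ℂ)) * Ti2 (exp ((t:ℂ) * I))) := by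
    fun_prop
  set F : ℝ → ℂ := fun t => deriv f ((r:ℂ) * exp ((t:ℂ) * I)) *
    ((1 - exp ((t:ℂ) * I)) * exp (-(2 / (Real.pi : ℂ)) * Ti2 (exp ((t:ℂ) * I)))) with hF
  have hcF : Continuous F := hcD.mul hcW
  set G : ℝ → ℝ := fun t => (F t).re with hG
  have hcG : Continuous G := Complex.continuous_re.comp hcF
  have hGi : ∀ a b : ℝ, IntervalIntegrable G volume a b := fun a b => hcG.intervalIntegrable a b
  -- Cauchy
  have hC := hcau (fun z => deriv f ((r:ℂ) * z)) (1 / r) (by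
      rw [lt_div_iff₀ hr0]; linarith) (by
      refine hdf.comp (by fun_prop) ?_
      intro z hz
      rw [mem_ball_zero_iff] at hz ⊢
      rw [norm_mul, Complex.norm_real, Real.norm_eq_abs, abs_of_pos hr0]
      rw [lt_div_iff₀ hr0] at hz
      linarith [mul_comm ‖z‖ r])
  have hC1 : ∫ t in (0:ℝ)..(2 * Real.pi), F t = 2 * Real.pi := by
    rw [hF]
    have := hC
    simp only [mul_zero, h1, mul_one] at this
    exact this
  have hG2 : ∫ t in (0:ℝ)..(2 * Real.pi), G t = 2 * Real.pi := by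
    have h := Complex.reCLM.intervalIntegral_comp_comm (hcF.intervalIntegrable (μ := volume) 0 (2 * Real.pi))
    have h' : ∫ t in (0:ℝ)..(2 * Real.pi), G t = (∫ t in (0:ℝ)..(2 * Real.pi), F t).re := h
    rw [h', hC1]
    simp
  -- symmetry
  have hsym : ∀ t : ℝ, G (2 * Real.pi - t) = G t := by
    intro t
    have e1 : exp (((2 * Real.pi - t : ℝ):ℂ) * I) = starRingEnd ℂ (exp ((t:ℂ) * I)) := by
      rw [← Complex.exp_conj]
      push_cast
      rw [sub_mul, Complex.exp_sub, Complex.exp_two_pi_mul_I]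
      simp only [map_mul, conj_ofReal, conj_I]
      rw [mul_neg, Complex.exp_neg, one_div]
    have e2 : (r:ℂ) * exp (((2 * Real.pi - t : ℝ):ℂ) * I) = starRingEnd ℂ ((r:ℂ) * exp ((t:ℂ) * I)) := by
      rw [e1, map_mul, conj_ofReal]
    have e3 : F (2 * Real.pi - t) = starRingEnd ℂ (F t) := by
      simp only [hF]
      rw [e2, hs' _ (hmem t), e1, hconj]
      simp only [map_mul, map_sub, map_one, ← Complex.exp_conj, map_neg, map_div₀, conj_ofReal, map_ofNat]
    simp only [hG, e3, conj_re]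
  have hhalf : ∫ t in (Real.pi)..(2 * Real.pi), G t = ∫ t in (0:ℝ)..Real.pi, G t := by
    have h := intervalIntegral.integral_comp_sub_left (a := 0) (b := Real.pi) G (2 * Real.pi)
    simp only [hsym] at h
    rw [h]
    congr 1 <;> ring
  have hpiG : ∫ t in (0:ℝ)..Real.pi, G t = Real.pi := by
    have h := intervalIntegral.integral_add_adjacent_intervals (hGi 0 Real.pi) (hGi Real.pi (2 * Real.pi))
    rw [hhalf, hG2] at h
    linarith
  have hsplit := intervalIntegral.integral_add_adjacent_intervals (hGi 0 (Real.pi / 2)) (hGi (Real.pi / 2) Real.pi)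
  rw [hpiG] at hsplit
  -- first part
  have hfirst : ∫ t in (0:ℝ)..(Real.pi / 2), G t =
      ∫ t in (0:ℝ)..(Real.pi / 2), 2 * Real.sin (t / 2) * rho t * (deriv f (r * exp (t * I))).im := by
    apply intervalIntegral.integral_congr
    intro t ht
    rw [uIcc_of_le (by positivity)] at ht
    have hb := hbr t ht.1 ht.2
    simp only [hG, hF]
    rw [hb]
    simp only [mul_re, mul_im, neg_re, neg_im, ofReal_re, ofReal_im, I_re, I_im, re_ofNat, im_ofNat]
    ring
  -- second part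
  have hrhoc : Continuous rho := by
    have : rho = fun t : ℝ => Real.exp (-(2 / Real.pi) * (Ti2 (exp ((t:ℂ) * I))).re) := rfl
    rw [this]
    have h2 : Continuous fun t : ℝ => (Ti2 (exp ((t:ℂ) * I))).re := Complex.continuous_re.comp hcT
    fun_prop
  have hrhopos : ∀ t, 0 < rho t := fun t => Real.exp_pos _
  have hrhomono : MonotoneOn rho (Icc (Real.pi / 2) Real.pi) := by
    intro x hx y hy hxy
    have h := hanti ⟨by linarith [hx.1], hx.2⟩ ⟨by linarith [hy.1], hy.2⟩ hxy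
    simp only at h
    unfold rho
    apply Real.exp_le_exp.2
    have h2 : 0 < 2 / Real.pi := by positivity
    nlinarith
  have hsinmono : MonotoneOn (fun t : ℝ => Real.sin (t / 2)) (Icc (Real.pi / 2) Real.pi) := by
    intro x hx y hy hxy
    apply Real.sin_le_sin_of_le_of_le_pi_div_two
    · linarith [hx.1]
    · linarith [hy.2]
    · linarith
  have hsinnn : ∀ t ∈ Icc (Real.pi / 2) Real.pi, 0 ≤ Real.sin (t / 2) := by
    intro t ht
    apply Real.sin_nonneg_of_nonneg_of_le_pi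
    · linarith [ht.1]
    · linarith [ht.2]
  have hsec : ∫ t in (Real.pi / 2)..Real.pi, (Real.sin (t / 2) * rho t) *
      (exp ((t:ℂ) * I) * deriv f ((r:ℂ) * exp ((t:ℂ) * I))).re ≤ 0 := by
    refine hmono (Real.pi / 2) Real.pi (by linarith) (fun t => Real.sin (t / 2) * rho t)
      (fun t => (f ((r:ℂ) * exp ((t:ℂ) * I)) / r).im)
      (fun t => (exp ((t:ℂ) * I) * deriv f ((r:ℂ) * exp ((t:ℂ) * I))).re) ?_ ?_ ?_ ?_ ?_ ?_ ?_
    · intro x hx y hy hxy
      exact mul_le_mul (hsinmono hx hy hxy) (hrhomono hx hy hxy) (hrhopos x).le (hsinnn y hy)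
    · apply Continuous.continuousOn
      fun_prop
    · exact mul_nonneg (hsinnn _ ⟨le_rfl, by linarith⟩) (hrhopos _).le
    · intro t ht
      have hrc : (r:ℂ) ≠ 0 := by exact_mod_cast hr0.ne'
      have d0 : HasDerivAt f (deriv f ((r:ℂ) * exp ((t:ℂ) * I))) ((r:ℂ) * exp ((t:ℂ) * I)) :=
        (hf.differentiableAt (isOpen_ball.mem_nhds (hmem t))).hasDerivAt
      have d1 : HasDerivAt (fun s : ℝ => (r:ℂ) * exp ((s:ℂ) * I)) ((r:ℂ) * (exp ((t:ℂ) * I) * I)) t := by
        have d2 : HasDerivAt (fun s : ℝ => ((s:ℂ) * I)) I t := by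
          have := (Complex.ofRealCLM.hasDerivAt (x := t)).mul_const I
          simpa using this
        exact (d2.cexp).const_mul _
      have d3 : HasDerivAt (fun s : ℝ => f ((r:ℂ) * exp ((s:ℂ) * I)))
          (deriv f ((r:ℂ) * exp ((t:ℂ) * I)) * ((r:ℂ) * (exp ((t:ℂ) * I) * I))) t :=
        HasDerivAt.comp t (h₂ := f) d0 d1
      have d4 : HasDerivAt (fun s : ℝ => f ((r:ℂ) * exp ((s:ℂ) * I)) / r)
          (deriv f ((r:ℂ) * exp ((t:ℂ) * I)) * ((r:ℂ) * (exp ((t:ℂ) * I) * I)) / r) t := d3.div_const _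
      have d5 : HasDerivAt (fun s : ℝ => (f ((r:ℂ) * exp ((s:ℂ) * I)) / r).im)
          ((deriv f ((r:ℂ) * exp ((t:ℂ) * I)) * ((r:ℂ) * (exp ((t:ℂ) * I) * I)) / r).im) t := by
        have := Complex.imCLM.hasFDerivAt.comp_hasDerivAt t d4
        exact this
      have e : (deriv f ((r:ℂ) * exp ((t:ℂ) * I)) * ((r:ℂ) * (exp ((t:ℂ) * I) * I)) / r) =
          (exp ((t:ℂ) * I) * deriv f ((r:ℂ) * exp ((t:ℂ) * I))) * I := by
        field_simp
      rw [e] at d5
      simpa [mul_im] using d5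
    · apply Continuous.continuousOn
      exact Complex.continuous_re.comp (hexpc.mul hcD)
    · intro t ht
      simp only [Complex.div_ofReal_im]
      apply div_nonneg _ hr0.le
      rcases eq_or_lt_of_le ht.2 with h | h
      · subst h
        have h2 := hs _ (hmem Real.pi)
        have h3 : starRingEnd ℂ ((r:ℂ) * exp ((Real.pi:ℂ) * I)) = (r:ℂ) * exp ((Real.pi:ℂ) * I) := by
          rw [Complex.exp_pi_mul_I]; simp
        rw [h3] at h2
        have h4 := congrArg Complex.im h2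
        simp only [conj_im] at h4
        linarith
      · apply hu _ (hmem t)
        rw [Complex.im_ofReal_mul, Complex.exp_ofReal_mul_I_im]
        exact mul_pos hr0 (Real.sin_pos_of_pos_of_lt_pi (by linarith [ht.1]) h)
    · simp only [Complex.div_ofReal_im]
      have h2 := hs _ (hmem Real.pi)
      have h3 : starRingEnd ℂ ((r:ℂ) * exp ((Real.pi:ℂ) * I)) = (r:ℂ) * exp ((Real.pi:ℂ) * I) := by
        rw [Complex.exp_pi_mul_I]; simp
      rw [h3] at h2
      have h4 := congrArg Complex.im h2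
      simp only [conj_im] at h4
      have h5 : (f ((r:ℂ) * exp ((Real.pi:ℂ) * I))).im = 0 := by linarith
      rw [h5, zero_div]
  have hsecG : ∫ t in (Real.pi / 2)..Real.pi, G t = -2 * ∫ t in (Real.pi / 2)..Real.pi, (Real.sin (t / 2) * rho t) *
      (exp ((t:ℂ) * I) * deriv f ((r:ℂ) * exp ((t:ℂ) * I))).re := by
    rw [← intervalIntegral.integral_const_mul]
    apply intervalIntegral.integral_congr
    intro t ht
    rw [uIcc_of_le (by linarith)] at ht
    have hb := hbl t ht.1 ht.2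
    simp only [hG, hF]
    rw [hb]
    simp only [mul_re, mul_im, neg_re, neg_im, ofReal_re, ofReal_im, I_re, I_im, re_ofNat, im_ofNat]
    ring
  rw [← hfirst]
  nlinarith

end Pool.Agent.Helper859.SP.Y3
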