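import Pool.Agent.Helper859.SP.Defs
set_option linter.all false
open Complex MeasureTheory Set Filter Topology Metric

namespace Pool.Agent.Helper859.SP.Y4
open Pool.Agent.Helper859.SP

theorem left_bd
    (hne : ∀ g : ℂ → ℂ, DifferentiableOn ℂ g (ball (0:ℂ) 1) → InjOn g (ball (0:ℂ) 1) → deriv g 0 ≠ 0)
    (f : ℂ → ℂ) (hf : DifferentiableOn ℂ f (ball (0:ℂ) 1)) (hi : InjOn f (ball (0:ℂ) 1)) (h1 : deriv f 0 = 1)
    (hs' : ∀ z ∈ ball (0:ℂ) 1, deriv f (starRingEnd ℂ z) = starRingEnd ℂ (deriv f z))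
    (r : ℝ) (hr0 : 0 < r) (hr1 : r < 1) :
    ∫ t in (0:ℝ)..Real.pi, Real.tan (t / 2) * (deriv f (r * exp (t * I))).im ≤ Real.pi := by
  have hd : DifferentiableOn ℂ (deriv f) (ball (0:ℂ) 1) := hf.deriv isOpen_ball
  -- nonvanishing
  have hnz : ∀ z0 ∈ ball (0:ℂ) 1, deriv f z0 ≠ 0 := by
    intro z0 hz0
    have hz0' : ‖z0‖ < 1 := by simpa using hz0
    obtain ⟨ρ, hρ⟩ : ∃ ρ : ℝ, ρ = 1 - ‖z0‖ := ⟨_, rfl⟩
    have hρ0 : 0 < ρ := by rw [hρ]; linarith
    have hmaps : ∀ z ∈ ball (0:ℂ) 1, z0 + ρ * z ∈ ball (0:ℂ) 1 := by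
      intro z hz
      rw [mem_ball_zero_iff] at hz ⊢
      have e1 : ‖z0 + ρ * z‖ ≤ ‖z0‖ + ‖(ρ:ℂ) * z‖ := norm_add_le _ _
      have e2 : ‖(ρ:ℂ) * z‖ = ρ * ‖z‖ := by
        rw [norm_mul, Complex.norm_real, Real.norm_of_nonneg hρ0.le]
      have e3 : ρ * ‖z‖ < ρ * 1 := mul_lt_mul_of_pos_left hz hρ0
      rw [hρ] at e3 e2
      rw [hρ] at e1
      rw [hρ]
      linarith
    have hA : Differentiable ℂ (fun z : ℂ => z0 + ρ * z) := by fun_prop
    have h2 := hne (fun z => f (z0 + ρ * z)) (hf.comp hA.differentiableOn hmaps) (by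
      intro x hx y hy hxy
      have h3 := hi (hmaps x hx) (hmaps y hy) hxy
      have hρc : (ρ : ℂ) ≠ 0 := by exact_mod_cast hρ0.ne'
      have h4 : (ρ:ℂ) * x = ρ * y := by simpa using h3
      exact mul_left_cancel₀ hρc h4)
    intro h0
    apply h2
    have hf0 : HasDerivAt f (deriv f z0) z0 :=
      (hf.differentiableAt (isOpen_ball.mem_nhds hz0)).hasDerivAt
    have hA0 : HasDerivAt (fun z : ℂ => z0 + ρ * z) ρ 0 := by
      simpa using ((hasDerivAt_id (0:ℂ)).const_mul (ρ:ℂ)).const_add z0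
    have hf0' : HasDerivAt f (deriv f z0) (z0 + ρ * 0) := by simpa using hf0
    have h3 : HasDerivAt (fun z => f (z0 + ρ * z)) (deriv f z0 * ρ) 0 := hf0'.comp (0:ℂ) hA0
    rw [h3.deriv, h0, zero_mul]
  have hreal : ∀ x : ℝ, |x| < 1 → (deriv f x).im = 0 := by
    intro x hx
    have h2 := hs' x (by simpa [mem_ball_zero_iff] using hx)
    rw [Complex.conj_ofReal] at h2
    exact Complex.conj_eq_iff_im.mp h2.symm
  have hpos : 0 < (deriv f ((-r : ℝ) : ℂ)).re := by
    by_contra hcon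
    push Not at hcon
    have hcont : ContinuousOn (fun x : ℝ => (deriv f (x:ℂ)).re) (Icc (-r) 0) := by
      refine Complex.continuous_re.comp_continuousOn
        (hd.continuousOn.comp Complex.continuous_ofReal.continuousOn ?_)
      intro x hx
      rw [mem_ball_zero_iff, Complex.norm_real, Real.norm_eq_abs, abs_lt]
      constructor <;> linarith [hx.1, hx.2]
    have hivt := intermediate_value_Icc (by linarith : -r ≤ 0) hcont
    have h0mem : (0:ℝ) ∈ Icc ((deriv f ((-r : ℝ):ℂ)).re) ((deriv f ((0:ℝ):ℂ)).re) := by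
      constructor
      · exact hcon
      · simp [h1]
    obtain ⟨x, hx, hx0⟩ := hivt h0mem
    have hx1 : |x| < 1 := by rw [abs_lt]; constructor <;> linarith [hx.1, hx.2]
    apply hnz x (by simpa using hx1)
    apply Complex.ext
    · exact hx0
    · exact hreal x hx1
  obtain ⟨cr, hcr⟩ : ∃ cr : ℝ, cr = (deriv f ((-r : ℝ) : ℂ)).re := ⟨_, rfl⟩
  have hcc : deriv f ((-r : ℝ) : ℂ) = (cr : ℂ) := by
    apply Complex.ext
    · rw [hcr, Complex.ofReal_re]
    · rw [hreal (-r) (by rw [abs_neg, abs_of_pos hr0]; exact hr1), Complex.ofReal_im]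
  obtain ⟨h, hh⟩ : ∃ h : ℂ → ℂ, h = fun z => deriv f (r * z) := ⟨_, rfl⟩
  have hr' : 1 < 1 / r := by rw [lt_div_iff₀ hr0]; linarith
  have hhd : DifferentiableOn ℂ h (ball 0 (1/r)) := by
    rw [hh]
    have hA : Differentiable ℂ (fun z : ℂ => (r:ℂ) * z) := by fun_prop
    refine hd.comp hA.differentiableOn ?_
    intro z hz
    rw [mem_ball_zero_iff] at hz ⊢
    rw [norm_mul, Complex.norm_real, Real.norm_of_nonneg hr0.le]
    calc r * ‖z‖ < r * (1/r) := mul_lt_mul_of_pos_left hz hr0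
      _ = 1 := by field_simp
  have hm1 : h (-1) = (cr : ℂ) := by
    rw [hh, ← hcc]
    simp
  obtain ⟨G, hG⟩ : ∃ G : ℂ → ℂ, G = fun z => dslope h (-1) z * (1 - z) := ⟨_, rfl⟩
  have hGd : DifferentiableOn ℂ G (ball 0 (1/r)) := by
    rw [hG]
    have hB : Differentiable ℂ (fun z : ℂ => 1 - z) := by fun_prop
    refine DifferentiableOn.mul
      ((Complex.differentiableOn_dslope (isOpen_ball.mem_nhds ?_)).mpr hhd) hB.differentiableOn
    rw [mem_ball_zero_iff]
    simpa using hr'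
  have hsub : closedBall (0:ℂ) 1 ⊆ ball 0 (1/r) := closedBall_subset_ball hr'
  have hGne : ∀ z : ℂ, z ≠ -1 → G z = (h z - cr) / (z + 1) * (1 - z) := by
    intro z hz
    rw [hG]
    simp only
    rw [dslope_of_ne _ hz, slope_def_field, hm1, sub_neg_eq_add]
  have hG0 : G 0 = 1 - cr := by
    rw [hGne 0 (by norm_num), hh]
    simp [h1]
  -- the circle
  have hφ : ∀ t : ℝ, Real.cos (t / 2) ≠ 0 →
      (G (exp (t * I))).re = Real.tan (t / 2) * (h (exp (t * I))).im := by
    intro t ht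
    have ez : exp (t * I) = ((Real.cos (t / 2) : ℂ) + (Real.sin (t / 2) : ℂ) * I) ^ 2 := by
      rw [Complex.ofReal_cos, Complex.ofReal_sin, ← Complex.exp_mul_I, ← Complex.exp_nat_mul]
      congr 1
      push_cast
      ring
    have hcs : (Real.cos (t / 2) : ℂ) ^ 2 + (Real.sin (t / 2) : ℂ) ^ 2 = 1 := by
      have := Real.cos_sq_add_sin_sq (t / 2)
      exact_mod_cast this
    obtain ⟨C, hC⟩ : ∃ C : ℝ, C = Real.cos (t / 2) := ⟨_, rfl⟩
    obtain ⟨S, hS⟩ : ∃ S : ℝ, S = Real.sin (t / 2) := ⟨_, rfl⟩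
    rw [← hC, ← hS] at ez hcs
    rw [← hC] at ht
    have htan : Real.tan (t / 2) = S / C := by rw [Real.tan_eq_sin_div_cos, hC, hS]
    have hCc : (C : ℂ) ≠ 0 := by exact_mod_cast ht
    have hI2 : (I : ℂ) ^ 2 = -1 := Complex.I_sq
    have e1 : exp (t * I) + 1 = 2 * C * (C + S * I) := by
      rw [ez]
      linear_combination (-1 : ℂ) * hcs + (S : ℂ) ^ 2 * hI2
    have e2 : 1 - exp (t * I) = -(2 * I * S) * (C + S * I) := by
      rw [ez]
      linear_combination (-1 : ℂ) * hcs + (S : ℂ) ^ 2 * hI2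
    have hne0 : (C + S * I : ℂ) ≠ 0 := by
      intro h0
      rw [h0] at ez
      simp at ez
    have hz1 : exp (t * I) ≠ -1 := by
      intro h0
      rw [h0] at e1
      have : (2 * C * (C + S * I) : ℂ) = 0 := by rw [← e1]; ring
      simp [hCc, hne0] at this
    have e3 : G (exp (t * I)) = (h (exp (t * I)) - cr) * (-(I * (S / C))) := by
      rw [hGne _ hz1, e1, e2]
      generalize (C + S * I : ℂ) = D at hne0
      generalize h (exp (t * I)) - cr = E
      field_simp
    rw [e3, htan]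
    have e4 : ((S : ℂ) / (C : ℂ)) = ((S / C : ℝ) : ℂ) := by push_cast; rfl
    rw [e4]
    simp [Complex.mul_re, Complex.mul_im]
    ring
  have hconj : ∀ t : ℝ, (h (exp (((2 * Real.pi - t : ℝ) : ℂ) * I))).im = -(h (exp (t * I))).im := by
    intro t
    have e1 : exp (((2 * Real.pi - t : ℝ) : ℂ) * I) = starRingEnd ℂ (exp (t * I)) := by
      rw [← Complex.exp_conj]
      have : ((2 * Real.pi - t : ℝ) : ℂ) * I = -(t * I) + 2 * Real.pi * I := by push_cast; ring
      rw [this, Complex.exp_add, Complex.exp_two_pi_mul_I, mul_one]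
      congr 1
      simp
    rw [e1, hh]
    simp only
    have e2 : (r : ℂ) * starRingEnd ℂ (exp (t * I)) = starRingEnd ℂ (r * exp (t * I)) := by
      rw [map_mul, Complex.conj_ofReal]
    rw [e2, hs', Complex.conj_im]
    rw [mem_ball_zero_iff, norm_mul, Complex.norm_exp_ofReal_mul_I, Complex.norm_real,
      Real.norm_of_nonneg hr0.le, mul_one]
    exact hr1
  have hcirc : ∀ t : ℝ, exp (t * I) ∈ closedBall (0:ℂ) 1 := by
    intro t
    rw [mem_closedBall_zero_iff, Complex.norm_exp_ofReal_mul_I]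
  have hGc : Continuous (fun t : ℝ => G (exp (t * I))) := by
    have hc1 : ContinuousOn G (closedBall (0:ℂ) 1) := hGd.continuousOn.mono hsub
    refine hc1.comp_continuous ?_ hcirc
    fun_prop
  have hφc : Continuous (fun t : ℝ => (G (exp (t * I))).re) := Complex.continuous_re.comp hGc
  have hmean : ∫ t in (0:ℝ)..2 * Real.pi, G (exp (t * I)) = 2 * Real.pi * (1 - cr) := by
    have hdc : DiffContOnCl ℂ G (ball (0:ℂ) |1|) := by
      rw [abs_one]
      refine DifferentiableOn.diffContOnCl ?_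
      rw [closure_ball _ one_ne_zero]
      exact hGd.mono hsub
    have h2 := hdc.circleAverage
    rw [Real.circleAverage_def, hG0] at h2
    have h3 : ∀ t : ℝ, circleMap (0:ℂ) 1 t = exp (t * I) := by
      intro t
      simp [circleMap]
    simp only [h3] at h2
    have hpi : (Real.pi : ℂ) ≠ 0 := by exact_mod_cast Real.pi_ne_zero
    have h4 : ∀ J : ℂ, ((2 * Real.pi)⁻¹ : ℝ) • J = 1 - cr → J = 2 * Real.pi * (1 - cr) := by
      intro J hJ
      rw [← hJ, Complex.real_smul]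
      push_cast
      field_simp
    exact h4 _ h2
  have hre : ∫ t in (0:ℝ)..2 * Real.pi, (G (exp (t * I))).re = 2 * Real.pi * (1 - cr) := by
    have h2 := Complex.reCLM.intervalIntegral_comp_comm (μ := volume)
      (hGc.intervalIntegrable 0 (2 * Real.pi))
    simp only [Complex.reCLM_apply] at h2
    rw [h2, hmean]
    have : (2 * (Real.pi : ℂ) * (1 - cr)) = ((2 * Real.pi * (1 - cr) : ℝ) : ℂ) := by push_cast; ring
    rw [this, Complex.ofReal_re]
  have hsplit : ∫ t in (0:ℝ)..2 * Real.pi, (G (exp (t * I))).re =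
      (∫ t in (0:ℝ)..Real.pi, (G (exp (t * I))).re) +
        ∫ t in Real.pi..2 * Real.pi, (G (exp (t * I))).re :=
    (intervalIntegral.integral_add_adjacent_intervals (hφc.intervalIntegrable _ _)
      (hφc.intervalIntegrable _ _)).symm
  have hcosp : ∀ t ∈ Ioo (0:ℝ) Real.pi, Real.cos (t / 2) ≠ 0 := by
    intro t ht
    exact (Real.cos_pos_of_mem_Ioo ⟨by linarith [ht.1, Real.pi_pos], by linarith [ht.2]⟩).ne'
  have hrefl : ∫ t in Real.pi..2 * Real.pi, (G (exp (t * I))).re =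
      ∫ t in (0:ℝ)..Real.pi, (G (exp (t * I))).re := by
    have h2 := intervalIntegral.integral_comp_sub_left (a := 0) (b := Real.pi)
      (fun t : ℝ => (G (exp (t * I))).re) (2 * Real.pi)
    have e1 : 2 * Real.pi - Real.pi = Real.pi := by ring
    rw [e1, sub_zero] at h2
    rw [← h2]
    apply intervalIntegral.integral_congr_Ioo_of_le Real.pi_pos.le
    intro t ht
    simp only
    have hc := hcosp t ht
    have e2 : (2 * Real.pi - t) / 2 = Real.pi - t / 2 := by ring
    rw [hφ t hc, hφ (2 * Real.pi - t) (by rw [e2, Real.cos_pi_sub]; exact neg_ne_zero.mpr hc),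
      hconj t, e2, Real.tan_pi_sub]
    ring
  have hfin : ∫ t in (0:ℝ)..Real.pi, Real.tan (t / 2) * (deriv f (r * exp (t * I))).im =
      ∫ t in (0:ℝ)..Real.pi, (G (exp (t * I))).re := by
    apply intervalIntegral.integral_congr_Ioo_of_le Real.pi_pos.le
    intro t ht
    simp only
    rw [hφ t (hcosp t ht), hh]
  rw [hfin]
  rw [hsplit, hrefl] at hre
  have h5 : 0 < Real.pi * cr := mul_pos Real.pi_pos (by rw [hcr]; exact hpos)
  linarith

end Pool.Agent.Helper859.SP.Y4
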