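import Pool.Agent.Helper859.SP.Defs
set_option linter.all false
open Complex MeasureTheory Set Filter Topology Metric

namespace Pool.Agent.Helper859.SP.Y5
open Pool.Agent.Helper859.SP

theorem F1 (g : ℂ → ℂ) (hgd : DifferentiableOn ℂ g (ball (0:ℂ) 1)) (r : ℝ) (hr0 : 0 < r) (hr1 : r < 1)
    (m : ℕ) :
    ∫ t in (0:ℝ)..(2 * Real.pi), g (r * exp (t * I)) * exp (-(m * t * I)) =
      2 * Real.pi * (r:ℂ) ^ m * (iteratedDeriv m g 0 / (m.factorial : ℂ)) := by
  have hcl : DifferentiableOn ℂ g (closedBall (0:ℂ) r) :=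
    hgd.mono (closedBall_subset_ball hr1)
  have h := DifferentiableOn.circleIntegral_one_div_sub_center_pow_smul hr0 m hcl
  rw [circleIntegral] at h
  have hr : (r:ℂ) ≠ 0 := by exact_mod_cast hr0.ne'
  have he : ∀ t : ℝ, deriv (circleMap 0 r) t • ((1 / (circleMap 0 r t - 0) ^ (m + 1)) • g (circleMap 0 r t)) =
      (I / (r:ℂ) ^ m) * (g (r * exp (t * I)) * exp (-(m * t * I))) := by
    intro t
    rw [deriv_circleMap]
    simp only [circleMap, zero_add, sub_zero, smul_eq_mul]
    have e1 : exp (-(m * t * I)) = (exp (t * I) ^ m)⁻¹ := by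
      rw [← Complex.exp_nat_mul, ← Complex.exp_neg]
      congr 1
      ring
    rw [e1]
    have e2 : exp (t * I) ≠ 0 := Complex.exp_ne_zero _
    field_simp
    ring
  simp_rw [he] at h
  rw [intervalIntegral.integral_const_mul] at h
  have hI : I ≠ 0 := Complex.I_ne_zero
  have hrm : (r:ℂ) ^ m ≠ 0 := pow_ne_zero _ hr
  have hfac : (m.factorial : ℂ) ≠ 0 := by exact_mod_cast m.factorial_ne_zero
  rw [smul_eq_mul] at h
  have : ∫ t in (0:ℝ)..(2 * Real.pi), g (r * exp (t * I)) * exp (-(m * t * I)) =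
      ((r:ℂ) ^ m / I) * ((I / (r:ℂ) ^ m) * ∫ t in (0:ℝ)..(2 * Real.pi), g (r * exp (t * I)) * exp (-(m * t * I))) := by
    rw [← mul_assoc]
    have h1 : (r:ℂ) ^ m / I * (I / (r:ℂ) ^ m) = 1 := by field_simp
    rw [h1, one_mul]
  rw [this, h]
  field_simp

theorem F2 (g : ℂ → ℂ) (hgd : DifferentiableOn ℂ g (ball (0:ℂ) 1)) (r : ℝ) (hr0 : 0 < r) (hr1 : r < 1)
    (m : ℕ) (hm : 1 ≤ m) :
    ∫ t in (0:ℝ)..(2 * Real.pi), g (r * exp (t * I)) * exp (m * t * I) = 0 := by
  obtain ⟨k, rfl⟩ : ∃ k, m = k + 1 := ⟨m - 1, by omega⟩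
  have hcl : DifferentiableOn ℂ (fun z => z ^ k * g z) (closedBall (0:ℂ) r) :=
    ((differentiable_id.pow k).differentiableOn).mul (hgd.mono (closedBall_subset_ball hr1))
  have hd : DiffContOnCl ℂ (fun z => z ^ k * g z) (ball (0:ℂ) r) :=
    (hcl.mono closure_ball_subset_closedBall).diffContOnCl
  have h := hd.circleIntegral_eq_zero hr0.le
  rw [circleIntegral] at h
  have hr : (r:ℂ) ≠ 0 := by exact_mod_cast hr0.ne'
  have he : ∀ t : ℝ, deriv (circleMap 0 r) t • ((circleMap 0 r t) ^ k * g (circleMap 0 r t)) =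
      (I * (r:ℂ) ^ (k + 1)) * (g (r * exp (t * I)) * exp (((k + 1 : ℕ) : ℂ) * t * I)) := by
    intro t
    rw [deriv_circleMap]
    simp only [circleMap, zero_add, smul_eq_mul]
    have e1 : exp (((k + 1 : ℕ) : ℂ) * t * I) = exp (t * I) ^ (k + 1) := by
      rw [← Complex.exp_nat_mul]
      congr 1
      ring
    rw [e1]
    ring
  simp_rw [he] at h
  rw [intervalIntegral.integral_const_mul] at h
  have hI : I ≠ 0 := Complex.I_ne_zero
  have hrm : (r:ℂ) ^ (k + 1) ≠ 0 := pow_ne_zero _ hr
  rcases mul_eq_zero.1 h with h | h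
  · exact absurd h (mul_ne_zero hI hrm)
  · exact h

theorem Gcont (g : ℂ → ℂ) (hgd : DifferentiableOn ℂ g (ball (0:ℂ) 1)) (r : ℝ) (hr0 : 0 < r) (hr1 : r < 1) :
    Continuous (fun t : ℝ => g (r * exp (t * I))) := by
  have hmap : ∀ t : ℝ, (r:ℂ) * exp (t * I) ∈ ball (0:ℂ) 1 := by
    intro t
    rw [mem_ball_zero_iff, norm_mul, Complex.norm_exp_ofReal_mul_I, mul_one, Complex.norm_real,
      Real.norm_of_nonneg hr0.le]
    exact hr1
  have h1 : Continuous (fun t : ℝ => (r:ℂ) * exp (t * I)) := by fun_prop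
  exact hgd.continuousOn.comp_continuous h1 hmap

theorem F3 (g : ℂ → ℂ) (hgd : DifferentiableOn ℂ g (ball (0:ℂ) 1)) (r : ℝ) (hr0 : 0 < r) (hr1 : r < 1)
    (m : ℕ) (hm : 1 ≤ m) :
    ∫ t in (0:ℝ)..(2 * Real.pi), g (r * exp (t * I)) * (Real.sin (m * t) : ℂ) =
      Real.pi * I * (r:ℂ) ^ m * (iteratedDeriv m g 0 / (m.factorial : ℂ)) := by
  have h1 := F1 g hgd r hr0 hr1 m
  have h2 := F2 g hgd r hr0 hr1 m hm
  have hc := Gcont g hgd r hr0 hr1
  have he : ∀ t : ℝ, g (r * exp (t * I)) * (Real.sin (m * t) : ℂ) =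
      (I / 2) * (g (r * exp (t * I)) * exp (-(m * t * I)) - g (r * exp (t * I)) * exp (m * t * I)) := by
    intro t
    have : (Real.sin (m * t) : ℂ) = (exp (-(m * t * I)) - exp (m * t * I)) * I / 2 := by
      rw [Complex.ofReal_sin, Complex.sin]
      push_cast
      ring_nf
    rw [this]
    ring
  simp_rw [he]
  rw [intervalIntegral.integral_const_mul, intervalIntegral.integral_sub, h1, h2]
  · ring
  · apply Continuous.intervalIntegrable
    exact hc.mul (by fun_prop)
  · apply Continuous.intervalIntegrable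
    exact hc.mul (by fun_prop)


theorem conj_pt (g : ℂ → ℂ) (hs' : ∀ z ∈ ball (0:ℂ) 1, g (starRingEnd ℂ z) = starRingEnd ℂ (g z))
    (r : ℝ) (hr0 : 0 < r) (hr1 : r < 1) (t : ℝ) :
    g (r * exp (((2 * Real.pi - t : ℝ) : ℂ) * I)) = starRingEnd ℂ (g (r * exp (t * I))) := by
  have hmap : (r:ℂ) * exp (t * I) ∈ ball (0:ℂ) 1 := by
    rw [mem_ball_zero_iff, norm_mul, Complex.norm_exp_ofReal_mul_I, mul_one, Complex.norm_real,
      Real.norm_of_nonneg hr0.le]
    exact hr1
  rw [← hs' _ hmap]
  congr 1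
  rw [map_mul, Complex.conj_ofReal, ← Complex.exp_conj, map_mul, Complex.conj_ofReal, Complex.conj_I]
  congr 1
  push_cast
  rw [show (2 * (Real.pi:ℂ) - t) * I = t * -I + 2 * Real.pi * I by ring, Complex.exp_add,
    Complex.exp_two_pi_mul_I, mul_one]

theorem sin_refl (m : ℕ) (t : ℝ) : Real.sin (m * (2 * Real.pi - t)) = - Real.sin (m * t) := by
  rw [mul_sub]
  exact Real.sin_nat_mul_two_pi_sub _ _

theorem F4 (g : ℂ → ℂ) (hgd : DifferentiableOn ℂ g (ball (0:ℂ) 1))
    (hs' : ∀ z ∈ ball (0:ℂ) 1, g (starRingEnd ℂ z) = starRingEnd ℂ (g z))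
    (r : ℝ) (hr0 : 0 < r) (hr1 : r < 1)
    (m : ℕ) (hm : 1 ≤ m) :
    2 * ∫ t in (0:ℝ)..Real.pi, (g (r * exp (t * I))).im * Real.sin (m * t) =
      Real.pi * r ^ m * (iteratedDeriv m g 0 / (m.factorial : ℂ)).re ∧
    (iteratedDeriv m g 0 / (m.factorial : ℂ)).im = 0 := by
  have h3 := F3 g hgd r hr0 hr1 m hm
  have hc := Gcont g hgd r hr0 hr1
  set a := iteratedDeriv m g 0 / (m.factorial : ℂ) with ha
  have hcs : Continuous (fun t : ℝ => g (r * exp (t * I)) * (Real.sin (m * t) : ℂ)) :=
    hc.mul (by fun_prop)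
  have hci : Continuous (fun t : ℝ => (g (r * exp (t * I))).im * Real.sin (m * t)) :=
    (Complex.continuous_im.comp hc).mul (by fun_prop)
  have hcr : Continuous (fun t : ℝ => (g (r * exp (t * I))).re * Real.sin (m * t)) :=
    (Complex.continuous_re.comp hc).mul (by fun_prop)
  have e0 : Real.pi * I * (r:ℂ) ^ m * a = ((Real.pi * r ^ m : ℝ) : ℂ) * (I * a) := by
    push_cast; ring
  have him : ∫ t in (0:ℝ)..(2 * Real.pi), (g (r * exp (t * I))).im * Real.sin (m * t) =
      Real.pi * r ^ m * a.re := by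
    have h := Complex.imCLM.intervalIntegral_comp_comm (μ := volume)
      (hcs.intervalIntegrable 0 (2 * Real.pi))
    rw [h3, e0] at h
    simp only [Complex.imCLM_apply] at h
    rw [Complex.im_ofReal_mul] at h
    have e1 : (I * a).im = a.re := by simp
    rw [e1] at h
    rw [← h]
    apply intervalIntegral.integral_congr
    intro t _
    simp only []
    rw [mul_comm (g _) _, Complex.im_ofReal_mul]
    ring
  have hre : ∫ t in (0:ℝ)..(2 * Real.pi), (g (r * exp (t * I))).re * Real.sin (m * t) =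
      - (Real.pi * r ^ m * a.im) := by
    have h := Complex.reCLM.intervalIntegral_comp_comm (μ := volume)
      (hcs.intervalIntegrable 0 (2 * Real.pi))
    rw [h3, e0] at h
    simp only [Complex.reCLM_apply] at h
    rw [Complex.re_ofReal_mul] at h
    have e1 : (I * a).re = - a.im := by simp
    rw [e1] at h
    rw [← mul_neg, ← h]
    apply intervalIntegral.integral_congr
    intro t _
    simp only []
    rw [mul_comm (g _) _, Complex.re_ofReal_mul]
    ring
  constructor
  · rw [← him]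
    rw [← intervalIntegral.integral_add_adjacent_intervals (hci.intervalIntegrable 0 Real.pi)
      (hci.intervalIntegrable Real.pi (2 * Real.pi))]
    have h := intervalIntegral.integral_comp_sub_left
      (fun t : ℝ => (g (r * exp (t * I))).im * Real.sin (m * t)) (2 * Real.pi) (a := 0) (b := Real.pi)
    have e : (2 * Real.pi - Real.pi) = Real.pi := by ring
    rw [e, sub_zero] at h
    rw [← h]
    have h' : ∫ t in (0:ℝ)..Real.pi, (g (r * exp (((2 * Real.pi - t : ℝ) : ℂ) * I))).im * Real.sin (m * (2 * Real.pi - t))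
        = ∫ t in (0:ℝ)..Real.pi, (g (r * exp (t * I))).im * Real.sin (m * t) := by
      apply intervalIntegral.integral_congr
      intro t _
      simp only []
      rw [conj_pt g hs' r hr0 hr1 t, sin_refl, Complex.conj_im]
      ring
    rw [h']
    ring
  · have h := intervalIntegral.integral_comp_sub_left
      (fun t : ℝ => (g (r * exp (t * I))).re * Real.sin (m * t)) (2 * Real.pi) (a := 0) (b := 2 * Real.pi)
    rw [sub_self, sub_zero] at h
    have h' : ∫ t in (0:ℝ)..(2 * Real.pi), (g (r * exp (((2 * Real.pi - t : ℝ) : ℂ) * I))).re * Real.sin (m * (2 * Real.pi - t))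
        = - ∫ t in (0:ℝ)..(2 * Real.pi), (g (r * exp (t * I))).re * Real.sin (m * t) := by
      rw [← intervalIntegral.integral_neg]
      apply intervalIntegral.integral_congr
      intro t _
      simp only []
      rw [conj_pt g hs' r hr0 hr1 t, sin_refl, Complex.conj_re]
      ring
    rw [h', hre] at h
    have hp : 0 < Real.pi * r ^ m := by positivity
    have : Real.pi * r ^ m * a.im = 0 := by linarith
    rcases mul_eq_zero.1 this with h5 | h5
    · exact absurd h5 hp.ne'
    · exact h5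

theorem vnonneg (g : ℂ → ℂ)
    (hs' : ∀ z ∈ ball (0:ℂ) 1, g (starRingEnd ℂ z) = starRingEnd ℂ (g z))
    (hv : ∀ z ∈ ball (0:ℂ) 1, 0 < z.im → 0 ≤ (g z).im)
    (r : ℝ) (hr0 : 0 < r) (hr1 : r < 1) (t : ℝ) (ht : t ∈ Icc (0:ℝ) Real.pi) :
    0 ≤ (g (r * exp (t * I))).im := by
  have hmap : (r:ℂ) * exp (t * I) ∈ ball (0:ℂ) 1 := by
    rw [mem_ball_zero_iff, norm_mul, Complex.norm_exp_ofReal_mul_I, mul_one, Complex.norm_real,
      Real.norm_of_nonneg hr0.le]
    exact hr1
  have him : ((r:ℂ) * exp (t * I)).im = r * Real.sin t := by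
    rw [Complex.im_ofReal_mul, Complex.exp_ofReal_mul_I_im]
  have hsin : 0 ≤ Real.sin t := Real.sin_nonneg_of_mem_Icc ht
  rcases hsin.eq_or_lt with h | h
  · have hreal : (starRingEnd ℂ) ((r:ℂ) * exp (t * I)) = (r:ℂ) * exp (t * I) := by
      rw [Complex.conj_eq_iff_im, him, ← h, mul_zero]
    have h2 := hs' _ hmap
    rw [hreal] at h2
    have h3 := Complex.conj_eq_iff_im.1 h2.symm
    rw [h3]
  · apply hv _ hmap
    rw [him]
    positivity

theorem vpi (g : ℂ → ℂ)
    (hs' : ∀ z ∈ ball (0:ℂ) 1, g (starRingEnd ℂ z) = starRingEnd ℂ (g z))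
    (r : ℝ) (hr0 : 0 < r) (hr1 : r < 1) :
    (g (r * exp ((Real.pi : ℂ) * I))).im = 0 := by
  have hmap : (r:ℂ) * exp ((Real.pi : ℂ) * I) ∈ ball (0:ℂ) 1 := by
    rw [mem_ball_zero_iff, norm_mul, Complex.norm_exp_ofReal_mul_I, mul_one, Complex.norm_real,
      Real.norm_of_nonneg hr0.le]
    exact hr1
  have him : ((r:ℂ) * exp ((Real.pi : ℂ) * I)).im = 0 := by
    rw [Complex.exp_pi_mul_I]; simp
  have hreal := Complex.conj_eq_iff_im.2 him
  have h2 := hs' _ hmap
  rw [hreal] at h2
  exact Complex.conj_eq_iff_im.1 h2.symm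

theorem tanint (g : ℂ → ℂ) (hgd : DifferentiableOn ℂ g (ball (0:ℂ) 1))
    (hs' : ∀ z ∈ ball (0:ℂ) 1, g (starRingEnd ℂ z) = starRingEnd ℂ (g z))
    (hv : ∀ z ∈ ball (0:ℂ) 1, 0 < z.im → 0 ≤ (g z).im)
    (r : ℝ) (hr0 : 0 < r) (hr1 : r < 1) :
    IntervalIntegrable (fun t : ℝ => Real.tan (t / 2) * (g (r * exp (t * I))).im) volume 0 Real.pi := by
  have hsub : closedBall (0:ℂ) r ⊆ ball (0:ℂ) 1 := closedBall_subset_ball hr1
  have hdg : ContinuousOn (deriv g) (closedBall (0:ℂ) r) :=
    ((hgd.deriv isOpen_ball).continuousOn).mono hsub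
  obtain ⟨C, hC⟩ := (isCompact_closedBall (0:ℂ) r).exists_bound_of_continuousOn hdg
  have hC0 : 0 ≤ C := le_trans (norm_nonneg _) (hC 0 (mem_closedBall_self hr0.le))
  have hLip : ∀ t : ℝ, (g (r * exp (t * I))).im ≤ C * |t - Real.pi| := by
    intro t
    have hz : ∀ s : ℝ, (r:ℂ) * exp (s * I) ∈ closedBall (0:ℂ) r := by
      intro s
      rw [mem_closedBall_zero_iff, norm_mul, Complex.norm_exp_ofReal_mul_I, mul_one, Complex.norm_real,
        Real.norm_of_nonneg hr0.le]
    have h1 := Convex.norm_image_sub_le_of_norm_deriv_le (𝕜 := ℂ) (f := g)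
      (fun x hx => (hgd x (hsub hx)).differentiableAt (isOpen_ball.mem_nhds (hsub hx)))
      hC (convex_closedBall (0:ℂ) r) (hz Real.pi) (hz t)
    have h2 : ‖(r:ℂ) * exp (t * I) - (r:ℂ) * exp ((Real.pi:ℂ) * I)‖ ≤ r * |t - Real.pi| := by
      have h3 := (lipschitzWith_circleMap (0:ℂ) r).dist_le_mul t Real.pi
      rw [dist_eq_norm, Real.dist_eq] at h3
      simp only [circleMap, zero_add] at h3
      have h4 : ((Real.nnabs r : NNReal) : ℝ) = r := by
        rw [Real.coe_nnabs, abs_of_pos hr0]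
      rw [h4] at h3
      exact h3
    have h5 : (g (r * exp (t * I))).im ≤ ‖g (r * exp (t * I)) - g (r * exp ((Real.pi:ℂ) * I))‖ := by
      have h6 := Complex.abs_im_le_norm (g (r * exp (t * I)) - g (r * exp ((Real.pi:ℂ) * I)))
      rw [Complex.sub_im, vpi g hs' r hr0 hr1, sub_zero] at h6
      exact le_trans (le_abs_self _) h6
    calc (g (r * exp (t * I))).im ≤ _ := h5
      _ ≤ C * ‖(r:ℂ) * exp (t * I) - (r:ℂ) * exp ((Real.pi:ℂ) * I)‖ := h1
      _ ≤ C * (r * |t - Real.pi|) := mul_le_mul_of_nonneg_left h2 hC0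
      _ ≤ C * (1 * |t - Real.pi|) := by
          apply mul_le_mul_of_nonneg_left _ hC0
          apply mul_le_mul_of_nonneg_right hr1.le (abs_nonneg _)
      _ = C * |t - Real.pi| := by ring
  have hpi := Real.pi_pos
  rw [intervalIntegrable_iff_integrableOn_Ioc_of_le hpi.le]
  apply Measure.integrableOn_of_bounded (M := C * Real.pi)
  · rw [Real.volume_Ioc]; exact ENNReal.ofReal_ne_top
  · apply Measurable.aestronglyMeasurable
    have hc := Gcont g hgd r hr0 hr1
    have h1 : Measurable (fun t : ℝ => (g (r * exp (t * I))).im) :=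
      (Complex.continuous_im.comp hc).measurable
    have h2 : Measurable (fun t : ℝ => Real.tan (t / 2)) := by
      have : (fun t : ℝ => Real.tan (t / 2)) = fun t : ℝ => Real.sin (t / 2) / Real.cos (t / 2) := by
        funext t; rw [Real.tan_eq_sin_div_cos]
      rw [this]
      exact (Real.measurable_sin.comp (measurable_id.div_const 2)).div
        (Real.measurable_cos.comp (measurable_id.div_const 2))
    exact h2.mul h1
  · rw [ae_restrict_iff' measurableSet_Ioc]
    apply Filter.Eventually.of_forall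
    intro t ht
    have hv0 := vnonneg g hs' hv r hr0 hr1 t ⟨ht.1.le, ht.2⟩
    rcases ht.2.eq_or_lt with h | h
    · rw [h, vpi g hs' r hr0 hr1, mul_zero, norm_zero]
      positivity
    · have hL := hLip t
      rw [abs_of_neg (by linarith)] at hL
      have hcos : (Real.pi - t) / Real.pi ≤ Real.cos (t / 2) := by
        have h7 : Real.cos (t / 2) = Real.sin ((Real.pi - t) / 2) := by
          rw [← Real.sin_pi_div_two_sub]
          congr 1; ring
        rw [h7]
        have h8 := Real.mul_le_sin (x := (Real.pi - t) / 2) (by linarith) (by linarith [ht.1])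
        calc (Real.pi - t) / Real.pi = 2 / Real.pi * ((Real.pi - t) / 2) := by field_simp
          _ ≤ _ := h8
      have hcospos : 0 < Real.cos (t / 2) := lt_of_lt_of_le (div_pos (by linarith) hpi) hcos
      have hsin0 : 0 ≤ Real.sin (t / 2) := Real.sin_nonneg_of_mem_Icc ⟨by linarith [ht.1], by linarith [ht.2]⟩
      rw [Real.tan_eq_sin_div_cos, Real.norm_of_nonneg (by positivity)]
      rw [div_mul_eq_mul_div, div_le_iff₀ hcospos]
      have h9 : Real.sin (t / 2) * (g (r * exp (t * I))).im ≤ 1 * (C * -(t - Real.pi)) := by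
        apply mul_le_mul (Real.sin_le_one _) hL hv0 (by norm_num)
      have h10 : C * Real.pi * ((Real.pi - t) / Real.pi) ≤ C * Real.pi * Real.cos (t / 2) :=
        mul_le_mul_of_nonneg_left hcos (by positivity)
      have h11 : C * Real.pi * ((Real.pi - t) / Real.pi) = C * (Real.pi - t) := by field_simp
      linarith

theorem abs_sin_nat_mul_le (m : ℕ) (t : ℝ) : |Real.sin (m * t)| ≤ m * |Real.sin t| := by
  induction m with
  | zero => simp
  | succ k ih =>
    have h : Real.sin (((k + 1 : ℕ) : ℝ) * t) =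
        Real.sin (k * t) * Real.cos t + Real.cos (k * t) * Real.sin t := by
      rw [← Real.sin_add]; congr 1; push_cast; ring
    rw [h]
    have h1 : |Real.sin (k * t) * Real.cos t| ≤ |Real.sin (k * t)| := by
      rw [abs_mul]
      exact mul_le_of_le_one_right (abs_nonneg _) (Real.abs_cos_le_one _)
    have h2 : |Real.cos (k * t) * Real.sin t| ≤ |Real.sin t| := by
      rw [abs_mul]
      exact mul_le_of_le_one_left (abs_nonneg _) (Real.abs_cos_le_one _)
    have h3 := abs_add_le (Real.sin (k * t) * Real.cos t) (Real.cos (k * t) * Real.sin t)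
    push_cast
    linarith

theorem coef_bd
    (hanti : AntitoneOn (fun t : ℝ => (Ti2 (exp (t * I))).re) (Icc 0 Real.pi))
    (hc : ContinuousOn Ti2 (closedBall (0:ℂ) 1))
    (f : ℂ → ℂ) (hf : DifferentiableOn ℂ f (ball (0:ℂ) 1)) (h1 : deriv f 0 = 1)
    (hs' : ∀ z ∈ ball (0:ℂ) 1, deriv f (starRingEnd ℂ z) = starRingEnd ℂ (deriv f z))
    (hv : ∀ z ∈ ball (0:ℂ) 1, 0 < z.im → 0 ≤ (deriv f z).im)
    (hR : ∀ r : ℝ, 0 < r → r < 1 →
      ∫ t in (0:ℝ)..(Real.pi / 2), 2 * Real.sin (t / 2) * rho t * (deriv f (r * exp (t * I))).im ≤ Real.pi)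
    (hL : ∀ r : ℝ, 0 < r → r < 1 →
      ∫ t in (0:ℝ)..Real.pi, Real.tan (t / 2) * (deriv f (r * exp (t * I))).im ≤ Real.pi)
    (n : ℕ) (hn : 2 ≤ n) :
    ‖coeff n f‖ ≤ (2 * Real.exp (2 / Real.pi * (Ti2 1).re) * (n - 1) + 2) / n := by
  obtain ⟨m, rfl⟩ : ∃ m, n = m + 1 := ⟨n - 1, by omega⟩
  have hm : 1 ≤ m := by omega
  have hgd : DifferentiableOn ℂ (deriv f) (ball (0:ℂ) 1) := hf.deriv isOpen_ball
  set g : ℂ → ℂ := deriv f with hg
  set a : ℂ := iteratedDeriv m g 0 / (m.factorial : ℂ) with ha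
  have hpi := Real.pi_pos
  have hcoeff : coeff (m + 1) f = a / ((m:ℂ) + 1) := by
    unfold coeff
    rw [iteratedDeriv_succ', Nat.factorial_succ, ha, div_div]
    push_cast
    rw [mul_comm ((m:ℂ) + 1)]
  set E : ℝ := Real.exp (2 / Real.pi * (Ti2 1).re) with hE
  have hEpos : 0 < E := Real.exp_pos _
  have hrhoc : ContinuousOn rho (Icc 0 Real.pi) := by
    unfold rho
    apply Real.continuous_exp.comp_continuousOn
    apply ContinuousOn.mul continuousOn_const
    apply Complex.continuous_re.comp_continuousOn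
    apply hc.comp (by fun_prop)
    intro t _
    rw [mem_closedBall_zero_iff, Complex.norm_exp_ofReal_mul_I]
  have hrho : ∀ t ∈ Icc (0:ℝ) Real.pi, 1 ≤ E * rho t := by
    intro t ht
    unfold rho
    rw [hE, ← Real.exp_add, ← Real.exp_zero]
    apply Real.exp_le_exp.2
    have h := hanti (left_mem_Icc.2 hpi.le) ht ht.1
    simp only [ofReal_zero, zero_mul, Complex.exp_zero] at h
    have h2 : 0 ≤ 2 / Real.pi * ((Ti2 1).re - (Ti2 (exp (t * I))).re) := by
      apply mul_nonneg (by positivity)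
      linarith
    linarith
  have key : ∀ r : ℝ, 0 < r → r < 1 → ‖a‖ * r ^ m ≤ 2 * E * m + 2 := by
    intro r hr0 hr1
    obtain ⟨h4, hima⟩ := F4 g hgd hs' r hr0 hr1 m hm
    rw [← ha] at h4 hima
    have hc' := Gcont g hgd r hr0 hr1
    have hci : Continuous (fun t : ℝ => (g (r * exp (t * I))).im * Real.sin (m * t)) :=
      (Complex.continuous_im.comp hc').mul (by fun_prop)
    have hvc : Continuous (fun t : ℝ => (g (r * exp (t * I))).im) :=
      (Complex.continuous_im.comp hc')
    have habs := intervalIntegral.abs_integral_le_integral_abs (μ := volume)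
      (f := fun t : ℝ => (g (r * exp (t * I))).im * Real.sin (m * t)) hpi.le
    have hsplit := intervalIntegral.integral_add_adjacent_intervals
      (hci.abs.intervalIntegrable (μ := volume) 0 (Real.pi / 2))
      (hci.abs.intervalIntegrable (μ := volume) (Real.pi / 2) Real.pi)
    have hRr := hR r hr0 hr1
    have hLr := hL r hr0 hr1
    have hti := tanint g hgd hs' hv r hr0 hr1
    have hsub1 : Icc (0:ℝ) (Real.pi / 2) ⊆ Icc 0 Real.pi := Icc_subset_Icc_right (by linarith)
    have hv0 : ∀ t ∈ Icc (0:ℝ) Real.pi, 0 ≤ (g (r * exp (t * I))).im :=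
      fun t ht => vnonneg g hs' hv r hr0 hr1 t ht
    have hfirst : ∫ t in (0:ℝ)..(Real.pi / 2), |(g (r * exp (t * I))).im * Real.sin (m * t)| ≤
        (m * E) * Real.pi := by
      have hint : IntervalIntegrable (fun t : ℝ => (m * E) * (2 * Real.sin (t / 2) * rho t *
          (g (r * exp (t * I))).im)) volume 0 (Real.pi / 2) := by
        apply ContinuousOn.intervalIntegrable
        rw [uIcc_of_le (by linarith)]
        apply ContinuousOn.mul continuousOn_const
        apply ContinuousOn.mul _ hvc.continuousOn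
        apply ContinuousOn.mul (by fun_prop)
        exact hrhoc.mono hsub1
      calc ∫ t in (0:ℝ)..(Real.pi / 2), |(g (r * exp (t * I))).im * Real.sin (m * t)|
          ≤ ∫ t in (0:ℝ)..(Real.pi / 2), (m * E) * (2 * Real.sin (t / 2) * rho t *
            (g (r * exp (t * I))).im) := by
            apply intervalIntegral.integral_mono_on (by linarith)
              (hci.abs.intervalIntegrable _ _) hint
            intro t ht
            have ht' := hsub1 ht
            have hvt := hv0 t ht'
            rw [abs_mul, abs_of_nonneg hvt]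
            have hs1 : |Real.sin (m * t)| ≤ m * (2 * Real.sin (t / 2)) := by
              have h1 : |Real.sin (m * t)| ≤ m * |Real.sin t| := by
                have := abs_sin_nat_mul_le m t
                exact this
              have h2 : |Real.sin t| ≤ 2 * Real.sin (t / 2) := by
                have h3 : Real.sin t = 2 * Real.sin (t / 2) * Real.cos (t / 2) := by
                  rw [← Real.sin_two_mul]; congr 1; ring
                have h4 : 0 ≤ Real.sin (t / 2) :=
                  Real.sin_nonneg_of_mem_Icc ⟨by linarith [ht'.1], by linarith [ht'.2]⟩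
                rw [h3, abs_mul, abs_of_nonneg (by positivity)]
                calc 2 * Real.sin (t / 2) * |Real.cos (t / 2)| ≤ 2 * Real.sin (t / 2) * 1 :=
                      mul_le_mul_of_nonneg_left (Real.abs_cos_le_one _) (by positivity)
                  _ = _ := by ring
              exact le_trans h1 (mul_le_mul_of_nonneg_left h2 (Nat.cast_nonneg _))
            have hsn : 0 ≤ Real.sin (t / 2) :=
              Real.sin_nonneg_of_mem_Icc ⟨by linarith [ht'.1], by linarith [ht'.2]⟩
            have hq : (m:ℝ) * (2 * Real.sin (t / 2)) ≤ (m:ℝ) * (2 * Real.sin (t / 2)) * (E * rho t) := by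
              apply le_mul_of_one_le_right (by positivity) (hrho t ht')
            calc (g (r * exp (t * I))).im * |Real.sin (m * t)|
                ≤ (g (r * exp (t * I))).im * ((m:ℝ) * (2 * Real.sin (t / 2)) * (E * rho t)) :=
                  mul_le_mul_of_nonneg_left (le_trans hs1 hq) hvt
              _ = _ := by ring
        _ = (m * E) * ∫ t in (0:ℝ)..(Real.pi / 2), (2 * Real.sin (t / 2) * rho t *
            (g (r * exp (t * I))).im) := by
            rw [intervalIntegral.integral_const_mul]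
        _ ≤ (m * E) * Real.pi := mul_le_mul_of_nonneg_left hRr (by positivity)
    have hti1 : IntervalIntegrable (fun t : ℝ => Real.tan (t / 2) * (g (r * exp (t * I))).im) volume
        0 (Real.pi / 2) := by
      apply hti.mono_set
      rw [uIcc_of_le (by linarith), uIcc_of_le hpi.le]
      exact Icc_subset_Icc_right (by linarith)
    have hti2 : IntervalIntegrable (fun t : ℝ => Real.tan (t / 2) * (g (r * exp (t * I))).im) volume
        (Real.pi / 2) Real.pi := by
      apply hti.mono_set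
      rw [uIcc_of_le (by linarith), uIcc_of_le hpi.le]
      exact Icc_subset_Icc_left (by linarith)
    have hsecond : ∫ t in (Real.pi / 2)..Real.pi, |(g (r * exp (t * I))).im * Real.sin (m * t)| ≤
        Real.pi := by
      have h1 : ∫ t in (Real.pi / 2)..Real.pi, |(g (r * exp (t * I))).im * Real.sin (m * t)| ≤
          ∫ t in (Real.pi / 2)..Real.pi, Real.tan (t / 2) * (g (r * exp (t * I))).im := by
        apply intervalIntegral.integral_mono_on (by linarith) (hci.abs.intervalIntegrable _ _) hti2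
        intro t ht
        have hvt := hv0 t ⟨by linarith [ht.1], ht.2⟩
        rcases ht.2.eq_or_lt with h | h
        · rw [h, vpi g hs' r hr0 hr1]
          simp
        · rw [abs_mul, abs_of_nonneg hvt, mul_comm]
          apply mul_le_mul_of_nonneg_right _ hvt
          have h2 : Real.tan (Real.pi / 4) ≤ Real.tan (t / 2) := by
            rcases (show Real.pi / 4 ≤ t / 2 by linarith [ht.1]).eq_or_lt with h3 | h3
            · rw [h3]
            · exact (Real.tan_lt_tan_of_lt_of_lt_pi_div_two (by linarith) (by linarith) h3).le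
          rw [Real.tan_pi_div_four] at h2
          exact le_trans (Real.abs_sin_le_one _) h2
      have h2 := intervalIntegral.integral_add_adjacent_intervals hti1 hti2
      have h3 : 0 ≤ ∫ t in (0:ℝ)..(Real.pi / 2), Real.tan (t / 2) * (g (r * exp (t * I))).im := by
        apply intervalIntegral.integral_nonneg (by linarith)
        intro t ht
        apply mul_nonneg
        · apply Real.tan_nonneg_of_nonneg_of_le_pi_div_two (by linarith [ht.1]) (by linarith [ht.2])
        · exact hv0 t (hsub1 ht)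
      linarith
    have hfin : |Real.pi * r ^ m * a.re| ≤ 2 * ((m * E) * Real.pi + Real.pi) := by
      rw [← h4, abs_mul, abs_of_pos (by norm_num : (0:ℝ) < 2)]
      apply mul_le_mul_of_nonneg_left _ (by norm_num)
      linarith
    have hna : ‖a‖ = |a.re| := by
      have : a = (a.re : ℂ) := by
        apply Complex.ext <;> simp [hima]
      rw [this, Complex.norm_real, Real.norm_eq_abs, Complex.ofReal_re]
    rw [hna]
    rw [abs_mul, abs_of_pos (by positivity : 0 < Real.pi * r ^ m)] at hfin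
    have h6 : Real.pi * (|a.re| * r ^ m) ≤ Real.pi * (2 * E * m + 2) := by
      calc Real.pi * (|a.re| * r ^ m) = Real.pi * r ^ m * |a.re| := by ring
        _ ≤ _ := hfin
        _ = _ := by ring
    exact le_of_mul_le_mul_left h6 hpi
  have hlim : ‖a‖ ≤ 2 * E * m + 2 := by
    have ht : Tendsto (fun r : ℝ => ‖a‖ * r ^ m) (𝓝[<] 1) (𝓝 (‖a‖ * 1 ^ m)) := by
      have hcont : Continuous (fun r : ℝ => ‖a‖ * r ^ m) := by fun_prop
      exact (hcont.tendsto 1).mono_left nhdsWithin_le_nhds
    have h5 := le_of_tendsto ht (by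
      filter_upwards [Ioo_mem_nhdsLT (show (0:ℝ) < 1 by norm_num)] with r hr
      exact key r hr.1 hr.2)
    simpa using h5
  rw [hcoeff, norm_div]
  have h7 : ‖(m:ℂ) + 1‖ = (m:ℝ) + 1 := by
    have : (m:ℂ) + 1 = (((m:ℝ) + 1 : ℝ) : ℂ) := by push_cast; ring
    rw [this, Complex.norm_real, Real.norm_of_nonneg (by positivity)]
  rw [h7]
  push_cast
  apply div_le_div_of_nonneg_right _ (by positivity)
  calc ‖a‖ ≤ 2 * E * m + 2 := hlim
    _ = _ := by ring

end Pool.Agent.Helper859.SP.Y5
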