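import Pool.Agent.Helper859.SP.Defs
set_option linter.all false
open Complex MeasureTheory Set Filter Topology Metric

namespace Pool.Agent.Helper859.SP.Y6
open Pool.Agent.Helper859.SP

theorem exp_wiener (a : ℕ → ℂ) (ha : Summable fun j => ‖a j‖) :
    ∃ b : ℕ → ℂ, (Summable fun j => ‖b j‖) ∧ ∀ z : ℂ, ‖z‖ ≤ 1 →
      HasSum (fun j => b j * z ^ j) (exp (∑' k, a k * z ^ k)) := by
  let c : ℕ → ℕ → ℂ := fun N => Nat.rec (fun j => if j = 0 then (1:ℂ) else 0)
    (fun _ cN j => ∑ kl ∈ Finset.HasAntidiagonal.antidiagonal j, cN kl.1 * a kl.2) N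
  have c0 : ∀ j, c 0 j = if j = 0 then (1:ℂ) else 0 := fun j => rfl
  have cs : ∀ N j, c (N+1) j = ∑ kl ∈ Finset.HasAntidiagonal.antidiagonal j, c N kl.1 * a kl.2 := fun N j => rfl
  set C : ℝ := ∑' j, ‖a j‖ with hC
  have hC0 : 0 ≤ C := tsum_nonneg (fun _ => norm_nonneg _)
  have hz1 : ∀ (u : ℕ → ℂ), (Summable fun j => ‖u j‖) → ∀ z : ℂ, ‖z‖ ≤ 1 →
      Summable (fun j => ‖u j * z ^ j‖) := by
    intro u hu z hz
    refine Summable.of_nonneg_of_le (fun _ => norm_nonneg _) (fun j => ?_) hu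
    rw [norm_mul, norm_pow]
    calc ‖u j‖ * ‖z‖ ^ j ≤ ‖u j‖ * 1 :=
          mul_le_mul_of_nonneg_left (pow_le_one₀ (norm_nonneg _) hz) (norm_nonneg _)
      _ = ‖u j‖ := mul_one _
  have hc : ∀ N, (Summable fun j => ‖c N j‖) ∧ ∑' j, ‖c N j‖ ≤ C ^ N ∧
      ∀ z : ℂ, ‖z‖ ≤ 1 → ∑' j, c N j * z ^ j = (∑' k, a k * z ^ k) ^ N := by
    intro N
    induction N with
    | zero =>
      have h0 : ∀ j, j ≠ 0 → c 0 j = 0 := fun j hj => by rw [c0]; simp [hj]
      refine ⟨?_, ?_, ?_⟩
      · refine summable_of_ne_finset_zero (s := {0}) (fun j hj => ?_)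
        rw [h0 j (by simpa using hj), norm_zero]
      · rw [tsum_eq_single 0 (fun j hj => by rw [h0 j hj, norm_zero])]
        simp [c0]
      · intro z hz
        rw [tsum_eq_single 0 (fun j hj => by rw [h0 j hj, zero_mul])]
        simp [c0]
    | succ N ih =>
      obtain ⟨ih1, ih2, ih3⟩ := ih
      refine ⟨?_, ?_, ?_⟩
      · simp only [cs]
        exact summable_norm_sum_mul_antidiagonal_of_summable_norm ih1 ha
      · have h1 : Summable (fun j => ‖‖c N j‖‖) := by simpa using ih1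
        have h2 : Summable (fun j => ‖‖a j‖‖) := by simpa using ha
        have h3 := tsum_mul_tsum_eq_tsum_sum_antidiagonal_of_summable_norm h1 h2
        have h4 : Summable (fun n => ∑ kl ∈ Finset.HasAntidiagonal.antidiagonal n, ‖c N kl.1‖ * ‖a kl.2‖) :=
          (summable_norm_sum_mul_antidiagonal_of_summable_norm h1 h2).of_norm
        calc ∑' j, ‖c (N+1) j‖ ≤ ∑' n, ∑ kl ∈ Finset.HasAntidiagonal.antidiagonal n, ‖c N kl.1‖ * ‖a kl.2‖ := by
              refine Summable.tsum_le_tsum (fun j => ?_) ?_ h4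
              · rw [cs]
                refine (norm_sum_le _ _).trans (le_of_eq ?_)
                exact Finset.sum_congr rfl (fun _ _ => norm_mul _ _)
              · simp only [cs]
                exact summable_norm_sum_mul_antidiagonal_of_summable_norm ih1 ha
          _ = (∑' j, ‖c N j‖) * C := by rw [← h3]
          _ ≤ C ^ N * C := mul_le_mul_of_nonneg_right ih2 hC0
          _ = C ^ (N+1) := by rw [pow_succ]
      · intro z hz
        have h3 := tsum_mul_tsum_eq_tsum_sum_antidiagonal_of_summable_norm (hz1 _ ih1 z hz) (hz1 _ ha z hz)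
        rw [pow_succ, ← ih3 z hz, h3]
        refine tsum_congr (fun j => ?_)
        rw [cs, Finset.sum_mul]
        refine Finset.sum_congr rfl (fun kl hkl => ?_)
        rw [← Finset.HasAntidiagonal.mem_antidiagonal.mp hkl, pow_add]
        ring
  have hF : Summable (fun p : ℕ × ℕ => ‖c p.1 p.2 / (p.1.factorial : ℂ)‖) := by
    rw [summable_prod_of_nonneg (fun _ => norm_nonneg _)]
    have hN : ∀ N, ∀ j, ‖c N j / (N.factorial : ℂ)‖ = ‖c N j‖ / (N.factorial : ℝ) := by
      intro N j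
      rw [norm_div, Complex.norm_natCast]
    refine ⟨fun N => ?_, ?_⟩
    · simp only [hN]
      exact (hc N).1.div_const _
    · simp only [hN]
      refine Summable.of_nonneg_of_le (fun N => tsum_nonneg (fun _ => by positivity)) (fun N => ?_)
        (Real.summable_pow_div_factorial C)
      rw [tsum_div_const]
      exact div_le_div_of_nonneg_right (hc N).2.1 (by positivity)
  have hFs : Summable (fun p : ℕ × ℕ => ‖c p.2 p.1 / (p.2.factorial : ℂ)‖) := hF.prod_symm
  let b : ℕ → ℂ := fun j => ∑' N, c N j / (N.factorial : ℂ)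
  have hb : Summable fun j => ‖b j‖ := by
    have h1 := (summable_prod_of_nonneg (fun _ => norm_nonneg _)).mp hFs
    refine Summable.of_nonneg_of_le (fun _ => norm_nonneg _) (fun j => ?_) h1.2
    exact norm_tsum_le_tsum_norm (h1.1 j)
  refine ⟨b, hb, fun z hz => ?_⟩
  have hsum : Summable (fun j => b j * z ^ j) := (hz1 b hb z hz).of_norm
  have hval : ∑' j, b j * z ^ j = exp (∑' k, a k * z ^ k) := by
    have h1 : ∀ j, b j * z ^ j = ∑' N, c N j / (N.factorial : ℂ) * z ^ j := fun j => by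
      rw [tsum_mul_right]
    have hG : Summable (Function.uncurry fun (N j : ℕ) => c N j / (N.factorial : ℂ) * z ^ j) := by
      refine Summable.of_norm ?_
      refine Summable.of_nonneg_of_le (fun _ => norm_nonneg _) (fun p => ?_) hF
      obtain ⟨N, j⟩ := p
      show ‖c N j / (N.factorial : ℂ) * z ^ j‖ ≤ ‖c N j / (N.factorial : ℂ)‖
      rw [norm_mul, norm_pow]
      calc ‖c N j / (N.factorial : ℂ)‖ * ‖z‖ ^ j ≤ ‖c N j / (N.factorial : ℂ)‖ * 1 :=
            mul_le_mul_of_nonneg_left (pow_le_one₀ (norm_nonneg _) hz) (norm_nonneg _)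
        _ = _ := mul_one _
    calc ∑' j, b j * z ^ j = ∑' j, ∑' N, c N j / (N.factorial : ℂ) * z ^ j := tsum_congr h1
      _ = ∑' N, ∑' j, c N j / (N.factorial : ℂ) * z ^ j := hG.tsum_comm
      _ = ∑' N : ℕ, (∑' k, a k * z ^ k) ^ N / (N.factorial : ℂ) := by
          refine tsum_congr (fun N => ?_)
          rw [← (hc N).2.2 z hz, ← tsum_div_const]
          refine tsum_congr (fun j => ?_)
          ring
      _ = exp (∑' k, a k * z ^ k) := by
          rw [Complex.exp_eq_exp_ℂ, NormedSpace.exp_eq_tsum_div]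
  rw [← hval]
  exact hsum.hasSum

theorem exp_coeffs :
    ∃ b : ℕ → ℂ, (Summable fun j => ‖b j‖) ∧ ∀ z ∈ closedBall (0:ℂ) 1,
      HasSum (fun j => b j * z ^ j) (exp ((2 / (Real.pi : ℂ)) * Ti2 z)) := by
  let γ : ℕ → ℂ := fun k => (2 / (Real.pi : ℂ)) * ((-1 : ℂ) ^ k / ((2 * k + 1 : ℕ) : ℂ) ^ 2)
  let a : ℕ → ℂ := fun m => if m % 2 = 1 then γ (m / 2) else 0
  have hinj : Function.Injective (fun k : ℕ => 2 * k + 1) := fun x y h => by
    have : 2 * x + 1 = 2 * y + 1 := h
    omega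
  have hout : ∀ m, m ∉ Set.range (fun k : ℕ => 2 * k + 1) → a m = 0 := by
    intro m hm
    refine if_neg (fun h => hm ⟨m / 2, ?_⟩)
    show 2 * (m / 2) + 1 = m
    omega
  have hodd : ∀ k, a (2 * k + 1) = γ k := by
    intro k
    have h1 : (2 * k + 1) % 2 = 1 := by omega
    have h2 : (2 * k + 1) / 2 = k := by omega
    show (if (2 * k + 1) % 2 = 1 then γ ((2 * k + 1) / 2) else 0) = γ k
    rw [if_pos h1, h2]
  have hγ : Summable fun k => ‖γ k‖ := by
    have h1 : Summable (fun n : ℕ => 1 / ((n : ℝ)) ^ 2) := Real.summable_one_div_nat_pow.mpr (by norm_num)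
    have h2 : Summable (fun k : ℕ => 1 / (((2 * k + 1 : ℕ) : ℝ)) ^ 2) := h1.comp_injective hinj
    have h3 := h2.mul_left ‖(2 / (Real.pi : ℂ))‖
    refine h3.congr (fun k => ?_)
    show _ = ‖(2 / (Real.pi : ℂ)) * ((-1 : ℂ) ^ k / ((2 * k + 1 : ℕ) : ℂ) ^ 2)‖
    rw [norm_mul]
    congr 1
    rw [norm_div, norm_pow, norm_pow, norm_neg, norm_one, one_pow, Complex.norm_natCast]
  have ha : Summable fun m => ‖a m‖ := by
    have h1 : Summable ((fun m => ‖a m‖) ∘ (fun k : ℕ => 2 * k + 1)) := by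
      refine hγ.congr (fun k => ?_)
      show ‖γ k‖ = ‖a (2 * k + 1)‖
      rw [hodd]
    exact (hinj.summable_iff (fun m hm => by rw [hout m hm, norm_zero])).mp h1
  obtain ⟨b, hb, hb2⟩ := exp_wiener a ha
  refine ⟨b, hb, fun z hz => ?_⟩
  have hz' : ‖z‖ ≤ 1 := by simpa using hz
  have h := hb2 z hz'
  have hval : ∑' k, a k * z ^ k = (2 / (Real.pi : ℂ)) * Ti2 z := by
    have h1 : ∑' k, a k * z ^ k = ∑' k : ℕ, a (2 * k + 1) * z ^ (2 * k + 1) := by
      symm
      refine hinj.tsum_eq (f := fun m => a m * z ^ m) ?_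
      intro m hm
      by_contra hcon
      apply hm
      show a m * z ^ m = 0
      rw [hout m hcon, zero_mul]
    rw [h1]
    unfold Ti2
    rw [← tsum_mul_left]
    refine tsum_congr (fun k => ?_)
    rw [hodd]
    show (2 / (Real.pi : ℂ)) * ((-1 : ℂ) ^ k / ((2 * k + 1 : ℕ) : ℂ) ^ 2) * z ^ (2 * k + 1) = _
    ring
  rwa [hval] at h

end Pool.Agent.Helper859.SP.Y6
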