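import Pool.Agent.Helper859.SP.Defs
set_option linter.all false
open Complex MeasureTheory Set Filter Topology Metric

namespace Pool.Agent.Helper859.SP.Y7
open Pool.Agent.Helper859.SP

theorem aux_geo {z : ℂ} (hz : ‖z‖ < 1) :
    HasSum (fun k : ℕ => (2 * (k : ℂ) + 1) * z ^ k) ((1 + z) / (1 - z) ^ 2) := by
  have h1 := hasSum_coe_mul_geometric_of_norm_lt_one hz
  have h2 := hasSum_geometric_of_norm_lt_one hz
  have h3 := (h1.mul_left 2).add h2
  have hne : (1 - z) ≠ 0 := by
    intro h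
    have : z = 1 := by linear_combination -h
    rw [this] at hz
    simp at hz
  convert! h3 using 1
  · ext k
    ring
  · field_simp
    ring

theorem aux_geo_norm {z : ℂ} (hz : ‖z‖ < 1) :
    Summable (fun k : ℕ => ‖(2 * (k : ℂ) + 1) * z ^ k‖) := by
  have h1 := summable_norm_pow_mul_geometric_of_norm_lt_one 1 hz
  have h2 := summable_norm_pow_mul_geometric_of_norm_lt_one 0 hz
  refine Summable.of_nonneg_of_le (fun _ => norm_nonneg _) ?_ ((h1.mul_left 2).add h2)
  intro k
  have : (2 * (k : ℂ) + 1) * z ^ k = 2 * ((k : ℂ) ^ 1 * z ^ k) + (k : ℂ) ^ 0 * z ^ k := by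
    ring
  rw [this]
  refine (norm_add_le _ _).trans ?_
  rw [norm_mul 2]
  simp

theorem aux_prod (b : ℕ → ℂ) (hb1 : Summable fun j => ‖b j‖) (E : ℂ → ℂ)
    (hb2 : ∀ z ∈ closedBall (0:ℂ) 1, HasSum (fun j => b j * z ^ j) (E z))
    {z : ℂ} (hz : ‖z‖ < 1) :
    HasSum (fun m : ℕ => (∑ k ∈ Finset.range (m + 1), b k * (2 * ((m - k : ℕ) : ℂ) + 1)) * z ^ m)
      ((1 + z) / (1 - z) ^ 2 * E z) := by
  have hE := hb2 z (by simp [hz.le])
  have hG := aux_geo hz
  have hGn := aux_geo_norm hz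
  have hEn : Summable (fun j : ℕ => ‖b j * z ^ j‖) := by
    refine Summable.of_nonneg_of_le (fun _ => norm_nonneg _) ?_ hb1
    intro j
    rw [norm_mul, norm_pow]
    exact mul_le_of_le_one_right (norm_nonneg _) (pow_le_one₀ (norm_nonneg _) hz.le)
  have h := hasSum_sum_range_mul_of_summable_norm hEn hGn
  rw [hE.tsum_eq, hG.tsum_eq, mul_comm] at h
  convert! h using 1
  ext m
  rw [Finset.sum_mul]
  refine Finset.sum_congr rfl ?_
  intro k hk
  have hk' : k ≤ m := by
    have := Finset.mem_range.mp hk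
    omega
  have : z ^ m = z ^ k * z ^ (m - k) := by
    rw [← pow_add]
    congr 1
    omega
  rw [this]
  ring

theorem aux_coeff (F : ℂ → ℂ) (s : ℕ → ℂ)
    (h : ∀ z : ℂ, ‖z‖ < 1 → HasSum (fun m => s m * z ^ m) (deriv F z)) (m : ℕ) :
    coeff (m + 1) F = s m / ((m : ℂ) + 1) := by
  have hp : HasFPowerSeriesAt (deriv F) (FormalMultilinearSeries.ofScalars ℂ s) 0 := by
    rw [hasFPowerSeriesAt_iff]
    filter_upwards [Metric.ball_mem_nhds (0:ℂ) one_pos] with z hz
    have hz' : ‖z‖ < 1 := by simpa using hz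
    have := h z hz'
    simp only [FormalMultilinearSeries.coeff_ofScalars, zero_add, smul_eq_mul]
    convert! this using 1
    ext m
    ring
  obtain ⟨r, hr⟩ := hp
  have h1 := hr.factorial_smul 1 m
  rw [← iteratedDeriv_eq_iteratedFDeriv, FormalMultilinearSeries.ofScalars_apply_eq] at h1
  unfold coeff
  rw [iteratedDeriv_succ', ← h1]
  have hf : ((m.factorial : ℕ) : ℂ) ≠ 0 := by
    exact_mod_cast m.factorial_ne_zero
  have hm : ((m : ℂ) + 1) ≠ 0 := by
    exact_mod_cast Nat.succ_ne_zero m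
  rw [Nat.factorial_succ]
  push_cast
  simp only [one_pow, smul_eq_mul, mul_one, nsmul_eq_mul]
  field_simp

theorem aux_lim (b : ℕ → ℂ) (hb1 : Summable fun j => ‖b j‖) :
    Tendsto (fun m : ℕ => (∑ k ∈ Finset.range (m + 1), b k * (2 * ((m - k : ℕ) : ℂ) + 1)) / ((m : ℂ) + 1))
      atTop (𝓝 (2 * ∑' j, b j)) := by
  have key : Tendsto (fun m : ℕ => ∑' k : ℕ, (if k ∈ Finset.range (m + 1) then
      b k * ((2 * ((m - k : ℕ) : ℂ) + 1) / ((m : ℂ) + 1)) else 0)) atTop (𝓝 (∑' j, 2 * b j)) := by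
    refine tendsto_tsum_of_dominated_convergence (bound := fun j => 2 * ‖b j‖) (hb1.mul_left 2) ?_ ?_
    · intro k
      have h1 : Tendsto (fun m : ℕ => b k * (2 - (2 * (k : ℂ) + 1) / ((m : ℂ) + 1))) atTop
          (𝓝 (b k * (2 - 0))) := by
        refine Tendsto.const_mul _ (Tendsto.sub tendsto_const_nhds ?_)
        have h2 : Tendsto (fun m : ℕ => (1 : ℂ) / ((m : ℂ) + 1)) atTop (𝓝 0) :=
          tendsto_one_div_add_atTop_nhds_zero_nat
        have h3 := h2.const_mul (2 * (k : ℂ) + 1)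
        rw [mul_zero] at h3
        refine h3.congr ?_
        intro m
        ring
      rw [sub_zero, mul_comm (b k) 2] at h1
      refine h1.congr' ?_
      filter_upwards [eventually_ge_atTop k] with m hm
      rw [if_pos (Finset.mem_range.mpr (by omega))]
      rw [Nat.cast_sub hm]
      have hm' : ((m : ℂ) + 1) ≠ 0 := by
        exact_mod_cast Nat.succ_ne_zero m
      field_simp
      ring
    · refine Eventually.of_forall ?_
      intro m k
      split_ifs with hk
      · rw [norm_mul, mul_comm]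
        refine mul_le_mul_of_nonneg_right ?_ (norm_nonneg _)
        have e1 : (2 * ((m - k : ℕ) : ℂ) + 1) / ((m : ℂ) + 1) =
            (((2 * ((m - k : ℕ) : ℝ) + 1) / ((m : ℝ) + 1) : ℝ) : ℂ) := by
          push_cast
          rfl
        rw [e1, Complex.norm_real, Real.norm_eq_abs, abs_of_nonneg (by positivity)]
        rw [div_le_iff₀ (by positivity)]
        have : ((m - k : ℕ) : ℝ) ≤ m := by
          exact_mod_cast Nat.sub_le m k
        linarith
      · rw [norm_zero]
        positivity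
  rw [tsum_mul_left] at key
  refine key.congr ?_
  intro m
  rw [tsum_eq_sum (s := Finset.range (m + 1))]
  · rw [Finset.sum_div]
    refine Finset.sum_congr rfl ?_
    intro k hk
    rw [if_pos hk]
    ring
  · intro k hk
    rw [if_neg hk]

theorem coef_lim
    (hb : ∃ b : ℕ → ℂ, (Summable fun j => ‖b j‖) ∧ ∀ z ∈ closedBall (0:ℂ) 1,
      HasSum (fun j => b j * z ^ j) (exp ((2 / (Real.pi : ℂ)) * Ti2 z)))
    (F : ℂ → ℂ) (hF : DifferentiableOn ℂ F (ball (0:ℂ) 1))
    (hd : ∀ z ∈ ball (0:ℂ) 1, deriv F z = (1 + z) / (1 - z) ^ 2 * exp ((2 / (Real.pi : ℂ)) * Ti2 z)) :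
    Tendsto (fun n : ℕ => coeff n F) atTop (𝓝 (2 * exp ((2 / (Real.pi : ℂ)) * Ti2 1))) := by
  obtain ⟨b, hb1, hb2⟩ := hb
  have hlim := aux_lim b hb1
  have hE1 : ∑' j, b j = exp ((2 / (Real.pi : ℂ)) * Ti2 1) := by
    have := hb2 1 (by simp)
    simp only [one_pow, mul_one] at this
    exact this.tsum_eq
  rw [hE1] at hlim
  rw [← tendsto_add_atTop_iff_nat 1]
  refine hlim.congr ?_
  intro m
  refine (aux_coeff F (fun m : ℕ => ∑ k ∈ Finset.range (m + 1), b k * (2 * ((m - k : ℕ) : ℂ) + 1)) ?_ m).symm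
  intro z hz
  have h1 := aux_prod b hb1 (fun z => exp ((2 / (Real.pi : ℂ)) * Ti2 z)) hb2 hz
  rw [hd z (by simpa using hz)]
  exact h1

end Pool.Agent.Helper859.SP.Y7
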