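import Pool.Agent.Helper859.SP.Defs
set_option linter.all false
open Complex MeasureTheory Set Filter Topology Metric

namespace Pool.Agent.Helper859.SP.Y8
open Pool.Agent.Helper859.SP

theorem Ti2_one : Ti2 1 = ((∑' k : ℕ, (-1 : ℝ) ^ k / (2 * k + 1) ^ 2 : ℝ) : ℂ) := by
  unfold Ti2
  rw [Complex.ofReal_tsum]
  refine tsum_congr (fun k => ?_)
  push_cast
  rw [one_pow, mul_one]

end Pool.Agent.Helper859.SP.Y8
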